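import Pool.Agent.T2h83.GD.Conv

/-!
Project GD (helper83): the least differences of primes in residue classes.
-/

set_option autoImplicit false

namespace Pool.Agent.T2h83.GD

open Finset
open Pool.Agent.R460.GS
open Pool.Agent.T2h83.GT
open Pool.Agent.H560R3.GB (sing)

/-- the number of the members of a residue class in an interval -/
theorem class_ge (X H q : ℕ) (a : ℤ) (hq : 1 ≤ q) :
    (H : ℝ) / q - 1 ≤ (((Ioc X (X + H)).filter (fun n : ℕ => (n : ℤ) ≡ a [ZMOD q])).card : ℝ) := by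
  classical
  have hq0 : (0 : ℝ) < q := by exact_mod_cast hq
  have h1 : H / q ≤ ((Ioc X (X + H)).filter (fun n : ℕ => (n : ℤ) ≡ a [ZMOD q])).card := by
    obtain ⟨c, hc⟩ : ∃ c : ℕ, c = (((a - X - 1) % (q : ℤ))).toNat := ⟨_, rfl⟩
    have hqz : (q : ℤ) ≠ 0 := by exact_mod_cast (by omega : q ≠ 0)
    have hqz' : (0 : ℤ) < q := by exact_mod_cast hq
    have hc1 : (c : ℤ) = (a - X - 1) % (q : ℤ) := by
      rw [hc, Int.toNat_of_nonneg (Int.emod_nonneg _ hqz)]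
    have hc2 : (c : ℤ) < q := by rw [hc1]; exact Int.emod_lt_of_pos _ hqz'
    have hc3 : (q : ℤ) ∣ (a - X - 1) - c := by rw [hc1]; exact Int.dvd_self_sub_emod
    calc H / q = (range (H / q)).card := (card_range _).symm
      _ ≤ _ := by
        apply card_le_card_of_injOn (fun j => X + 1 + c + j * q)
        · intro j hj
          rw [mem_coe, mem_range] at hj
          have e1 : (j + 1) * q ≤ H / q * q := Nat.mul_le_mul_right _ hj
          have e2 : H / q * q ≤ H := Nat.div_mul_le_self _ _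
          have e3 : (j + 1) * q = j * q + q := by ring
          have e4 : c < q := by exact_mod_cast hc2
          have : X + 1 + c + j * q ∈ (Ioc X (X + H)).filter (fun n : ℕ => (n : ℤ) ≡ a [ZMOD q]) := by
            rw [mem_filter, mem_Ioc]
            refine ⟨⟨by omega, by omega⟩, ?_⟩
            rw [Int.modEq_iff_dvd]
            have e5 : a - ((X + 1 + c + j * q : ℕ) : ℤ) = ((a - X - 1) - c) - j * q := by push_cast; ring
            rw [e5]
            exact Int.dvd_sub hc3 (Dvd.intro_left _ rfl)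
          exact this
        · intro j _ j' _ hjj
          simp only at hjj
          have : j * q = j' * q := by omega
          exact Nat.eq_of_mul_eq_mul_right (by omega) this
  have h2 : (H : ℝ) / q - 1 ≤ ((H / q : ℕ) : ℝ) := by
    have := Nat.lt_div_mul_add (show 0 < q by omega) (a := H)
    have h3 : (H : ℝ) < ((H / q : ℕ) : ℝ) * q + q := by exact_mod_cast this
    rw [sub_le_iff_le_add, div_le_iff₀ hq0]
    linarith
  exact h2.trans (by exact_mod_cast h1)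

/-- the members of a class which are not in a small exceptional set -/
lemma exists_good {x : ℝ} {q M : ℕ} {b : ℤ} (hM : 1 ≤ M) (hx : 4 * M ≤ x) (E : Set ℕ) (hE : E.Finite)
    (hc : (E.ncard : ℝ) ≤ x / (q * (16 * (M : ℝ)))) (hq : 1 ≤ q) (hqx : 16 * (q : ℝ) * M ≤ x) :
    ∃ h : ℕ, 0 < h ∧ (h : ℝ) ≤ x ∧ (h : ℤ) ≡ b [ZMOD ((q * M : ℕ) : ℤ)] ∧ h ∉ E := by
  classical
  have hq0 : (0 : ℝ) < q := by exact_mod_cast hq
  have hM0 : (0 : ℝ) < M := by exact_mod_cast hM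
  have hM1 : (1 : ℝ) ≤ M := by exact_mod_cast hM
  have hx0 : 0 < x := by linarith
  have h1 := class_ge 0 ⌊x⌋₊ (q * M) b (Nat.mul_pos hq hM)
  rw [Nat.zero_add] at h1
  have hf1 : (⌊x⌋₊ : ℝ) ≤ x := Nat.floor_le hx0.le
  have hf2 : x < (⌊x⌋₊ : ℝ) + 1 := Nat.lt_floor_add_one x
  obtain ⟨S, hS⟩ : ∃ S, S = (Ioc 0 ⌊x⌋₊).filter (fun n : ℕ => (n : ℤ) ≡ b [ZMOD ((q * M : ℕ) : ℤ)]) := ⟨_, rfl⟩
  rw [← hS] at h1
  have h2 : x / (q * M) - 2 ≤ (S.card : ℝ) := by
    refine le_trans ?_ h1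
    have e1 : x / (q * M) ≤ ((⌊x⌋₊ : ℝ) + 1) / ((q : ℝ) * M) := by gcongr
    have e2 : ((⌊x⌋₊ : ℝ) + 1) / ((q : ℝ) * M) = (⌊x⌋₊ : ℝ) / ((q : ℝ) * M) + 1 / ((q : ℝ) * M) := by ring
    have e3 : 1 / ((q : ℝ) * M) ≤ 1 := by
      rw [div_le_one (by positivity)]
      have : (1 : ℝ) ≤ q := by exact_mod_cast hq
      nlinarith
    push_cast
    linarith
  by_contra hcon
  push Not at hcon
  have h3 : (S : Set ℕ) ⊆ E := by
    intro h hh
    rw [mem_coe, hS, mem_filter, mem_Ioc] at hh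
    refine hcon h hh.1.1 ?_ hh.2
    exact le_trans (by exact_mod_cast hh.1.2) hf1
  have h4 := Set.ncard_le_ncard h3 hE
  rw [Set.ncard_coe_finset] at h4
  have h5 : (S.card : ℝ) ≤ x / (q * (16 * (M : ℝ))) := le_trans (by exact_mod_cast h4) hc
  have h6 : x / (q * (16 * (M : ℝ))) = x / (q * M) / 16 := by
    rw [div_div]
    congr 1
    ring
  rw [h6] at h5
  have h7 : 16 ≤ x / (q * M) := by
    rw [le_div_iff₀ (by positivity)]
    linarith
  linarith

/-- every residue class contains a small difference of primes -/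
theorem least_one (ε : ℝ) (hε : 0 < ε) (T : ℕ) : ∃ q₀ : ℕ, ∀ q : ℕ, q₀ ≤ q → ∀ a : ℤ,
    (Int.gcd a q : ℝ) ≤ Real.log q ^ T → (Even a ∨ Odd q) →
      ∃ p p' : ℕ, p.Prime ∧ p'.Prime ∧ p < p' ∧ ((p' : ℤ) - p) ≡ a [ZMOD q] ∧ (p' : ℝ) ≤ (q : ℝ) ^ (6 / 5 + ε) := by
  classical
  obtain ⟨e, he⟩ : ∃ e, e = min ε 1 := ⟨_, rfl⟩
  have he0 : 0 < e := by rw [he]; exact lt_min hε one_pos
  have he1 : e ≤ 1 := by rw [he]; exact min_le_right _ _
  have he2 : e ≤ ε := by rw [he]; exact min_le_left _ _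
  obtain ⟨x₀, h1⟩ := gd_one (1 / 100) (by norm_num) (θ := 5 / 6) (by norm_num) le_rfl (e / 6) (by positivity) 1 T
  obtain ⟨Q₁, h2⟩ := Filter.eventually_atTop.1 (Pool.Agent.Y614.GJ.Core.ev_log 1 (s := e / 8) (by positivity)
    (64 + |x₀|))
  refine ⟨Q₁ + 3, fun q hq a ha hpar => ?_⟩
  obtain ⟨hL, hLp⟩ := h2 q (by omega)
  rw [pow_one] at hLp
  have habs := abs_nonneg x₀
  have habs' := le_abs_self x₀
  have hq1 : 1 ≤ q := by omega
  have hqr : (1 : ℝ) ≤ q := by exact_mod_cast hq1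
  have hq0 : (0 : ℝ) < q := by linarith
  obtain ⟨x, hx⟩ : ∃ x : ℝ, x = (q : ℝ) ^ (6 / 5 + e) / 2 := ⟨_, rfl⟩
  have hqe : (64 : ℝ) ≤ (q : ℝ) ^ (e / 8) := by linarith
  have hx1 : (q : ℝ) ^ (6 / 5 + e / 2) ≤ x := by
    rw [hx, le_div_iff₀ two_pos]
    have e1 : (2 : ℝ) ≤ (q : ℝ) ^ (e / 2) := by
      calc (2 : ℝ) ≤ (q : ℝ) ^ (e / 8) := by linarith
        _ ≤ (q : ℝ) ^ (e / 2) := Real.rpow_le_rpow_of_exponent_le hqr (by linarith)
    calc (q : ℝ) ^ (6 / 5 + e / 2) * 2 ≤ (q : ℝ) ^ (6 / 5 + e / 2) * (q : ℝ) ^ (e / 2) := by gcongr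
      _ = (q : ℝ) ^ (6 / 5 + e) := by rw [← Real.rpow_add hq0]; congr 1; ring
  have hqx0 : (q : ℝ) ≤ (q : ℝ) ^ (6 / 5 + e / 2) := by
    calc (q : ℝ) = (q : ℝ) ^ (1 : ℝ) := (Real.rpow_one _).symm
      _ ≤ _ := Real.rpow_le_rpow_of_exponent_le hqr (by linarith)
  have hqx1 : 32 * (q : ℝ) ≤ x := by
    refine le_trans ?_ hx1
    calc 32 * (q : ℝ) ≤ (q : ℝ) ^ (e / 8) * q := by
          apply mul_le_mul_of_nonneg_right _ hq0.le
          linarith
      _ = (q : ℝ) ^ (e / 8 + 1) := by rw [Real.rpow_add hq0, Real.rpow_one]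
      _ ≤ (q : ℝ) ^ (6 / 5 + e / 2) := Real.rpow_le_rpow_of_exponent_le hqr (by linarith)
  have hLq : Real.log q ≤ q := (Real.log_le_sub_one_of_pos hq0).trans (by linarith)
  have hx0 : 0 < x := by linarith
  have hlogx : Real.log q ≤ Real.log x := Real.log_le_log hq0 (by linarith)
  have hqx2 : (q : ℝ) ≤ x ^ (5 / 6 - e / 6) := by
    calc (q : ℝ) = (q : ℝ) ^ (1 : ℝ) := (Real.rpow_one _).symm
      _ ≤ (q : ℝ) ^ ((6 / 5 + e / 2) * (5 / 6 - e / 6)) := by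
          apply Real.rpow_le_rpow_of_exponent_le hqr
          nlinarith
      _ = ((q : ℝ) ^ (6 / 5 + e / 2)) ^ (5 / 6 - e / 6) := by rw [← Real.rpow_mul hq0.le]
      _ ≤ x ^ (5 / 6 - e / 6) := Real.rpow_le_rpow (by positivity) hx1 (by linarith)
  have hgcd : (Int.gcd a q : ℝ) ≤ Real.log x ^ T := ha.trans (pow_le_pow_left₀ (by linarith) hlogx T)
  obtain ⟨g1, g2⟩ := h1 x (by linarith) q hq1 hqx2 a hgcd
  -- an even number in the class
  obtain ⟨b, hb1, hb2⟩ : ∃ b : ℤ, Even b ∧ b ≡ a [ZMOD q] := by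
    rcases hpar with h | h
    · exact ⟨a, h, Int.ModEq.refl _⟩
    · rcases Int.even_or_odd a with h3 | h3
      · exact ⟨a, h3, Int.ModEq.refl _⟩
      · refine ⟨a + q, h3.add_odd (by exact_mod_cast h), ?_⟩
        rw [Int.modEq_iff_dvd]
        exact ⟨-1, by ring⟩
  have hlx : 64 ≤ Real.log x := by linarith
  obtain ⟨h, k1, k2, k3, k4⟩ := exists_good (x := x) (q := q) (M := 2) (b := b) (by norm_num)
    (by push_cast; linarith) _ g1 (by
      refine g2.trans ?_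
      apply div_le_div_of_nonneg_left hx0.le (by positivity)
      rw [pow_one]
      apply mul_le_mul_of_nonneg_left _ hq0.le
      push_cast
      linarith) hq1 (by push_cast; linarith)
  rw [Int.modEq_iff_dvd] at k3 hb2
  push_cast at k3
  have k5 : 2 ∣ 1 * h := by
    rw [one_mul]
    have h3 : (2 : ℤ) ∣ b - h := (Dvd.intro_left _ rfl).trans k3
    have h4 : (2 : ℤ) ∣ b := even_iff_two_dvd.1 hb1
    have h5 : (2 : ℤ) ∣ h := (Int.dvd_iff_dvd_of_dvd_sub h3).1 h4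
    exact_mod_cast h5
  have k6 : (h : ℤ) ≡ a [ZMOD q] := by
    rw [Int.modEq_iff_dvd]
    have h3 : (q : ℤ) ∣ b - h := (Dvd.intro _ rfl).trans k3
    have h4 := Int.dvd_add hb2 h3
    rwa [show a - b + (b - h) = a - (h : ℤ) by ring] at h4
  obtain ⟨f0, f1⟩ := FU_bd (θ := 5 / 6) (by norm_num) le_rfl
  obtain ⟨F, hF⟩ : ∃ F, F = FU (5 / 6 / (2 - 2 * (5 / 6))) := ⟨_, rfl⟩
  rw [← hF] at k4 f0 f1
  have hgood : Good 1 1 (1 - F ^ 2 - 1 / 100) (1 + F + 1 / 100) x h := by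
    by_contra hcon
    exact k4 ⟨k1, k2, k5, Nat.coprime_one_right h, k6, hcon⟩
  have hlog0 : 0 < Real.log x := by linarith
  obtain ⟨m1, -⟩ := hgood 0 x le_rfl le_rfl (by
    rw [sub_zero, pow_one]
    exact div_le_self hx0.le (by linarith))
  have hpos : 0 < (pairs 1 h 0 x : ℝ) := by
    refine lt_of_lt_of_le ?_ m1
    have hS := one_le_sing (1 * h)
    have hF2 : F ^ 2 ≤ (965 / 1000) ^ 2 := pow_le_pow_left₀ f0 f1 2
    norm_num at hF2
    rw [sub_zero]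
    apply mul_pos (by linarith)
    positivity
  have hpos' : pairs 1 h 0 x ≠ 0 := by
    intro h0
    rw [h0] at hpos
    simp at hpos
  obtain ⟨p, hp1, hp2, hp3, hp4⟩ := Set.nonempty_of_ncard_ne_zero hpos'
  rw [one_mul] at hp2
  refine ⟨p, p + h, hp1, hp2, by omega, ?_, ?_⟩
  · have e1 : (((p + h : ℕ) : ℤ)) - p = h := by push_cast; ring
    rw [e1]
    exact k6
  · push_cast
    calc (p : ℝ) + h ≤ x + x := add_le_add hp4 k2
      _ = (q : ℝ) ^ (6 / 5 + e) := by rw [hx]; ring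
      _ ≤ (q : ℝ) ^ (6 / 5 + ε) := Real.rpow_le_rpow_of_exponent_le hqr (by linarith)

end Pool.Agent.T2h83.GD
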