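import Pool.Agent.T2h83.GD.One
import Pool.Agent.T2h83.GT.Wf
import Pool.Agent.Y697.GJ.LiftC
import Pool.Agent.R460.GP.Asm

/-!
Project GD (helper83), the assembly: two-sided bounds for the numbers of the prime pairs `p`, `m p + n` in all
windows, for all but few of the `n` in the residue classes of every modulus up to `N ^ t`, `t < 5 / 6`.
-/

set_option autoImplicit false

namespace Pool.Agent.T2h83.GD

open Finset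
open Pool.Agent.Y883.GJ
open Pool.Agent.R460.GS
open Pool.Agent.R460.GH
open Pool.Agent.T2h83.GT
open Pool.Agent.H560R3.GB (sing)

theorem core_all : Core5PStm :=
  core5P Pool.Agent.Y697.GJ.liftC Pool.Agent.Y708.GJ.lift Pool.Agent.Y697.GJ.parsC Pool.Agent.Y872.GJ.pars
    Pool.Agent.Y297.GJ.orth Pool.Agent.Y812.GJ.nonU

theorem errG_all {θ : ℝ} {g W : ℕ → ℕ → ℝ} (hθ : θ ≤ 9 / 10) (hG : Apx θ g W) : ErrG θ g W :=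
  errG hθ hG core_all (tiMaj2 Pool.Agent.Y812.GJ.l2) Pool.Agent.Y412.GJ.tiMin Pool.Agent.Y812.GJ.lsh_le
    Pool.Agent.Y883.GJ.model_all

theorem shAll_all {θ : ℝ} {g W : ℕ → ℕ → ℝ} (hθ : θ ≤ 9 / 10) (hG : Apx θ g W) : ShAll θ g W :=
  shAll hθ hG (shm4 Pool.Agent.Y297.GJ.orth Pool.Agent.Y662.GJ.jac)
    (shl4 Pool.Agent.Y235.GJ.vau Pool.Agent.Y662.GJ.jac Pool.Agent.Y812.GJ.l2)
    (tiMaj2 Pool.Agent.Y812.GJ.l2) Pool.Agent.Y812.GJ.lsh_le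

/-- the error terms for the multiplier `m` -/
def ErrStm (m : ℕ) : Prop := ∀ (θ : ℝ) (g W : ℕ → ℕ → ℝ), ErrG θ g W → ShAll θ g W → ErrD m θ g W

/-- the general theorem -/
theorem gd_gen {m : ℕ} (hm : 1 ≤ m) (hE : ErrStm m) (hWin : WinStm m) {θ δ : ℝ} (hθ0 : 1 / 2 ≤ θ) (hθ9 : θ ≤ 9 / 10)
    (hδ : 0 ≤ δ) (hδ1 : δ ≤ 1) (hup : ∃ N₀ : ℕ, ∀ N : ℕ, N₀ ≤ N → Wg θ N N ≤ 1 + δ) (ε : ℝ) (hε : 0 < ε)
    (hε1 : ε ≤ 1 / 2) (t : ℝ) (ht : t < θ) (A T : ℕ) :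
    ∃ N₀ : ℕ, ∀ N : ℕ, N₀ ≤ N → ∀ q₁ q₂ q : ℕ, q = q₁ * q₂ → 1 ≤ q → (q₁ : ℝ) ≤ Real.log N ^ T →
      Nat.Coprime q₂ m → (q : ℝ) ≤ (N : ℝ) ^ t → ∀ a : ℕ, (Nat.gcd a q : ℝ) ≤ Real.log N ^ T →
        ((badD m (PairT m A (1 - δ ^ 2 - ε) (1 + δ + ε) N) N q a).card : ℝ) ≤
          (N : ℝ) / (q * Real.log N ^ A) := by
  obtain ⟨h1, h2⟩ := apx_all hθ0 (by linarith) hδ hup
  exact main_D hm hδ hδ1 h1 h2 (hE _ _ _ (errG_all hθ9 h1) (shAll_all hθ9 h1)) hWin ε hε hε1 t ht A T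

lemma PairT_mono {m A : ℕ} {lo lo' hi hi' : ℝ} {N n : ℕ} (hlo : lo' ≤ lo) (hhi : hi ≤ hi')
    (h : PairT m A lo hi N n) : PairT m A lo' hi' N n := by
  intro y₁ y₂ h1 h2 h3
  obtain ⟨k1, k2⟩ := h y₁ y₂ h1 h2 h3
  have h5 : (0 : ℝ) ≤ (y₂ : ℝ) - y₁ := by
    have : (y₁ : ℝ) ≤ y₂ := by exact_mod_cast h1.le
    linarith
  have h6 := one_le_sing (m * n)
  have h7 : 0 ≤ sing (m * n) * ((y₂ : ℝ) - y₁) / Real.log N ^ 2 := by positivity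
  exact ⟨(mul_le_mul_of_nonneg_right hlo h7).trans k1, k2.trans (mul_le_mul_of_nonneg_right hhi h7)⟩

lemma badD_mono {m : ℕ} {P Q : ℕ → Prop} (N q a : ℕ) (h : ∀ n, Q n → P n) : badD m P N q a ⊆ badD m Q N q a := by
  classical
  intro n hn
  unfold badD at hn ⊢
  rw [Finset.mem_filter] at hn ⊢
  obtain ⟨c1, c2, c3, c4, c5⟩ := hn
  exact ⟨c1, c2, c3, c4, fun hw => c5 (h n hw)⟩

/-- `2 / 3 ≤ θ ≤ 5 / 6` -/
theorem gd_F {m : ℕ} (hm : 1 ≤ m) (hE : ErrStm m) (hWin : WinStm m) (ε : ℝ) (hε : 0 < ε) {θ : ℝ} (hθ0 : 2 / 3 ≤ θ)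
    (hθ1 : θ ≤ 5 / 6) (t : ℝ) (ht : t < θ) (A T : ℕ) :
    ∃ N₀ : ℕ, ∀ N : ℕ, N₀ ≤ N → ∀ q₁ q₂ q : ℕ, q = q₁ * q₂ → 1 ≤ q → (q₁ : ℝ) ≤ Real.log N ^ T →
      Nat.Coprime q₂ m → (q : ℝ) ≤ (N : ℝ) ^ t → ∀ a : ℕ, (Nat.gcd a q : ℝ) ≤ Real.log N ^ T →
        ((badD m (PairT m A (1 - FU (θ / (2 - 2 * θ)) ^ 2 - ε) (1 + FU (θ / (2 - 2 * θ)) + ε) N) N q a).card : ℝ) ≤
          (N : ℝ) / (q * Real.log N ^ A) := by
  obtain ⟨hl0, hl1⟩ := FU_bd hθ0 hθ1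
  obtain ⟨F, hF⟩ : ∃ F, F = FU (θ / (2 - 2 * θ)) := ⟨_, rfl⟩
  obtain ⟨e, he⟩ : ∃ e, e = min ε (1 / 10) / 4 := ⟨_, rfl⟩
  have he0 : 0 < e := by rw [he]; have := lt_min hε (show (0 : ℝ) < 1 / 10 by norm_num); linarith
  have he1 : 4 * e ≤ ε := by rw [he]; have := min_le_left ε (1 / 10 : ℝ); linarith
  have he2 : 4 * e ≤ 1 / 10 := by rw [he]; have := min_le_right ε (1 / 10 : ℝ); linarith
  obtain ⟨θ', hθ'⟩ : ∃ θ', θ' = max (1 / 2) ((t + θ) / 2) := ⟨_, rfl⟩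
  have a1 : 1 / 2 ≤ θ' := by rw [hθ']; exact le_max_left _ _
  have a2 : θ' < θ := by rw [hθ']; exact max_lt (by linarith) (by linarith)
  have a3 : t < θ' := by rw [hθ']; exact lt_of_lt_of_le (by linarith) (le_max_right _ _)
  have hup := up_all a1 a2 hθ0 hθ1 he0
  rw [← hF] at hup hl0 hl1 ⊢
  obtain ⟨δ, hδ⟩ : ∃ δ, δ = F + e := ⟨_, rfl⟩
  rw [← hδ] at hup
  obtain ⟨N₀, h⟩ := gd_gen hm hE hWin (θ := θ') (δ := δ) a1 (by linarith) (by linarith) (by linarith) hup e he0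
    (by linarith) t a3 A T
  refine ⟨N₀, fun N hN q₁ q₂ q hqq hq1 hqs hqc hqN a ha => ?_⟩
  refine le_trans ?_ (h N hN q₁ q₂ q hqq hq1 hqs hqc hqN a ha)
  have : badD m (PairT m A (1 - F ^ 2 - ε) (1 + F + ε) N) N q a ⊆
      badD m (PairT m A (1 - δ ^ 2 - e) (1 + δ + e) N) N q a := by
    refine badD_mono N q a fun n hw => PairT_mono ?_ ?_ hw
    · rw [hδ]
      nlinarith
    · rw [hδ]
      linarith
  exact_mod_cast Finset.card_le_card this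

end Pool.Agent.T2h83.GD
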