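import Pool.Agent.T2h83.GD.Err
import Pool.Agent.T2h83.GD.Core6

set_option autoImplicit false

/-! The error terms for a function with a density, for functions bounded in mean square. -/

namespace Pool.Agent.T2h83.GD

open Finset
open Pool.Agent.R460.GS
open Pool.Agent.R460.GP (cvd)
open Pool.Agent.T2h83.GT
open Pool.Agent.H807R2.Dav (ee)
open Pool.Agent.H373R2.T7 (lamz Vz pz lamz_ap)
open Pool.Agent.Y883.T3 (lsh)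
open Pool.Agent.Y883.GJ
open Pool.Agent.Y614.GJ.Core (ev_log)

/-- the mean squares of the correlations with `g - W Λ_z` -/
def Err6 (θ : ℝ) (g W : ℕ → ℕ → ℝ) : Prop := ∀ (A U₀ : ℕ) (t : ℝ), t < θ → ∃ C B₂ : ℕ, ∀ K U₂ : ℕ,
  ∃ B : ℕ, ∀ E : ℕ, ∃ N₀ : ℕ, ∀ N : ℕ, N₀ ≤ N → ∀ z : ℕ, Real.log N ^ B ≤ z → (z : ℝ) ≤ Real.log N ^ E →
    ∃ r : ℕ, Par U₀ N z r ∧ Par U₂ N z r ∧ ∑ n ∈ Icc 1 N, |lamz z n - lsh z r n| ≤ N / Real.log N ^ U₀ ∧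
    ∀ F : ℕ → ℂ, ∑ n ∈ Icc 1 N, ‖F n‖ ^ 2 ≤ N * Real.log N ^ 8 → ∀ (q : ℕ) [NeZero q], (q : ℝ) ≤ (N : ℝ) ^ t → ∀ a : ZMod q, ShQ N B₂ C K F q a →
    ∀ y₁ y₂ : ℕ, y₁ ≤ N → y₂ ≤ N →
      ∑ n ∈ (Icc (-(N : ℤ)) N).filter (fun n : ℤ => (n : ZMod q) = a),
        ‖cvd F (fC (g N) (W N) z r) y₁ y₂ n‖ ^ 2 ≤ (N : ℝ) ^ 3 / (q * Real.log N ^ A)

theorem err6 {θ : ℝ} {g W : ℕ → ℕ → ℝ} (hθ : θ ≤ 9 / 10) (hG : Apx θ g W)
    (hCore : Core6PStm) (hT1 : TiMaj2Stm) (hT2 : TiMinStm) (hLsh : LshStm) (hModel : ModelStm) : Err6 θ g W := by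
  intro A U₀ t ht
  obtain ⟨s, hsd⟩ : ∃ s, s = (t + θ) / 2 := ⟨_, rfl⟩
  have hts : t < s := by linarith
  have hsθ : s < θ := by linarith
  obtain ⟨ρ, hρd⟩ : ∃ ρ, ρ = 7 / 10 - s := ⟨_, rfl⟩
  have hρ : -(1 / 5) ≤ ρ := by linarith
  have hρ' : -(3 / 10) ≤ ρ := by linarith
  obtain ⟨A₁, hC1⟩ := hCore A (7 / 10 - t) ρ hρ' (by linarith)
  obtain ⟨Cg, Ng, hg⟩ := hG.min (A₁ + 2) s hsθ
  obtain ⟨Ch, Nh, hh⟩ := nHT hT2 hLsh (A₁ + 4) hρ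
  obtain ⟨C, hC⟩ : ∃ C, C = max Cg Ch := ⟨_, rfl⟩
  obtain ⟨A₂, hC2⟩ := hC1 C
  obtain ⟨C₃, Nm1, hm1⟩ := hG.maj (A₂ + 2) C s hsθ
  obtain ⟨Nm2, hm2⟩ := mHT hT1 hLsh (A₂ + 4) C hρ
  obtain ⟨B₂, hC3⟩ := hC2 C₃
  refine ⟨C, B₂, fun K U₂ => ?_⟩
  obtain ⟨U, Nc, hC4⟩ := hC3 K
  obtain ⟨U₁, hU₁⟩ : ∃ U₁, U₁ = max (max U₀ U₂) (U + 2) := ⟨_, rfl⟩
  obtain ⟨Bm, hBm⟩ := hModel U₁
  obtain ⟨ct, Nw, hWB⟩ := hG.wb
  obtain ⟨Nn1, hn1⟩ := hG.nc (U + 1)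
  refine ⟨max Bm K, fun E => ?_⟩
  obtain ⟨Nmo, hmo⟩ := hBm E
  obtain ⟨Nl, hl⟩ := lamz_ap E (U + 2)
  obtain ⟨Na, ha⟩ := hG.ap K (U + 2)
  obtain ⟨Ne, hNe⟩ := Filter.eventually_atTop.1 (ev_log 1 (s := 3 / 10) (by norm_num) (4 + 4 * |ct|))
  refine ⟨Ng + Nh + Nm1 + Nm2 + Nc + Nw + Nmo + Nl + Na + Ne + Nn1 + 1, fun N hN z hz1 hz2 => ?_⟩
  have hN1 : 1 ≤ N := by omega
  obtain ⟨hLe, -⟩ := hNe N (by omega)
  have hct := abs_nonneg ct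
  have hctl := le_abs_self ct
  have hL1 : 1 ≤ Real.log N := by linarith
  have hL2 : 2 ≤ Real.log N := by linarith
  have hzB : Real.log N ^ Bm ≤ z := (pow_le_pow_right₀ hL1 (le_max_left _ _)).trans hz1
  have hzK : Real.log N ^ K ≤ z := (pow_le_pow_right₀ hL1 (le_max_right _ _)).trans hz1
  have hz1' : 1 ≤ z := by
    have : (1 : ℝ) ≤ z := (one_le_pow₀ hL1).trans hz1
    exact_mod_cast this
  obtain ⟨r, hPar, hsum⟩ := hmo N (by omega) z hzB hz2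
  obtain ⟨hW, hgb⟩ := hWB N (by omega)
  have hct0 := hW.nn
  have hdiv : ∀ V : ℕ, V ≤ U₁ → (N : ℝ) / Real.log N ^ U₁ ≤ N / Real.log N ^ V := fun V hV =>
    div_le_div_of_nonneg_left (Nat.cast_nonneg _) (by positivity) (pow_le_pow_right₀ hL1 hV)
  have hU0 : U₀ ≤ U₁ := by rw [hU₁]; exact (le_max_left _ _).trans (le_max_left _ _)
  have hU1 : U₂ ≤ U₁ := by rw [hU₁]; exact (le_max_right _ _).trans (le_max_left _ _)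
  have hU2 : U + 2 ≤ U₁ := by rw [hU₁]; exact le_max_right _ _
  have hP0 := par_mono hL1 hU0 hPar
  have hP1 := par_mono hL1 hU1 hPar
  have hP2 := par_mono hL1 hU2 hPar
  refine ⟨r, hP0, hP1, hsum.trans (hdiv _ hU0), ?_⟩
  intro F hBdF q _ hq a hSh y₁ y₂ hy₁ hy₂
  have hMin : MinAt N ρ A₁ C (fC (g N) (W N) z r) := by
    rw [hC]
    have hh' : MinAt N ρ (A₁ + 4) Ch (fun n => ((lsh z r n : ℝ) : ℂ)) := hh N (by omega) z r hPar.hD hPar.hV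
    refine min_fC hL2 ?_ (min_hC hW (by linarith) hh')
    rw [hρd]
    exact hg N (by omega)
  have hMaj : MajAt N ρ A₂ C C₃ (fC (g N) (W N) z r) := by
    refine maj_fC hL2 ?_ (maj_hC hW (by linarith)
      (fun q _ hq => hm2 N (by omega) q hq z r hPar.hD hPar.hV))
    rw [hρd]
    exact hm1 N (by omega)
  have hAp : ApAt N K U (fC (g N) (W N) z r) := by
    refine ap_fC hW (by linarith) ?_ (hsum.trans (hdiv _ hU2)) (ha N (by omega))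
    intro q hq hqK c y hy
    refine hl N (by omega) z hz1' hz2 q hq ?_ c y hy
    exact_mod_cast hqK.trans hzK
  have hNc : NcAt N U (fC (g N) (W N) z r) := nc_fC (hn1 N (by omega)) hW hP2 (by linarith)
  refine hC4 N (by omega) F (fC (g N) (W N) z r) hBdF (bd_fC hgb hW hPar (by linarith)) hMin hMaj hAp hNc q
    ?_ a hSh y₁ y₂ hy₁ hy₂
  rw [show (7 / 10 - (7 / 10 - t) : ℝ) = t by ring]
  exact hq


end Pool.Agent.T2h83.GD
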