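import Pool.Agent.R460.GP.Core

set_option autoImplicit false

/-! The mean square of a correlation in a residue class, for general functions, with two exponents. -/

namespace Pool.Agent.T2h83.GD

open Finset
open Pool.Agent.R460.GS
open Pool.Agent.R460.GP
open Pool.Agent.Y883.GJ
open Pool.Agent.H807R2.Dav (ee)
open Pool.Agent.Y614.GJ.Core (P P_nonneg S_le P_le q_le_phi card_above gcd_above dirich ev_log)
open Pool.Agent.Y614.GJ.CoreC (S_leC)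

/-- the correlation with the shifted characters of a large conductor is small, for one class -/
def ShQ (N B C K : ℕ) (F : ℕ → ℂ) (q : ℕ) (a : ZMod q) : Prop :=
  ∀ j : ℕ, ((j + 1 : ℕ) : ℝ) ≤ Real.log N ^ C → ∀ χ : DirichletCharacter ℂ ((j + 1) * q),
    Real.log N ^ K < χ.conductor → ∀ a' : ZMod ((j + 1) * q), ((a'.val : ℕ) : ZMod q) = a →
    ∀ η : ℝ, |η| ≤ Real.log N ^ C / N → ∀ y : ℕ, y ≤ N → ∀ [NeZero ((j + 1) * q)],
    ‖∑ l : ZMod ((j + 1) * q), cl ((j + 1) * q) y F η l * χ (a' - l)‖ ≤ N / Real.log N ^ B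

/-- the mean square of a correlation in a residue class -/
def Core5PStm : Prop := ∀ (A : ℕ) (ρ₁ ρ₂ : ℝ), -(3 / 10) ≤ ρ₂ → ρ₂ < ρ₁ → ∃ A₁ : ℕ, ∀ C : ℕ, ∃ A₂ : ℕ, ∀ C₃ : ℕ,
  ∃ B₂ : ℕ, ∀ K : ℕ, ∃ U N₀ : ℕ, ∀ N : ℕ, N₀ ≤ N → ∀ F G : ℕ → ℂ, BdAt N F → BdAt N G →
  MinAt N ρ₂ A₁ C G → MajAt N ρ₂ A₂ C C₃ G → ApAt N K U G → NcAt N U G →
  ∀ (q : ℕ) [NeZero q], (q : ℝ) ≤ (N : ℝ) ^ (7 / 10 - ρ₁) → ∀ a : ZMod q, ShQ N B₂ C K F q a →
  ∀ y₁ y₂ : ℕ, y₁ ≤ N → y₂ ≤ N →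
    ∑ n ∈ (Icc (-(N : ℤ)) N).filter (fun n : ℤ => (n : ZMod q) = a), ‖cvd F G y₁ y₂ n‖ ^ 2 ≤
        (N : ℝ) ^ 3 / (q * Real.log N ^ A)

/-- the estimate for one frequency -/
lemma pointQ (h3C : LiftCStm) (h3 : LiftStm) (h5 : OrthStm) (F G : ℕ → ℂ) {A C : ℕ} {L : ℝ} {N q : ℕ} [NeZero q]
    {a : ZMod q} (hL : L = Real.log N) (hL8 : 8 ≤ L) (hN : 1 ≤ N)
    (hqN : (q : ℝ) ≤ N) (hqLC : (q : ℝ) * L ^ C ≤ N)
    (hmin : ∀ (k : ℕ) (h : ℤ) (β : ℝ), L ^ C ≤ k → (q : ℝ) * k * L ^ C ≤ N →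
      IsCoprime h (k : ℤ) → |q * β - h / k| ≤ 1 / (k : ℝ) ^ 2 →
      ∑ χ : DirichletCharacter ℂ q, ‖cs q N G β χ‖ ^ 2 ≤ (N : ℝ) ^ 2 / L ^ (A + 11))
    (hnon : ∀ β : ℝ, ∑ l ∈ univ.filter (fun l : ZMod q => ¬ IsUnit l),
      ‖cl q N G β l‖ ^ 2 ≤ (N : ℝ) ^ 2 / (q * L ^ (A + 9)) / 2)
    (hpw : ∀ j : ℕ, ((j + 1 : ℕ) : ℝ) ≤ L ^ C → ∀ a' : ZMod ((j + 1) * q),
      ((a'.val : ℕ) : ZMod q) = a → ∀ η : ℝ, |η| ≤ L ^ C / N →
      ‖∑ l : ZMod ((j + 1) * q), cl ((j + 1) * q) N F η l *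
        (starRingEnd ℂ) (cl ((j + 1) * q) N G η (l - a'))‖ ^ 2 ≤
      (N : ℝ) ^ 2 / ((((j + 1) * q : ℕ) : ℝ) * L ^ (A + 2 * C + 9)) *
        (∑ l : ZMod ((j + 1) * q), ‖cl ((j + 1) * q) N F η l‖ ^ 2 +
          ∑ l : ZMod ((j + 1) * q), ‖cl ((j + 1) * q) N G η l‖ ^ 2))
    (β : ℝ) :
    ‖∑ l : ZMod q, cl q N F β l * (starRingEnd ℂ) (cl q N G β (l - a))‖ ^ 2 ≤
      (N : ℝ) ^ 2 / (q * L ^ (A + 9)) * P q N F β +
      L ^ C * ((N : ℝ) ^ 2 / (q * L ^ (A + 2 * C + 9))) *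
        ∑ j ∈ range ⌊L ^ C⌋₊, (P ((j + 1) * q) N F β + P ((j + 1) * q) N G β) := by
  have hL0 : 0 < L := by linarith
  have hq0 : (0 : ℝ) < q := by exact_mod_cast NeZero.pos q
  have hN0 : (0 : ℝ) < N := by exact_mod_cast hN
  have hLC : 0 < L ^ C := by positivity
  have hsum0 : 0 ≤ ∑ j ∈ range ⌊L ^ C⌋₊,
      (P ((j + 1) * q) N F β + P ((j + 1) * q) N G β) :=
    sum_nonneg fun j _ => add_nonneg (P_nonneg _ _ _ _) (P_nonneg _ _ _ _)
  set n := ⌊(N : ℝ) / (q * L ^ C)⌋₊ with hn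
  have hn0 : 0 < n := by
    rw [hn, Nat.floor_pos, le_div_iff₀ (by positivity), one_mul]
    exact hqLC
  have hn1 : (n : ℝ) ≤ (N : ℝ) / (q * L ^ C) := Nat.floor_le (by positivity)
  have hn2 : (N : ℝ) / (q * L ^ C) < n + 1 := Nat.lt_floor_add_one _
  obtain ⟨j, h, hj, hcop, hx⟩ := dirich ((q : ℝ) * β) hn0
  have hjn : ((j + 1 : ℕ) : ℝ) ≤ n := by exact_mod_cast hj
  have hk0 : (0 : ℝ) < ((j + 1 : ℕ) : ℝ) := by positivity
  have hk1 : (1 : ℝ) ≤ ((j + 1 : ℕ) : ℝ) := by exact_mod_cast Nat.succ_pos j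
  have hP0 : 0 ≤ P q N F β := P_nonneg _ _ _ _
  by_cases hkC : L ^ C ≤ ((j + 1 : ℕ) : ℝ)
  · -- minor arcs
    have e1 : (q : ℝ) * ((j + 1 : ℕ) : ℝ) * L ^ C ≤ N := by
      have := (le_div_iff₀ (by positivity)).1 (hjn.trans hn1)
      linarith
    have e2 : |(q : ℝ) * β - h / ((j + 1 : ℕ) : ℝ)| ≤ 1 / ((j + 1 : ℕ) : ℝ) ^ 2 := by
      refine hx.trans ?_
      rw [sq]
      apply one_div_le_one_div_of_le (by positivity)
      apply mul_le_mul_of_nonneg_right _ hk0.le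
      linarith
    have e3 := hmin (j + 1) h β hkC e1 hcop e2
    have e4 := P_le h5 e3 (hnon β)
    have hφ0 : (0 : ℝ) < q.totient := by exact_mod_cast Nat.totient_pos.2 (NeZero.pos q)
    have e5 : ((q.totient : ℝ))⁻¹ ≤ 3 * L / q := by
      have h1 := q_le_phi (NeZero.pos q)
      have h2 : Real.log q ≤ L := by
        rw [hL]
        exact Real.log_le_log hq0 hqN
      rw [inv_eq_one_div, div_le_div_iff₀ hφ0 hq0, one_mul]
      refine h1.trans ?_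
      rw [mul_comm (3 * L)]
      apply mul_le_mul_of_nonneg_left _ hφ0.le
      linarith
    have e6 : ((q.totient : ℝ))⁻¹ * ((N : ℝ) ^ 2 / L ^ (A + 11)) ≤
        (N : ℝ) ^ 2 / (q * L ^ (A + 9)) / 2 := by
      calc ((q.totient : ℝ))⁻¹ * ((N : ℝ) ^ 2 / L ^ (A + 11))
          ≤ 3 * L / q * ((N : ℝ) ^ 2 / L ^ (A + 11)) := by gcongr
        _ = (N : ℝ) ^ 2 / (q * L ^ (A + 9)) * (3 / L) := by
            rw [show A + 11 = (A + 9) + 2 by ring, pow_add]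
            field_simp
        _ ≤ (N : ℝ) ^ 2 / (q * L ^ (A + 9)) * (1 / 2) := by
            have : 3 / L ≤ 1 / 2 := by
              rw [div_le_div_iff₀ hL0 (by norm_num)]
              linarith
            gcongr
        _ = _ := by ring
    have e7 : P q N G β ≤ (N : ℝ) ^ 2 / (q * L ^ (A + 9)) := by
      refine e4.trans ?_
      linarith
    calc ‖∑ l : ZMod q, cl q N F β l * (starRingEnd ℂ) (cl q N G β (l - a))‖ ^ 2
        ≤ P q N F β * P q N G β := S_leC q N F G β a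
      _ ≤ P q N F β * ((N : ℝ) ^ 2 / (q * L ^ (A + 9))) := by gcongr
      _ = (N : ℝ) ^ 2 / (q * L ^ (A + 9)) * P q N F β + 0 := by ring
      _ ≤ _ := by
          gcongr
          positivity
  · -- major arcs
    rw [not_le] at hkC
    set k : ℕ := j + 1 with hk
    have hηle : |β - h / ((k * q : ℕ) : ℝ)| ≤ L ^ C / N := by
      have e1 : β - h / ((k * q : ℕ) : ℝ) = ((q : ℝ) * β - h / (k : ℝ)) / q := by
        push_cast
        field_simp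
      rw [e1, abs_div, abs_of_pos hq0, div_le_div_iff₀ hq0 hN0]
      have e2 : (N : ℝ) ≤ (n + 1) * (q * L ^ C) := by
        have := (div_lt_iff₀ (by positivity)).1 hn2
        linarith
      have hn3 : (0 : ℝ) < n + 1 := by positivity
      calc |(q : ℝ) * β - h / (k : ℝ)| * N ≤ 1 / (((n : ℝ) + 1) * (k : ℝ)) * N := by gcongr
        _ ≤ 1 / ((n : ℝ) + 1) * N := by
            apply mul_le_mul_of_nonneg_right _ hN0.le
            apply one_div_le_one_div_of_le hn3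
            nlinarith
        _ ≤ 1 / ((n : ℝ) + 1) * ((n + 1) * (q * L ^ C)) := by gcongr
        _ = L ^ C * q := by field_simp
    have e3 := majorP h3C h3 F G (a := a)
      (X := (N : ℝ) ^ 2 / (((k * q : ℕ) : ℝ) * L ^ (A + 2 * C + 9)))
      (h := h) (β := β) (η := β - h / ((k * q : ℕ) : ℝ)) (by ring)
      (fun a' ha' => hpw j hkC.le a' ha' _ hηle)
    have hPk : 0 ≤ P (k * q) N F β + P (k * q) N G β :=
      add_nonneg (P_nonneg _ _ _ _) (P_nonneg _ _ _ _)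
    have e4 : P (k * q) N F β + P (k * q) N G β ≤ ∑ j ∈ range ⌊L ^ C⌋₊,
        (P ((j + 1) * q) N F β + P ((j + 1) * q) N G β) := by
      refine single_le_sum (f := fun j => P ((j + 1) * q) N F β + P ((j + 1) * q) N G β)
        (fun j _ => add_nonneg (P_nonneg _ _ _ _) (P_nonneg _ _ _ _)) (mem_range.2 ?_)
      have : k ≤ ⌊L ^ C⌋₊ := Nat.le_floor hkC.le
      omega
    have hX0 : 0 ≤ (N : ℝ) ^ 2 / (q * L ^ (A + 2 * C + 9)) := by positivity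
    calc ‖∑ l : ZMod q, cl q N F β l * (starRingEnd ℂ) (cl q N G β (l - a))‖ ^ 2
        ≤ (k : ℝ) ^ 2 * ((N : ℝ) ^ 2 / (((k * q : ℕ) : ℝ) * L ^ (A + 2 * C + 9)) *
          (P (k * q) N F β + P (k * q) N G β)) := e3
      _ = k * ((N : ℝ) ^ 2 / (q * L ^ (A + 2 * C + 9))) *
          (P (k * q) N F β + P (k * q) N G β) := by
          rw [Nat.cast_mul]
          field_simp
      _ ≤ L ^ C * ((N : ℝ) ^ 2 / (q * L ^ (A + 2 * C + 9))) *
          ∑ j ∈ range ⌊L ^ C⌋₊, (P ((j + 1) * q) N F β + P ((j + 1) * q) N G β) := by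
          gcongr
      _ = 0 + L ^ C * ((N : ℝ) ^ 2 / (q * L ^ (A + 2 * C + 9))) *
          ∑ j ∈ range ⌊L ^ C⌋₊, (P ((j + 1) * q) N F β + P ((j + 1) * q) N G β) := by
          ring
      _ ≤ _ := by
          gcongr
          positivity


theorem core5P (h3C : LiftCStm) (h3 : LiftStm) (h4C : ParsCStm) (h4 : ParsStm) (h5 : OrthStm) (h7 : NonUStm) :
    Core5PStm := by
  classical
  intro A ρ₁ ρ₂ hρ2 hρ12
  refine ⟨A + 11, fun C => ?_⟩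
  obtain ⟨A', hA'⟩ : ∃ A', A' = A + 2 * C + 9 := ⟨_, rfl⟩
  refine ⟨A' + 4, fun C₃ => ⟨2 * C₃ + A' + 3, fun K => ?_⟩⟩
  obtain ⟨c, hc⟩ := h7
  obtain ⟨U₁, hU₁⟩ : ∃ U₁, U₁ = C₃ + A' + 4 := ⟨_, rfl⟩
  obtain ⟨N₃, hN₃⟩ := Filter.eventually_atTop.1 (ev_log C (s := ρ₁ - ρ₂) (by linarith) 200)
  refine ⟨K + C + 1 + U₁ + 2 * (A' + 9) + 4 + 2 * c, max N₃ 1, ?_⟩
  intro N hN F G hF hG hMin hMaj hAp hNc q _ hq a hSh y₁ y₂ hy₁ hy₂
  obtain ⟨U, hU⟩ : ∃ U, U = K + C + 1 + U₁ + 2 * (A' + 9) + 4 + 2 * c := ⟨_, rfl⟩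
  rw [← hU] at hAp hNc
  have hNN₃ : N₃ ≤ N := le_trans (le_max_left _ _) hN
  have hN1 : 1 ≤ N := le_trans (le_max_right _ _) hN
  obtain ⟨hL200, hLC⟩ := hN₃ N hNN₃
  have hbF := bd_sq hF (by linarith)
  have hbG := bd_sq hG (by linarith)
  obtain ⟨L, hL⟩ : ∃ L, L = Real.log (N : ℝ) := ⟨_, rfl⟩
  rw [← hL] at hL200 hLC hbF hbG ⊢
  have hL8 : 8 ≤ L := by linarith
  have hL0 : 0 < L := by linarith
  have hL1 : 1 ≤ L := by linarith
  have hN0 : (0 : ℝ) < N := by exact_mod_cast hN1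
  have hNr1 : (1 : ℝ) ≤ N := by exact_mod_cast hN1
  have hq0 : (0 : ℝ) < q := by exact_mod_cast NeZero.pos q
  have hLC1 : 1 ≤ L ^ C := one_le_pow₀ hL1
  have hqLC' : (q : ℝ) * L ^ C ≤ (N : ℝ) ^ (7 / 10 - ρ₂) := by
    calc (q : ℝ) * L ^ C ≤ (N : ℝ) ^ (7 / 10 - ρ₁) * (N : ℝ) ^ (ρ₁ - ρ₂) := by gcongr
      _ = (N : ℝ) ^ (7 / 10 - ρ₂) := by
          rw [← Real.rpow_add hN0]
          congr 1
          ring
  have hpowN : (N : ℝ) ^ (7 / 10 - ρ₂) ≤ N := by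
    calc (N : ℝ) ^ (7 / 10 - ρ₂) ≤ (N : ℝ) ^ (1 : ℝ) :=
          Real.rpow_le_rpow_of_exponent_le hNr1 (by linarith)
      _ = N := Real.rpow_one _
  have hqLC : (q : ℝ) * L ^ C ≤ N := hqLC'.trans hpowN
  have hqN : (q : ℝ) ≤ N := by
    refine le_trans ?_ hqLC
    nlinarith
  have hq2 : (q : ℝ) ≤ (N : ℝ) ^ (7 / 10 - ρ₂) := by
    refine le_trans ?_ hqLC'
    nlinarith
  obtain ⟨F', hF'⟩ : ∃ F', F' = tr y₁ F := ⟨_, rfl⟩
  obtain ⟨G', hG'⟩ : ∃ G', G' = tr y₂ G := ⟨_, rfl⟩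
  -- the estimate for one frequency
  have hpt := pointQ (a := a) h3C h3 h5 F' G' hL hL8 hN1 hqN hqLC
    (fun k h β hk1 hk2 hk3 hk4 => by
      simp only [hG', cs_tr hy₂]
      have := hMin q hq2 k h β (by rw [← hL]; exact hk1) (by rw [← hL]; exact hk2) hk3 hk4 y₂ hy₂
      rw [← hL] at this
      exact this)
    (fun β => by
      simp only [hG', cl_tr hy₂]
      exact nonu hc hL hL8 hN1 hG hNc (X := A + 9) (by omega) hqN y₂ hy₂ β)
    (fun j hj a' ha' η hη => by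
      have hq' : (((j + 1) * q : ℕ) : ℝ) ≤ (N : ℝ) ^ (7 / 10 - ρ₂) := by
        rw [Nat.cast_mul]
        calc ((j + 1 : ℕ) : ℝ) * q ≤ L ^ C * q := by gcongr
          _ = q * L ^ C := mul_comm _ _
          _ ≤ _ := hqLC'
      have hq'N : (((j + 1) * q : ℕ) : ℝ) ≤ N := hq'.trans hpowN
      obtain ⟨B, -, hBc, hB⟩ := hMaj ((j + 1) * q) hq'
      rw [← hL] at hBc hB
      rw [show A + 2 * C + 9 = A' from hA'.symm]
      apply pwP h5 F' G' (C₃ := C₃) (K := K) (B₂ := 2 * C₃ + A' + 3) (U := U₁) hL hL200 hN1 hq'N B hBc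
      · intro S hS
        simp only [hG', cs_tr hy₂]
        exact hB η hη y₂ hy₂ S hS
      · simp only [hG', cl_tr hy₂]
        refine (nonu hc hL hL8 hN1 hG hNc (X := A' + 2) (by omega) hq'N y₂ hy₂ η).trans ?_
        have : 0 ≤ (N : ℝ) ^ 2 / ((((j + 1) * q : ℕ) : ℝ) * L ^ (A' + 2)) := by positivity
        linarith
      · intro χ hχ
        rw [hG', cs_tr hy₂]
        have hs := small_cs hAp hNc (by exact_mod_cast hq'N) χ (by rw [← hL]; exact hχ) (by rw [← hL]; linarith) hN1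
          y₂ hy₂ η (C := C) (by rw [← hL]; exact hη)
        rw [← hL] at hs
        refine hs.trans ?_
        calc L ^ (K + C + 1) * (N / L ^ U) = N * (L ^ (K + C + 1) / L ^ U) := by ring
          _ ≤ N * (1 / L ^ U₁) := by
              have : L ^ (K + C + 1) / L ^ U ≤ 1 / L ^ U₁ := by
                rw [div_le_div_iff₀ (by positivity) (by positivity), one_mul, ← pow_add]
                exact pow_le_pow_right₀ hL1 (by omega)
              gcongr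
          _ = _ := by ring
      · omega
      · intro χ hχ
        simp only [hF', cl_tr hy₁]
        have := hSh j (by rw [← hL]; exact hj) χ (by rw [← hL]; exact hχ) a' ha' η
          (by rw [← hL]; exact hη) y₁ hy₁
        rw [← hL] at this
        exact this
      · omega)
  -- Parseval
  set D : ℝ := ((2 * N + 1 : ℕ) : ℝ) with hD
  have hD0 : 0 < D := by rw [hD]; positivity
  have hsumP : ∀ (q' : ℕ) [NeZero q'] (F : ℕ → ℂ),
      ∑ t ∈ range (2 * N + 1), P q' N F ((t : ℝ) / D) = D * ∑ n ∈ Icc 1 N, ‖F n‖ ^ 2 :=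
    fun q' _ F => (h4 q' N F F hN1).2
  set WL := ∑ n ∈ Icc 1 N, ‖F' n‖ ^ 2 with hWL
  set WF := ∑ n ∈ Icc 1 N, ‖G' n‖ ^ 2 with hWF
  have hWL0 : 0 ≤ WL := sum_nonneg fun _ _ => by positivity
  have hWF0 : 0 ≤ WF := sum_nonneg fun _ _ => by positivity
  have w1 : WL ≤ N * L ^ 8 := by
    refine le_trans (sum_le_sum fun n _ => ?_) hbF
    rw [hF']
    exact pow_le_pow_left₀ (norm_nonneg _) (norm_tr_le _ _ _) 2
  have w2 : WF ≤ N * L ^ 8 := by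
    refine le_trans (sum_le_sum fun n _ => ?_) hbG
    rw [hG']
    exact pow_le_pow_left₀ (norm_nonneg _) (norm_tr_le _ _ _) 2
  set c1 := (N : ℝ) ^ 2 / (q * L ^ (A + 9)) with hc1
  set c2 := L ^ C * ((N : ℝ) ^ 2 / (q * L ^ (A + 2 * C + 9))) with hc2
  have hc10 : 0 ≤ c1 := by positivity
  have hc20 : 0 ≤ c2 := by positivity
  have hK : ((⌊L ^ C⌋₊ : ℕ) : ℝ) ≤ L ^ C := Nat.floor_le (by positivity)
  have main := h4C q N F' G' hN1 a
  have step : ∑ t ∈ range (2 * N + 1), ‖∑ l : ZMod q, cl q N F' ((t : ℝ) / D) l *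
      (starRingEnd ℂ) (cl q N G' ((t : ℝ) / D) (l - a))‖ ^ 2 ≤ D * (c1 * (N * L ^ 8) +
        c2 * (L ^ C * (2 * (N * L ^ 8)))) := by
    calc ∑ t ∈ range (2 * N + 1), ‖∑ l : ZMod q, cl q N F' ((t : ℝ) / D) l *
        (starRingEnd ℂ) (cl q N G' ((t : ℝ) / D) (l - a))‖ ^ 2
        ≤ ∑ t ∈ range (2 * N + 1), (c1 * P q N F' ((t : ℝ) / D) +
          c2 * ∑ j ∈ range ⌊L ^ C⌋₊, (P ((j + 1) * q) N F' ((t : ℝ) / D) +
            P ((j + 1) * q) N G' ((t : ℝ) / D))) :=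
          sum_le_sum fun t _ => hpt _
      _ = c1 * (D * WL) + c2 * ∑ j ∈ range ⌊L ^ C⌋₊, (D * WL + D * WF) := by
          rw [sum_add_distrib, ← mul_sum, ← mul_sum, hsumP q F', sum_comm]
          congr 2
          refine sum_congr rfl fun j _ => ?_
          rw [sum_add_distrib, hsumP ((j + 1) * q) F', hsumP ((j + 1) * q) G']
      _ = D * (c1 * WL + c2 * ((⌊L ^ C⌋₊ : ℕ) * (WL + WF))) := by
          rw [sum_const, card_range, nsmul_eq_mul]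
          ring
      _ ≤ D * (c1 * (N * L ^ 8) + c2 * (L ^ C * (2 * (N * L ^ 8)))) := by
          have h0 : 0 ≤ WL + WF := by linarith
          have h1 : WL + WF ≤ 2 * (N * L ^ 8) := by linarith
          gcongr
  have h9 : D * ∑ n ∈ (Icc (-(N : ℤ)) N).filter (fun n : ℤ => (n : ZMod q) = a),
      ‖∑ b ∈ Icc 1 N, ∑ c ∈ Icc 1 N, if (b : ℤ) - c = n then F' b * (starRingEnd ℂ) (G' c) else 0‖ ^ 2 ≤
        D * (c1 * (N * L ^ 8) + c2 * (L ^ C * (2 * (N * L ^ 8)))) := main.le.trans step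
  have h10 := le_of_mul_le_mul_left h9 hD0
  have h11 : ∑ n ∈ (Icc (-(N : ℤ)) N).filter (fun n : ℤ => (n : ZMod q) = a),
      ‖∑ b ∈ Icc 1 y₁, ∑ c ∈ Icc 1 y₂, if (b : ℤ) - c = n then F b * (starRingEnd ℂ) (G c) else 0‖ ^ 2 =
      ∑ n ∈ (Icc (-(N : ℤ)) N).filter (fun n : ℤ => (n : ZMod q) = a),
      ‖∑ b ∈ Icc 1 N, ∑ c ∈ Icc 1 N, if (b : ℤ) - c = n then F' b * (starRingEnd ℂ) (G' c) else 0‖ ^ 2 := by
    refine sum_congr rfl fun n _ => ?_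
    rw [hF', hG', convC_tr hy₁ hy₂]
  unfold cvd
  rw [h11]
  refine h10.trans ?_
  have e1 : c1 * (N * L ^ 8) = (N : ℝ) ^ 3 / (q * L ^ A) * (1 / L) := by
    rw [hc1, show A + 9 = A + 8 + 1 by ring, pow_succ, pow_add]
    field_simp
    try ring
  have e2 : c2 * (L ^ C * (2 * (N * L ^ 8))) = (N : ℝ) ^ 3 / (q * L ^ A) * (2 / L) := by
    rw [hc2, show A + 2 * C + 9 = A + C + C + 8 + 1 by ring, pow_succ, pow_add, pow_add, pow_add]
    field_simp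
    try ring
  rw [e1, e2, ← mul_add]
  have e3 : 1 / L + 2 / L ≤ 1 := by
    rw [← add_div, div_le_one hL0]
    linarith
  calc (N : ℝ) ^ 3 / (q * L ^ A) * (1 / L + 2 / L) ≤ (N : ℝ) ^ 3 / (q * L ^ A) * 1 := by gcongr
    _ = _ := mul_one _

/-- the class condition of `ShQ` from the general estimate -/
lemma shQ_of {N B C T K q : ℕ} {ρ₁ ρ₂ : ℝ} {F : ℕ → ℂ} [NeZero q] (hN : 1 ≤ N) (hL : 1 ≤ Real.log N)
    (hC : Real.log N ^ C ≤ (N : ℝ) ^ (ρ₁ - ρ₂)) (hq : (q : ℝ) ≤ (N : ℝ) ^ (7 / 10 - ρ₁))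
    (h : ShAt N ρ₂ B C (T + C) K F) (a : ZMod q) (ha : (Nat.gcd a.val q : ℝ) ≤ Real.log N ^ T) :
    ShQ N B C K F q a := by
  intro j hj χ hχ a' ha' η hη y hy _
  have hN0 : (0 : ℝ) < N := by exact_mod_cast hN
  refine h ((j + 1) * q) ?_ χ hχ a' ?_ η hη y hy
  · rw [Nat.cast_mul]
    calc ((j + 1 : ℕ) : ℝ) * q ≤ (N : ℝ) ^ (ρ₁ - ρ₂) * (N : ℝ) ^ (7 / 10 - ρ₁) := by
          apply mul_le_mul (hj.trans hC) hq (Nat.cast_nonneg _) (by positivity)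
      _ = (N : ℝ) ^ (7 / 10 - ρ₂) := by
          rw [← Real.rpow_add hN0]
          congr 1
          ring
  · have h1 := gcd_above ha'
    have h2 : ((Nat.gcd a'.val ((j + 1) * q) : ℕ) : ℝ) ≤ ((j + 1 : ℕ) : ℝ) * (Nat.gcd a.val q : ℝ) := by
      exact_mod_cast h1
    calc ((Nat.gcd a'.val ((j + 1) * q) : ℕ) : ℝ) ≤ ((j + 1 : ℕ) : ℝ) * (Nat.gcd a.val q : ℝ) := h2
      _ ≤ Real.log N ^ C * Real.log N ^ T := by
          apply mul_le_mul hj ha (Nat.cast_nonneg _) (by positivity)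
      _ = Real.log N ^ (T + C) := by rw [← pow_add, add_comm]

end Pool.Agent.T2h83.GD
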