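import Pool.Agent.T2h83.GD.Main
import Pool.Agent.T2h83.GD.Err
import Pool.Agent.R460.GP.Fin

set_option autoImplicit false

/-! The pairs `p`, `p + n`: the error terms and the main terms. -/

namespace Pool.Agent.T2h83.GD

open Finset
open Pool.Agent.R460.GS
open Pool.Agent.R460.GP (cvd cvd_neg cvd_pos sum_pos_le sum_neg_le gcd_neg_val winP_main)
open Pool.Agent.T2h83.GT
open Pool.Agent.H373R2.T7 (lamz Vz pz lamz_ap)
open Pool.Agent.Y883.T3 (lsh)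
open Pool.Agent.Y883.GJ
open Pool.Agent.H560R3.GB (sing)
open Pool.Agent.Y614.GJ.Core (ev_log)

theorem win_one : WinStm 1 := by
  intro V
  refine ⟨V + 6, fun E1 hE1 => ?_⟩
  obtain ⟨X0, h⟩ := winP_main V E1 hE1
  refine ⟨X0, fun X hX n hn h2 _ hn0 z hz1 hz2 => ?_⟩
  rw [one_mul] at h2
  obtain ⟨h1, h3, h4⟩ := h X hX n hn h2 hn0 z hz1 hz2
  rw [one_mul]
  refine ⟨fun y hy => ?_, h3, h4⟩
  rw [one_mul] at hy
  simp only [one_mul]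
  exact h1 y hy

lemma sum_filter_le (f : ℤ → ℝ) (hf : ∀ k, 0 ≤ f k) (g : ℕ → ℝ) (q N y a : ℕ)
    (hg : ∀ n, y + n ≤ N → g n = f (n : ℤ)) :
    ∑ n ∈ (Icc 1 N).filter (fun n : ℕ => n % q = a % q ∧ y + n ≤ N), g n ≤
      ∑ k ∈ (Icc (-(N : ℤ)) N).filter (fun k : ℤ => (k : ZMod q) = (a : ZMod q)), f k := by
  refine le_trans ?_ (sum_pos_le f hf q N (a : ZMod q))
  rw [sum_congr rfl (fun n hn => hg n (mem_filter.1 hn).2.2)]
  refine sum_le_sum_of_subset_of_nonneg (fun n hn => ?_) fun _ _ _ => hf _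
  rw [mem_filter] at hn ⊢
  exact ⟨hn.1, (ZMod.natCast_eq_natCast_iff' n a q).2 hn.2.1⟩

lemma sum_filter_neg_le (f : ℤ → ℝ) (hf : ∀ k, 0 ≤ f k) (g : ℕ → ℝ) (q N y a : ℕ)
    (hg : ∀ n, y + n ≤ N → g n = f (-(n : ℤ))) :
    ∑ n ∈ (Icc 1 N).filter (fun n : ℕ => n % q = a % q ∧ y + n ≤ N), g n ≤
      ∑ k ∈ (Icc (-(N : ℤ)) N).filter (fun k : ℤ => (k : ZMod q) = -(a : ZMod q)), f k := by
  refine le_trans ?_ (sum_neg_le f hf q N (a : ZMod q))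
  rw [sum_congr rfl (fun n hn => hg n (mem_filter.1 hn).2.2)]
  refine sum_le_sum_of_subset_of_nonneg (fun n hn => ?_) fun _ _ _ => hf _
  rw [mem_filter] at hn ⊢
  exact ⟨hn.1, (ZMod.natCast_eq_natCast_iff' n a q).2 hn.2.1⟩

theorem errD_one {θ : ℝ} {g W : ℕ → ℕ → ℝ} (hErr : ErrG θ g W) (hSh : ShAll θ g W) : ErrD 1 θ g W := by
  intro A T U₀ t ht
  obtain ⟨s, hsd⟩ : ∃ s, s = (t + θ) / 2 := ⟨_, rfl⟩
  have hts : t < s := by linarith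
  have hsθ : s < θ := by linarith
  obtain ⟨C, B₂, h1⟩ := hErr A U₀ t ht
  obtain ⟨K, U₂, Ns, h2⟩ := hSh B₂ C (T + C) s hsθ
  obtain ⟨B, h3⟩ := h1 K U₂
  refine ⟨B, fun E => ?_⟩
  obtain ⟨N₁, h4⟩ := h3 E
  obtain ⟨N₂, h5⟩ := Filter.eventually_atTop.1 (ev_log C (s := s - t) (by linarith) 4)
  refine ⟨Ns + N₁ + N₂ + 1, fun N hN z hz1 hz2 => ?_⟩
  have hN1 : 1 ≤ N := by omega
  obtain ⟨hL4, hLC⟩ := h5 N (by omega)
  have hL1 : 1 ≤ Real.log N := by linarith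
  obtain ⟨r, hP0, hP2, hsum, hms⟩ := h4 N (by omega) z hz1 hz2
  refine ⟨r, hP0, hsum, fun F hF q₁ q₂ q hqq hq1 _ _ hqN a ha y hy => ?_⟩
  have : NeZero q := ⟨by omega⟩
  obtain ⟨hBd, hShF⟩ := h2 N (by omega) z r hP2 F hF
  have hgcd : ((Nat.gcd (ZMod.val (a : ZMod q)) q : ℕ) : ℝ) ≤ Real.log N ^ T := by
    rw [ZMod.val_natCast, ← Nat.gcd_rec, Nat.gcd_comm]
    exact ha
  have hgcd' : ((Nat.gcd (ZMod.val (-(a : ZMod q))) q : ℕ) : ℝ) ≤ Real.log N ^ T := by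
    rw [gcd_neg_val]
    exact hgcd
  have hC' : Real.log N ^ C ≤ (N : ℝ) ^ ((7 / 10 - t) - (7 / 10 - s)) := by
    rw [show (7 / 10 - t) - (7 / 10 - s) = s - t by ring]
    exact hLC
  have hq' : (q : ℝ) ≤ (N : ℝ) ^ (7 / 10 - (7 / 10 - t)) := by
    rw [show (7 / 10 - (7 / 10 - t) : ℝ) = t by ring]
    exact hqN
  have hS1 := shQ_of hN1 hL1 hC' hq' hShF (a : ZMod q) hgcd
  have hS2 := shQ_of hN1 hL1 hC' hq' hShF (-(a : ZMod q)) hgcd'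
  have k1 := hms F hBd q hqN (-(a : ZMod q)) hS2 y N hy le_rfl
  have k2 := hms F hBd q hqN (a : ZMod q) hS1 N y le_rfl hy
  rw [one_mul]
  refine ⟨le_trans ?_ k1, le_trans ?_ k2⟩
  · refine sum_filter_neg_le (fun k => ‖cvd F (fC (g N) (W N) z r) y N k‖ ^ 2) (fun _ => sq_nonneg _) _ q N y a ?_
    intro n hn
    rw [cvd_neg hn]
    unfold cf
    simp only [one_mul]
  · refine sum_filter_le (fun k => ‖cvd F (fC (g N) (W N) z r) N y k‖ ^ 2) (fun _ => sq_nonneg _) _ q N y a ?_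
    intro n hn
    rw [cvd_pos hn]
    unfold cg
    simp only [one_mul]

end Pool.Agent.T2h83.GD
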