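import Pool.Agent.T2h83.GD.Sec
import Pool.Agent.T2h83.GD.Err6
import Pool.Agent.T2h83.GD.One

set_option autoImplicit false

/-! The error terms for a general multiplier. -/

namespace Pool.Agent.T2h83.GD

open Finset
open Pool.Agent.R460.GS
open Pool.Agent.R460.GP (cvd cvd_neg cvd_pos sum_pos_le sum_neg_le gcd_neg_val)
open Pool.Agent.T2h83.GT
open Pool.Agent.H373R2.T7 (lamz Vz pz lamz_ap)
open Pool.Agent.Y883.T3 (lsh)
open Pool.Agent.Y883.GJ
open Pool.Agent.Y614.GJ.Core (ev_log)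

lemma dil_sq {m N : ℕ} (hm : 1 ≤ m) (F : ℕ → ℂ) :
    ∑ u ∈ Icc 1 N, ‖dil m F u‖ ^ 2 ≤ ∑ b ∈ Icc 1 N, ‖F b‖ ^ 2 := by
  classical
  have h1 : ∑ u ∈ Icc 1 N, ‖dil m F u‖ ^ 2 = ∑ u ∈ (Icc 1 N).filter (fun u => m ∣ u), ‖F (u / m)‖ ^ 2 := by
    rw [sum_filter]
    refine sum_congr rfl fun u _ => ?_
    unfold dil
    split_ifs
    · rfl
    · simp
  rw [h1]
  have h2 : Set.InjOn (fun u => u / m) ((Icc 1 N).filter (fun u => m ∣ u) : Finset ℕ) := by
    intro a ha b hb hab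
    rw [mem_coe, mem_filter] at ha hb
    obtain ⟨a', rfl⟩ := ha.2
    obtain ⟨b', rfl⟩ := hb.2
    simp only at hab
    rw [Nat.mul_div_cancel_left _ hm, Nat.mul_div_cancel_left _ hm] at hab
    rw [hab]
  rw [← sum_image (s := (Icc 1 N).filter (fun u => m ∣ u)) (g := fun u => u / m) (f := fun b => ‖F b‖ ^ 2) h2]
  apply sum_le_sum_of_subset_of_nonneg
  · intro b hb
    rw [mem_image] at hb
    obtain ⟨u, hu, rfl⟩ := hb
    rw [mem_filter, mem_Icc] at hu
    obtain ⟨⟨h3, h4⟩, ⟨v, rfl⟩⟩ := hu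
    rw [Nat.mul_div_cancel_left _ hm, mem_Icc]
    have h5 : 1 * v ≤ m * v := Nat.mul_le_mul_right v hm
    constructor
    · rcases Nat.eq_zero_or_pos v with h | h
      · rw [h] at h3
        omega
      · exact h
    · omega
  · intro _ _ _
    positivity

lemma sec_sq {m n₀ N : ℕ} (hm : 1 ≤ m) (F : ℕ → ℂ) :
    ∑ t ∈ Icc 1 N, ‖sec m n₀ N F t‖ ^ 2 ≤ ∑ b ∈ Icc 1 N, ‖F b‖ ^ 2 := by
  classical
  have h1 : ∑ t ∈ Icc 1 N, ‖sec m n₀ N F t‖ ^ 2 =
      ∑ t ∈ (Icc 1 N).filter (fun t => m * t + n₀ ≤ N), ‖F (m * t + n₀)‖ ^ 2 := by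
    rw [sum_filter]
    refine sum_congr rfl fun u _ => ?_
    unfold sec
    split_ifs
    · rfl
    · simp
  rw [h1]
  have h2 : Set.InjOn (fun t => m * t + n₀) ((Icc 1 N).filter (fun t => m * t + n₀ ≤ N) : Finset ℕ) := by
    intro a _ b _ hab
    exact Nat.eq_of_mul_eq_mul_left hm (Nat.add_right_cancel hab)
  rw [← sum_image (s := (Icc 1 N).filter (fun t => m * t + n₀ ≤ N)) (g := fun t => m * t + n₀)
    (f := fun b => ‖F b‖ ^ 2) h2]
  apply sum_le_sum_of_subset_of_nonneg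
  · intro b hb
    rw [mem_image] at hb
    obtain ⟨t, ht, rfl⟩ := hb
    rw [mem_filter, mem_Icc] at ht
    rw [mem_Icc]
    have h5 : 1 * t ≤ m * t := Nat.mul_le_mul_right t hm
    omega
  · intro _ _ _
    positivity

lemma sum_inj_le {S : Finset ℕ} {T : Finset ℤ} (φ : ℕ → ℤ) (hφ : Set.InjOn φ S) (hST : ∀ n ∈ S, φ n ∈ T)
    (g : ℕ → ℝ) (f : ℤ → ℝ) (hf : ∀ k, 0 ≤ f k) (hg : ∀ n ∈ S, g n = f (φ n)) :
    ∑ n ∈ S, g n ≤ ∑ k ∈ T, f k := by
  classical
  rw [sum_congr rfl hg, ← sum_image hφ]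
  apply sum_le_sum_of_subset_of_nonneg
  · intro k hk
    rw [mem_image] at hk
    obtain ⟨n, hn, rfl⟩ := hk
    exact hST n hn
  · intro _ _ _
    exact hf _

lemma sh_monoB {N B B' C T K : ℕ} {ρ : ℝ} {F : ℕ → ℂ} (hL : 1 ≤ Real.log N) (hB : B ≤ B')
    (h : ShAt N ρ B' C T K F) : ShAt N ρ B C T K F := by
  intro q _ hq χ hχ a ha η hη y hy
  refine (h q hq χ hχ a ha η hη y hy).trans ?_
  exact div_le_div_of_nonneg_left (Nat.cast_nonneg _) (by positivity) (pow_le_pow_right₀ hL hB)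

theorem errD_mul {m : ℕ} (hm : 1 ≤ m) {θ : ℝ} {g W : ℕ → ℕ → ℝ} (hErr : Err6 θ g W) (hSh : ShAll θ g W) :
    ErrD m θ g W := by
  classical
  intro A T U₀ t ht
  obtain ⟨s, hsd⟩ : ∃ s, s = (t + θ) / 2 := ⟨_, rfl⟩
  have hts : t < s := by linarith
  have hsθ : s < θ := by linarith
  obtain ⟨C, B₂, h1⟩ := hErr (A + T + 1) U₀ t ht
  obtain ⟨K, U₂, Ns, h2⟩ := hSh (B₂ + C + 1) (C + 1) (T + C + 1) s hsθ
  obtain ⟨B, h3⟩ := h1 (K + C + 1) U₂
  refine ⟨B, fun E => ?_⟩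
  obtain ⟨N₁, h4⟩ := h3 E
  obtain ⟨N₂, h5⟩ := Filter.eventually_atTop.1 (ev_log (C + 1) (s := s - t) (by linarith) (8 + (m : ℝ)))
  refine ⟨Ns + N₁ + N₂ + 1, fun N hN z hz1 hz2 => ?_⟩
  have hN1 : 1 ≤ N := by omega
  have hN0 : (0 : ℝ) < N := by exact_mod_cast hN1
  have hm0 : (0 : ℝ) < m := by exact_mod_cast hm
  obtain ⟨hL8, hLC⟩ := h5 N (by omega)
  have hmL : (m : ℝ) ≤ Real.log N := by linarith
  have hL1 : 1 ≤ Real.log N := by linarith
  have hL2 : 2 ≤ Real.log N := by linarith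
  obtain ⟨r, hP0, hP2, hsum, hms⟩ := h4 N (by omega) z hz1 hz2
  refine ⟨r, hP0, hsum, fun F hF q₁ q₂ q hqq hq1 hqs hqc hqN a ha y hy => ?_⟩
  obtain ⟨hBd, hShF⟩ := h2 N (by omega) z r hP2 F hF
  have hsq := bd_sq hBd (by linarith)
  have hq10 : 1 ≤ q₁ := by
    rcases Nat.eq_zero_or_pos q₁ with h | h
    · rw [hqq, h] at hq1
      omega
    · exact h
  have hq20 : 1 ≤ q₂ := by
    rcases Nat.eq_zero_or_pos q₂ with h | h
    · rw [hqq, h] at hq1
      omega
    · exact h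
  have : NeZero q₂ := ⟨by omega⟩
  have hq2q : q₂ ∣ q := by rw [hqq]; exact Nat.dvd_mul_left _ _
  have hq2N : (q₂ : ℝ) ≤ (N : ℝ) ^ t := by
    refine le_trans ?_ hqN
    exact_mod_cast Nat.le_of_dvd (by omega) hq2q
  have hQ : (m : ℝ) * (Real.log N ^ C * q₂) ≤ (N : ℝ) ^ (7 / 10 - (7 / 10 - s)) := by
    rw [show (7 / 10 - (7 / 10 - s) : ℝ) = (s - t) + t by ring, Real.rpow_add hN0]
    calc (m : ℝ) * (Real.log N ^ C * q₂) ≤ Real.log N * (Real.log N ^ C * q₂) := by gcongr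
      _ = Real.log N ^ (C + 1) * q₂ := by ring
      _ ≤ (N : ℝ) ^ (s - t) * (N : ℝ) ^ t := by gcongr
  have hga : (Nat.gcd a q₂ : ℝ) ≤ Real.log N ^ T := by
    refine le_trans ?_ ha
    have h6 : Nat.gcd a q₂ ≤ Nat.gcd a q :=
      Nat.le_of_dvd (Nat.gcd_pos_of_pos_right a (by omega)) (Nat.gcd_dvd_gcd_of_dvd_right a hq2q)
    exact_mod_cast h6
  have hgcd : ((Nat.gcd (ZMod.val (a : ZMod q₂)) q₂ : ℕ) : ℝ) ≤ Real.log N ^ T := by
    rw [ZMod.val_natCast, ← Nat.gcd_rec, Nat.gcd_comm]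
    exact hga
  have hgcd' : ((Nat.gcd (ZMod.val (-(a : ZMod q₂))) q₂ : ℕ) : ℝ) ≤ Real.log N ^ T := by
    rw [gcd_neg_val]
    exact hgcd
  have hfin : (N : ℝ) ^ 3 / (q₂ * Real.log N ^ (A + T + 1)) * Real.log N ≤ (N : ℝ) ^ 3 / (q * Real.log N ^ A) := by
    obtain ⟨L, hLd⟩ : ∃ L, L = Real.log (N : ℝ) := ⟨_, rfl⟩
    rw [← hLd] at hqs hL1 ⊢
    have hL0 : 0 < L := by linarith
    have hq2r : (0 : ℝ) < q₂ := by exact_mod_cast hq20
    have hq1r : (0 : ℝ) < q₁ := by exact_mod_cast hq10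
    have e1 : (N : ℝ) ^ 3 / (q₂ * L ^ (A + T + 1)) * L = (N : ℝ) ^ 3 / (q₂ * L ^ A * L ^ T) := by
      rw [pow_add, pow_add, pow_one]
      field_simp
    rw [e1, hqq]
    apply div_le_div_of_nonneg_left (by positivity) (by positivity)
    push_cast
    calc (q₁ : ℝ) * q₂ * L ^ A = q₂ * L ^ A * q₁ := by ring
      _ ≤ q₂ * L ^ A * L ^ T := by gcongr
  have hfin0 : 0 ≤ (N : ℝ) ^ 3 / (q₂ * Real.log N ^ (A + T + 1)) := by positivity
  constructor
  · -- the larger variable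
    have hS1 := shq_dil (C := C) hm hqc hN1 hL1 hmL hQ (sh_monoB hL1 (by omega : B₂ + C ≤ B₂ + C + 1) hShF)
      (-(a : ZMod q₂)) hgcd'
    by_cases hmy : m * y ≤ N
    · have k1 := hms (dil m F) ((dil_sq hm F).trans hsq) q₂ hq2N (-(a : ZMod q₂)) hS1 (m * y) N hmy le_rfl
      refine le_trans ?_ (k1.trans ?_)
      · refine sum_inj_le (fun n : ℕ => -(n : ℤ)) ?_ ?_ _
          (fun k => ‖cvd (dil m F) (fC (g N) (W N) z r) (m * y) N k‖ ^ 2) (fun _ => sq_nonneg _) ?_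
        · intro x _ x' _ hxx
          simp only at hxx
          omega
        · intro n hn
          rw [mem_filter, mem_Icc] at hn
          rw [mem_filter, mem_Icc]
          refine ⟨by omega, ?_⟩
          push_cast
          congr 1
          have h6 : n ≡ a [MOD q₂] := by
            have h7 : n ≡ a [MOD q] := hn.2.1
            rw [hqq] at h7
            exact Nat.ModEq.of_mul_left q₁ h7
          exact (ZMod.natCast_eq_natCast_iff _ _ _).2 h6
        · intro n hn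
          rw [mem_filter, mem_Icc] at hn
          rw [cvd_neg hn.2.2, dil_sum hm F (fun u => (starRingEnd ℂ) (fC (g N) (W N) z r (u + n))),
            Nat.mul_div_cancel_left y hm]
          rfl
      · refine le_trans ?_ hfin
        exact le_mul_of_one_le_right hfin0 hL1
    · rw [sum_eq_zero]
      · positivity
      · intro n hn
        rw [mem_filter] at hn
        omega
  · -- the smaller variable
    have hcls : ∀ n₀ ∈ range m, ∑ n ∈ ((Icc 1 N).filter (fun n : ℕ => n % q = a % q ∧ m * y + n ≤ N)).filter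
        (fun n => n % m = n₀), ‖cg m n y F (fC (g N) (W N) z r)‖ ^ 2 ≤
        (N : ℝ) ^ 3 / (q₂ * Real.log N ^ (A + T + 1)) := by
      intro n₀ hn₀
      rw [mem_range] at hn₀
      obtain ⟨u, v, huv⟩ := Nat.isCoprime_iff_coprime.2 hqc
      obtain ⟨a', ha'⟩ : ∃ a' : ZMod q₂, a' = ((v : ℤ) : ZMod q₂) * ((a : ZMod q₂) - n₀) := ⟨_, rfl⟩
      have hvm : ((v : ℤ) : ZMod q₂) * (m : ZMod q₂) = 1 := by
        have h6 : ((u * q₂ + v * m : ℤ) : ZMod q₂) = ((1 : ℤ) : ZMod q₂) := by rw [huv]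
        push_cast at h6
        simpa using h6
      have hS2 := shq_sec (a := a') (b₀ := (a : ℤ)) (n₀ := n₀) hm hqc hn₀ hN1 hL2 hmL hQ hShF (by
          rw [ha']
          push_cast
          linear_combination (-((a : ZMod q₂) - n₀)) * hvm) (by
          rw [Int.gcd_natCast_natCast]
          exact hga)
      have k2 := hms (sec m n₀ N F) ((sec_sq hm F).trans hsq) q₂ hq2N a' hS2 N y le_rfl hy
      refine le_trans ?_ k2
      refine sum_inj_le (fun n : ℕ => ((n / m : ℕ) : ℤ)) ?_ ?_ _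
          (fun k => ‖cvd (sec m n₀ N F) (fC (g N) (W N) z r) N y k‖ ^ 2) (fun _ => sq_nonneg _) ?_
      · intro x hx x' hx' hxx
        rw [mem_coe, mem_filter] at hx hx'
        simp only at hxx
        have h6 : x / m = x' / m := by exact_mod_cast hxx
        rw [← Nat.div_add_mod x m, ← Nat.div_add_mod x' m, h6, hx.2, hx'.2]
      · intro n hn
        rw [mem_filter, mem_filter, mem_Icc] at hn
        obtain ⟨⟨⟨c1, c2⟩, c3, c4⟩, c5⟩ := hn
        have c6 : n / m ≤ n := Nat.div_le_self n m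
        have c7 : (0 : ℤ) ≤ ((n / m : ℕ) : ℤ) := Int.natCast_nonneg _
        have c8 : ((n / m : ℕ) : ℤ) ≤ N := by exact_mod_cast c6.trans c2
        rw [mem_filter, mem_Icc]
        refine ⟨⟨by linarith, c8⟩, ?_⟩
        have h6 : n ≡ a [MOD q₂] := by
          have h7 : n ≡ a [MOD q] := c3
          rw [hqq] at h7
          exact Nat.ModEq.of_mul_left q₁ h7
        have h7 : (n : ZMod q₂) = (a : ZMod q₂) := (ZMod.natCast_eq_natCast_iff _ _ _).2 h6
        have h8 : (n : ZMod q₂) = m * ((n / m : ℕ) : ZMod q₂) + n₀ := by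
          have h9 : ((m * (n / m) + n₀ : ℕ) : ZMod q₂) = (n : ZMod q₂) := by
            rw [← c5, Nat.div_add_mod]
          rw [← h9]
          push_cast
          ring
        rw [ha', ← h7, h8, Int.cast_natCast]
        linear_combination (-((n / m : ℕ) : ZMod q₂)) * hvm
      · intro n hn
        rw [mem_filter, mem_filter, mem_Icc] at hn
        obtain ⟨⟨⟨c1, c2⟩, c3, c4⟩, c5⟩ := hn
        have hdm := Nat.div_add_mod n m
        rw [c5] at hdm
        have h6 : y + n / m ≤ N := by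
          have h7 : 1 * y ≤ m * y := Nat.mul_le_mul_right y hm
          have h8 : n / m ≤ n := Nat.div_le_self n m
          omega
        rw [cvd_pos h6]
        unfold cg
        congr 2
        refine sum_congr rfl fun b hb => ?_
        rw [mem_Icc] at hb
        have h7 : m * (b + n / m) + n₀ = m * b + n := by
          rw [Nat.mul_add, add_assoc, hdm]
        have h8 : m * b ≤ m * y := Nat.mul_le_mul_left m hb.2
        unfold sec
        rw [h7, if_pos (by omega)]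
    have hsplit : ∑ n ∈ (Icc 1 N).filter (fun n : ℕ => n % q = a % q ∧ m * y + n ≤ N),
        ‖cg m n y F (fC (g N) (W N) z r)‖ ^ 2 = ∑ n₀ ∈ range m,
        ∑ n ∈ ((Icc 1 N).filter (fun n : ℕ => n % q = a % q ∧ m * y + n ≤ N)).filter
        (fun n => n % m = n₀), ‖cg m n y F (fC (g N) (W N) z r)‖ ^ 2 :=
      (sum_fiberwise_of_maps_to (fun n _ => mem_range.2 (Nat.mod_lt _ hm)) _).symm
    rw [hsplit]
    refine (sum_le_sum hcls).trans ?_
    rw [sum_const, card_range, nsmul_eq_mul]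
    refine le_trans ?_ hfin
    rw [mul_comm]
    exact mul_le_mul_of_nonneg_left hmL hfin0

end Pool.Agent.T2h83.GD
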