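import Pool.Agent.T2h83.GD.Conv
import Pool.Agent.T2h83.GD.Mul

/-!
Project GD (helper83), the assembly for a general multiplier.
-/

set_option autoImplicit false

namespace Pool.Agent.T2h83.GD

open Finset
open Pool.Agent.Y883.GJ
open Pool.Agent.R460.GS
open Pool.Agent.R460.GH
open Pool.Agent.T2h83.GT
open Pool.Agent.H560R3.GB (sing)

theorem core6_all : Core6PStm :=
  core6P Pool.Agent.Y697.GJ.liftC Pool.Agent.Y708.GJ.lift Pool.Agent.Y697.GJ.parsC Pool.Agent.Y872.GJ.pars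
    Pool.Agent.Y297.GJ.orth Pool.Agent.Y812.GJ.nonU

theorem err6_all {θ : ℝ} {g W : ℕ → ℕ → ℝ} (hθ : θ ≤ 9 / 10) (hG : Apx θ g W) : Err6 θ g W :=
  err6 hθ hG core6_all (tiMaj2 Pool.Agent.Y812.GJ.l2) Pool.Agent.Y412.GJ.tiMin Pool.Agent.Y812.GJ.lsh_le
    Pool.Agent.Y883.GJ.model_all

/-- the general theorem -/
theorem gdm_gen {m : ℕ} (hm : 1 ≤ m) (hWin : WinStm m) {θ δ : ℝ} (hθ0 : 1 / 2 ≤ θ) (hθ9 : θ ≤ 9 / 10)
    (hδ : 0 ≤ δ) (hδ1 : δ ≤ 1) (hup : ∃ N₀ : ℕ, ∀ N : ℕ, N₀ ≤ N → Wg θ N N ≤ 1 + δ) (ε : ℝ) (hε : 0 < ε)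
    (hε1 : ε ≤ 1 / 2) (t : ℝ) (ht : t < θ) (A T : ℕ) :
    ∃ N₀ : ℕ, ∀ N : ℕ, N₀ ≤ N → ∀ q₁ q₂ q : ℕ, q = q₁ * q₂ → 1 ≤ q → (q₁ : ℝ) ≤ Real.log N ^ T →
      Nat.Coprime q₂ m → (q : ℝ) ≤ (N : ℝ) ^ t → ∀ a : ℕ, (Nat.gcd a q : ℝ) ≤ Real.log N ^ T →
        ((badD m (PairT m A (1 - δ ^ 2 - ε) (1 + δ + ε) N) N q a).card : ℝ) ≤
          (N : ℝ) / (q * Real.log N ^ A) := by
  obtain ⟨h1, h2⟩ := apx_all hθ0 (by linarith) hδ hup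
  exact main_D hm hδ hδ1 h1 h2 (errD_mul hm (err6_all hθ9 h1) (shAll_all hθ9 h1)) hWin ε hε hε1 t ht A T

/-- `2 / 3 ≤ θ ≤ 5 / 6` -/
theorem gdm_F {m : ℕ} (hm : 1 ≤ m) (hWin : WinStm m) (ε : ℝ) (hε : 0 < ε) {θ : ℝ} (hθ0 : 2 / 3 ≤ θ)
    (hθ1 : θ ≤ 5 / 6) (t : ℝ) (ht : t < θ) (A T : ℕ) :
    ∃ N₀ : ℕ, ∀ N : ℕ, N₀ ≤ N → ∀ q₁ q₂ q : ℕ, q = q₁ * q₂ → 1 ≤ q → (q₁ : ℝ) ≤ Real.log N ^ T →
      Nat.Coprime q₂ m → (q : ℝ) ≤ (N : ℝ) ^ t → ∀ a : ℕ, (Nat.gcd a q : ℝ) ≤ Real.log N ^ T →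
        ((badD m (PairT m A (1 - FU (θ / (2 - 2 * θ)) ^ 2 - ε) (1 + FU (θ / (2 - 2 * θ)) + ε) N) N q a).card : ℝ) ≤
          (N : ℝ) / (q * Real.log N ^ A) := by
  obtain ⟨hl0, hl1⟩ := FU_bd hθ0 hθ1
  obtain ⟨F, hF⟩ : ∃ F, F = FU (θ / (2 - 2 * θ)) := ⟨_, rfl⟩
  obtain ⟨e, he⟩ : ∃ e, e = min ε (1 / 10) / 4 := ⟨_, rfl⟩
  have he0 : 0 < e := by rw [he]; have := lt_min hε (show (0 : ℝ) < 1 / 10 by norm_num); linarith
  have he1 : 4 * e ≤ ε := by rw [he]; have := min_le_left ε (1 / 10 : ℝ); linarith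
  have he2 : 4 * e ≤ 1 / 10 := by rw [he]; have := min_le_right ε (1 / 10 : ℝ); linarith
  obtain ⟨θ', hθ'⟩ : ∃ θ', θ' = max (1 / 2) ((t + θ) / 2) := ⟨_, rfl⟩
  have a1 : 1 / 2 ≤ θ' := by rw [hθ']; exact le_max_left _ _
  have a2 : θ' < θ := by rw [hθ']; exact max_lt (by linarith) (by linarith)
  have a3 : t < θ' := by rw [hθ']; exact lt_of_lt_of_le (by linarith) (le_max_right _ _)
  have hup := up_all a1 a2 hθ0 hθ1 he0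
  rw [← hF] at hup hl0 hl1 ⊢
  obtain ⟨δ, hδ⟩ : ∃ δ, δ = F + e := ⟨_, rfl⟩
  rw [← hδ] at hup
  obtain ⟨N₀, h⟩ := gdm_gen hm hWin (θ := θ') (δ := δ) a1 (by linarith) (by linarith) (by linarith) hup e he0
    (by linarith) t a3 A T
  refine ⟨N₀, fun N hN q₁ q₂ q hqq hq1 hqs hqc hqN a ha => ?_⟩
  refine le_trans ?_ (h N hN q₁ q₂ q hqq hq1 hqs hqc hqN a ha)
  have : badD m (PairT m A (1 - F ^ 2 - ε) (1 + F + ε) N) N q a ⊆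
      badD m (PairT m A (1 - δ ^ 2 - e) (1 + δ + e) N) N q a := by
    refine badD_mono N q a fun n hw => PairT_mono ?_ ?_ hw
    · rw [hδ]
      nlinarith
    · rw [hδ]
      linarith
  exact_mod_cast Finset.card_le_card this

/-- the theorem of project GD for real `x` -/
theorem gdm_real {m : ℕ} (hm : 1 ≤ m) (hWin : WinStm m) (ε : ℝ) (hε : 0 < ε) {θ : ℝ}
    (hθ0 : 2 / 3 ≤ θ) (hθ1 : θ ≤ 5 / 6) (ρ : ℝ) (hρ : 0 < ρ) (A T : ℕ) :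
    ∃ x₀ : ℝ, ∀ x : ℝ, x₀ ≤ x → ∀ q₁ q₂ : ℕ, 1 ≤ q₁ * q₂ → (q₁ : ℝ) ≤ Real.log x ^ T → Nat.Coprime q₂ m →
      ((q₁ * q₂ : ℕ) : ℝ) ≤ x ^ (θ - ρ) → ∀ a : ℤ, (Int.gcd a (q₁ * q₂ : ℕ) : ℝ) ≤ Real.log x ^ T →
        (exceptional m A (1 - FU (θ / (2 - 2 * θ)) ^ 2 - ε) (1 + FU (θ / (2 - 2 * θ)) + ε) x (q₁ * q₂) a).Finite ∧
        ((exceptional m A (1 - FU (θ / (2 - 2 * θ)) ^ 2 - ε) (1 + FU (θ / (2 - 2 * θ)) + ε) x (q₁ * q₂) a).ncard : ℝ) ≤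
          x / ((q₁ * q₂ : ℕ) * Real.log x ^ A) := by
  classical
  obtain ⟨hl0, hl1⟩ := FU_bd hθ0 hθ1
  obtain ⟨F, hF⟩ : ∃ F, F = FU (θ / (2 - 2 * θ)) := ⟨_, rfl⟩
  obtain ⟨e, he⟩ : ∃ e, e = min ε (1 / 100) / 2 := ⟨_, rfl⟩
  have he0 : 0 < e := by rw [he]; have := lt_min hε (show (0 : ℝ) < 1 / 100 by norm_num); linarith
  have he1 : 2 * e ≤ ε := by rw [he]; have := min_le_left ε (1 / 100 : ℝ); linarith
  have he2 : 2 * e ≤ 1 / 100 := by rw [he]; have := min_le_right ε (1 / 100 : ℝ); linarith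
  obtain ⟨N₁, h1⟩ := gdm_F hm hWin e he0 hθ0 hθ1 (θ - ρ) (by linarith) (A + 1) T
  rw [← hF] at h1 hl0 hl1 ⊢
  have hm1 : (1 : ℝ) ≤ m := by exact_mod_cast hm
  obtain ⟨x₁, hx₁⟩ := good_of hm A (A + 1) le_rfl e he0
  obtain ⟨x₂, hx₂⟩ := Filter.eventually_atTop.1
    (Real.tendsto_log_atTop.eventually_ge_atTop (4 + ((m : ℝ) + 1)))
  refine ⟨max (max x₁ x₂) (N₁ + 4), fun x hx q₁ q₂ hq1 hqs hqc hqx a ha => ?_⟩
  have hw := hx₁ x ((le_max_left _ _).trans ((le_max_left _ _).trans hx))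
  have hl := hx₂ x ((le_max_right _ _).trans ((le_max_left _ _).trans hx))
  have hxN : (N₁ : ℝ) + 4 ≤ x := (le_max_right _ _).trans hx
  have hN1r : (0 : ℝ) ≤ N₁ := Nat.cast_nonneg _
  have hx4 : 4 ≤ x := by linarith
  have hx0 : 0 < x := by linarith
  obtain ⟨N, hN⟩ : ∃ N, N = (m + 1) * ⌊x⌋₊ := ⟨_, rfl⟩
  have hNr : (N : ℝ) = ((m : ℝ) + 1) * (⌊x⌋₊ : ℝ) := by rw [hN]; push_cast; ring
  have hf1 : (⌊x⌋₊ : ℝ) ≤ x := Nat.floor_le hx0.le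
  have hf2 : x < (⌊x⌋₊ : ℝ) + 1 := Nat.lt_floor_add_one x
  have hxNr : x ≤ N := by
    rw [hNr]
    nlinarith
  have hN2 : (N : ℝ) ≤ ((m : ℝ) + 1) * x := by
    rw [hNr]
    exact mul_le_mul_of_nonneg_left hf1 (by linarith)
  have hNN : N₁ ≤ N := by
    have : (N₁ : ℝ) ≤ N := by linarith
    exact_mod_cast this
  rw [← hN] at hw
  obtain ⟨l, hld⟩ : ∃ l, l = Real.log x := ⟨_, rfl⟩
  obtain ⟨L, hLd⟩ : ∃ L, L = Real.log (N : ℝ) := ⟨_, rfl⟩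
  have hlL : l ≤ L := by rw [hld, hLd]; exact Real.log_le_log hx0 hxNr
  rw [← hld] at hl hqs ha
  have hl4 : 4 ≤ l := by linarith
  have hl0' : 0 < l := by linarith
  have hL0 : 0 < L := by linarith
  obtain ⟨q, hq⟩ : ∃ q, q = q₁ * q₂ := ⟨_, rfl⟩
  rw [← hq] at hq1 hqx ha ⊢
  have hq0 : (0 : ℝ) < q := by exact_mod_cast hq1
  have hqN : (q : ℝ) ≤ (N : ℝ) ^ (θ - ρ) := by
    rcases le_or_gt 0 (θ - ρ) with hc | hc
    · exact hqx.trans (Real.rpow_le_rpow hx0.le hxNr hc)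
    · exfalso
      have h3 : x ^ (θ - ρ) < 1 := Real.rpow_lt_one_of_one_lt_of_neg (by linarith) hc
      have h4 : (1 : ℝ) ≤ q := by exact_mod_cast hq1
      linarith
  obtain ⟨a', ha'⟩ : ∃ a', a' = (a % (q : ℤ)).toNat := ⟨_, rfl⟩
  obtain ⟨S, hS⟩ : ∃ S, S = badD m (PairT m (A + 1) (1 - F ^ 2 - e) (1 + F + e) N) N q a' := ⟨_, rfl⟩
  have hcard : (S.card : ℝ) ≤ (N : ℝ) / (q * L ^ (A + 1)) := by
    rw [hS, hLd]
    refine h1 N hNN q₁ q₂ q hq hq1 ?_ hqc hqN a' ?_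
    · rw [← hLd]
      exact hqs.trans (pow_le_pow_left₀ hl0'.le hlL _)
    · rw [ha', gcd_toNat q a hq1, ← hLd]
      exact ha.trans (pow_le_pow_left₀ hl0'.le hlL _)
  have hF2 : F ^ 2 ≤ (965 / 1000) ^ 2 := pow_le_pow_left₀ hl0 hl1 2
  have hF2' : 0 ≤ F ^ 2 := sq_nonneg F
  norm_num at hF2
  have hsub : exceptional m A (1 - F ^ 2 - ε) (1 + F + ε) x q a ⊆ ((S : Finset ℕ) : Set ℕ) := by
    rintro h ⟨a1, a2, a3, a4, a5, a6⟩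
    have hmod := mod_iff' h q a hq1 a5
    rw [← ha'] at hmod
    rw [mem_coe, hS]
    unfold badD
    refine mem_filter.2 ⟨mem_Icc.2 ⟨a1, ?_⟩, a3, a4, hmod, fun hc => a6 ?_⟩
    · have : (h : ℝ) ≤ N := a2.trans hxNr
      exact_mod_cast this
    · have k := hw h a2 (1 - F ^ 2 - e) (1 + F + e) (by linarith) (by linarith) (by linarith) (by linarith) hc
      intro u v hu hv hlen
      obtain ⟨k1, k2⟩ := k u v hu hv hlen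
      have hS1 := one_le_sing (m * h)
      have hlen0 : 0 ≤ v - u := le_trans (by rw [← hld]; positivity) hlen
      have h7 : 0 ≤ sing (m * h) * (v - u) / Real.log x ^ 2 := by positivity
      exact ⟨(mul_le_mul_of_nonneg_right (by linarith) h7).trans k1,
        k2.trans (mul_le_mul_of_nonneg_right (by linarith) h7)⟩
  refine ⟨(Finset.finite_toSet S).subset hsub, ?_⟩
  have h3 : ((exceptional m A (1 - F ^ 2 - ε) (1 + F + ε) x q a).ncard : ℝ) ≤ S.card := by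
    have h4 := Set.ncard_le_ncard hsub (Finset.finite_toSet _)
    rw [Set.ncard_coe_finset] at h4
    exact_mod_cast h4
  refine h3.trans (hcard.trans ?_)
  rw [← hld, div_le_div_iff₀ (by positivity) (by positivity)]
  have h4 : ((m : ℝ) + 1) * l ^ A ≤ L ^ (A + 1) := by
    rw [pow_succ']
    exact mul_le_mul (by linarith) (pow_le_pow_left₀ hl0'.le hlL _) (by positivity) hL0.le
  calc (N : ℝ) * (q * l ^ A) ≤ (((m : ℝ) + 1) * x) * (q * l ^ A) := mul_le_mul_of_nonneg_right hN2 (by positivity)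
    _ = (x * q) * (((m : ℝ) + 1) * l ^ A) := by ring
    _ ≤ (x * q) * L ^ (A + 1) := mul_le_mul_of_nonneg_left h4 (by positivity)
    _ = x * (q * L ^ (A + 1)) := by ring


end Pool.Agent.T2h83.GD
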