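import Pool.Agent.T2h83.GD.Core

set_option autoImplicit false

/-! The correlation with a shifted character, restricted to one class of a small modulus. -/

namespace Pool.Agent.T2h83.GD

open Finset
open Pool.Agent.R460.GS
open Pool.Agent.Y883.GJ
open Pool.Agent.H807R2.Dav (ee)

lemma sum_cl {q : ℕ} [NeZero q] (y : ℕ) (F : ℕ → ℂ) (η : ℝ) (g : ZMod q → ℂ) :
    ∑ l : ZMod q, cl q y F η l * g l = ∑ n ∈ Icc 1 y, F n * ee (n * η) * g (n : ZMod q) := by
  unfold cl
  simp only [sum_mul]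
  rw [← sum_fiberwise (Icc 1 y) (fun n : ℕ => (n : ZMod q)) (fun n => F n * ee (n * η) * g (n : ZMod q))]
  refine sum_congr rfl fun l _ => sum_congr rfl fun n hn => ?_
  rw [(mem_filter.1 hn).2]

/-- the orthogonality relation in the form needed -/
lemma class_char {M R : ℕ} [NeZero M] [NeZero R] (hR : R ∣ M) (χ : DirichletCharacter ℂ M) (c σ s : ℤ)
    (hc : c ≡ σ + 1 [ZMOD R]) :
    (if s ≡ σ [ZMOD R] then χ ((c : ZMod M) - s) else 0) =
      (R.totient : ℂ)⁻¹ * ∑ ψ : DirichletCharacter ℂ R,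
        (DirichletCharacter.changeLevel hR ψ * χ) ((c : ZMod M) - s) := by
  have hφ : (R.totient : ℂ) ≠ 0 := by
    have : 0 < R.totient := Nat.totient_pos.2 (NeZero.pos R)
    exact_mod_cast this.ne'
  have hcast : (c : ZMod M) - s = ((c - s : ℤ) : ZMod M) := by push_cast; ring
  rw [hcast]
  simp only [MulChar.mul_apply]
  rw [← sum_mul]
  by_cases hu : IsCoprime (c - s) (M : ℤ)
  · have e1 : ∀ ψ : DirichletCharacter ℂ R,
        (DirichletCharacter.changeLevel hR ψ) ((c - s : ℤ) : ZMod M) = ψ ((c - s : ℤ) : ZMod R) :=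
      fun ψ => DirichletCharacter.changeLevel_eq_cast_of_dvd' ψ hR hu
    simp only [e1]
    rw [DirichletCharacter.sum_characters_eq]
    have e2 : (((c - s : ℤ) : ZMod R) = 1) ↔ s ≡ σ [ZMOD R] := by
      have h1 : (1 : ZMod R) = ((1 : ℤ) : ZMod R) := by push_cast; rfl
      rw [h1, ZMod.intCast_eq_intCast_iff]
      constructor
      · intro h
        have h2 : s ≡ c - 1 [ZMOD R] := by
          have h3 := (Int.ModEq.refl c).sub h
          rwa [show c - (c - s) = s by ring] at h3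
        have h3 : c - 1 ≡ σ [ZMOD R] := by
          have h4 := hc.sub (Int.ModEq.refl (1 : ℤ))
          rwa [show σ + 1 - 1 = σ by ring] at h4
        exact h2.trans h3
      · intro h
        have h2 := hc.sub h
        rwa [show σ + 1 - σ = 1 by ring] at h2
    by_cases h : s ≡ σ [ZMOD R]
    · rw [if_pos h, if_pos (e2.2 h), ← mul_assoc, inv_mul_cancel₀ hφ, one_mul]
    · rw [if_neg h, if_neg (fun h2 => h (e2.1 h2))]
      ring
  · have e1 : χ ((c - s : ℤ) : ZMod M) = 0 := by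
      apply χ.map_nonunit
      intro h
      apply hu
      rwa [ZMod.coe_int_isUnit_iff_isCoprime, isCoprime_comm] at h
    rw [e1, mul_zero, mul_zero]
    simp

/-- multiplication by a character of a small modulus does not make the conductor much smaller -/
lemma cond_mul {M R : ℕ} [NeZero M] [NeZero R] (hR : R ∣ M) (χ : DirichletCharacter ℂ M)
    (ψ : DirichletCharacter ℂ R) :
    χ.conductor ≤ R * (DirichletCharacter.changeLevel hR ψ * χ).conductor := by
  obtain ⟨Ψ, hΨ⟩ : ∃ Ψ, Ψ = DirichletCharacter.changeLevel hR ψ * χ := ⟨_, rfl⟩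
  rw [← hΨ]
  have h1 : χ = (DirichletCharacter.changeLevel hR ψ)⁻¹ * Ψ := by rw [hΨ, inv_mul_cancel_left]
  have h2 := DirichletCharacter.conductor_mul_dvd_lcm_conductor (DirichletCharacter.changeLevel hR ψ)⁻¹ Ψ
  rw [← h1, DirichletCharacter.conductor_inv, DirichletCharacter.conductor_changeLevel] at h2
  have h3 : ψ.conductor ∣ R := ψ.conductor_dvd_level
  have h4 : ψ.conductor.lcm Ψ.conductor ∣ R * Ψ.conductor :=
    Nat.lcm_dvd (h3.trans (Nat.dvd_mul_right _ _)) (Nat.dvd_mul_left _ _)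
  apply Nat.le_of_dvd _ (h2.trans h4)
  have h5 : Ψ.conductor ≠ 0 := DirichletCharacter.conductor_ne_zero Ψ
  exact Nat.mul_pos (NeZero.pos R) (Nat.pos_of_ne_zero h5)

lemma gcd_val {M : ℕ} [NeZero M] (c : ℤ) : Nat.gcd (c : ZMod M).val M = Int.gcd c M := by
  have h1 : (((c : ZMod M).val : ℕ) : ℤ) = c % M := ZMod.val_intCast c
  have h2 : Int.gcd (((c : ZMod M).val : ℕ) : ℤ) (M : ℤ) = Nat.gcd (c : ZMod M).val M := Int.gcd_natCast_natCast _ _
  rw [← h2, h1, Int.gcd_emod]

open Classical in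
/-- sum over one class modulo `R` -/
theorem block {N B C T K M R : ℕ} {ρ : ℝ} {F : ℕ → ℂ} [NeZero M] (h : ShAt N ρ B C T K F)
    (hM : (M : ℝ) ≤ (N : ℝ) ^ (7 / 10 - ρ)) (hR : R ∣ M) (hL : 0 ≤ Real.log N) (χ : DirichletCharacter ℂ M)
    (hχ : Real.log N ^ K * R < χ.conductor) (c : ℤ) (hc : (Int.gcd c M : ℝ) ≤ Real.log N ^ T) (σ : ℤ)
    (hcσ : c ≡ σ + 1 [ZMOD R]) (η : ℝ) (hη : |η| ≤ Real.log N ^ C / N) (y : ℕ) (hy : y ≤ N) :
    ‖∑ s ∈ (Icc 1 y).filter (fun s : ℕ => (s : ℤ) ≡ σ [ZMOD R]), F s * ee (s * η) * χ ((c : ZMod M) - (s : ZMod M))‖ ≤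
      N / Real.log N ^ B := by
  have hR0 : R ≠ 0 := by
    rintro rfl
    exact NeZero.ne M (Nat.eq_zero_of_zero_dvd hR)
  have : NeZero R := ⟨hR0⟩
  have hRr : (0 : ℝ) < R := by exact_mod_cast Nat.pos_of_ne_zero hR0
  have hφ : 0 < R.totient := Nat.totient_pos.2 (NeZero.pos R)
  have hφr : (0 : ℝ) < R.totient := by exact_mod_cast hφ
  have e1 : ∑ s ∈ (Icc 1 y).filter (fun s : ℕ => (s : ℤ) ≡ σ [ZMOD R]), F s * ee (s * η) * χ ((c : ZMod M) - (s : ZMod M)) =
      (R.totient : ℂ)⁻¹ * ∑ ψ : DirichletCharacter ℂ R, ∑ l : ZMod M, cl M y F η l *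
        (DirichletCharacter.changeLevel hR ψ * χ) ((c : ZMod M) - l) := by
    rw [sum_filter]
    simp only [sum_cl]
    rw [sum_comm, mul_sum]
    refine sum_congr rfl fun s _ => ?_
    rw [← mul_sum]
    have h1 := class_char hR χ c σ (s : ℤ) hcσ
    rw [Int.cast_natCast] at h1
    calc (if (s : ℤ) ≡ σ [ZMOD R] then F s * ee (s * η) * χ ((c : ZMod M) - (s : ZMod M)) else 0)
        = F s * ee (s * η) * (if (s : ℤ) ≡ σ [ZMOD R] then χ ((c : ZMod M) - (s : ZMod M)) else 0) := by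
          split_ifs <;> simp
      _ = _ := by rw [h1]; ring
  rw [e1, norm_mul]
  have e2 : ‖((R.totient : ℂ)⁻¹)‖ = (R.totient : ℝ)⁻¹ := by
    rw [norm_inv, Complex.norm_natCast]
  rw [e2]
  have hcard : Fintype.card (DirichletCharacter ℂ R) = R.totient := by
    have h1 := DirichletCharacter.card_eq_totient_of_hasEnoughRootsOfUnity ℂ R
    rwa [Nat.card_eq_fintype_card] at h1
  have e3 : ‖∑ ψ : DirichletCharacter ℂ R, ∑ l : ZMod M, cl M y F η l *
      (DirichletCharacter.changeLevel hR ψ * χ) ((c : ZMod M) - l)‖ ≤ R.totient * (N / Real.log N ^ B) := by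
    refine (norm_sum_le _ _).trans ?_
    calc _ ≤ ∑ _ψ : DirichletCharacter ℂ R, (N / Real.log N ^ B : ℝ) := by
          refine sum_le_sum fun ψ _ => ?_
          refine h M hM _ ?_ (c : ZMod M) ?_ η hη y hy
          · have h1 : (χ.conductor : ℝ) ≤ R * ((DirichletCharacter.changeLevel hR ψ * χ).conductor : ℝ) := by
              exact_mod_cast cond_mul hR χ ψ
            have h2 : Real.log N ^ K * R < R * ((DirichletCharacter.changeLevel hR ψ * χ).conductor : ℝ) :=
              lt_of_lt_of_le hχ h1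
            nlinarith
          · rw [gcd_val]
            exact hc
      _ = _ := by rw [sum_const, card_univ, hcard, nsmul_eq_mul]
  calc (R.totient : ℝ)⁻¹ * ‖∑ ψ : DirichletCharacter ℂ R, ∑ l : ZMod M, cl M y F η l *
      (DirichletCharacter.changeLevel hR ψ * χ) ((c : ZMod M) - l)‖ ≤
      (R.totient : ℝ)⁻¹ * (R.totient * (N / Real.log N ^ B)) := by gcongr
    _ = N / Real.log N ^ B := by field_simp

end Pool.Agent.T2h83.GD
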