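import Pool.Agent.T2h83.GD.Asm
import Pool.Agent.R460.GS.Conv

/-!
Project GD (helper83): the theorem for real `x`, real windows and residue classes given by integers.
-/

set_option autoImplicit false

namespace Pool.Agent.T2h83.GD

open Finset
open Pool.Agent.R460.GS
open Pool.Agent.T2h83.GT
open Pool.Agent.H560R3.GB (sing)

/-- The number of the primes `p` with `u < p ≤ v` such that `m p + h` is a prime. -/
noncomputable def pairs (m h : ℕ) (u v : ℝ) : ℕ :=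
  Set.ncard {p : ℕ | p.Prime ∧ (m * p + h).Prime ∧ u < (p : ℝ) ∧ (p : ℝ) ≤ v}

/-- In every window `(u, v] ⊆ (0, x]` of length at least `x / (log x) ^ A` the number of the primes `p` with
`m p + h` prime is between `lo` times and `hi` times the predicted number. -/
def Good (m A : ℕ) (lo hi x : ℝ) (h : ℕ) : Prop :=
  ∀ u v : ℝ, 0 ≤ u → v ≤ x → x / Real.log x ^ A ≤ v - u →
    lo * (sing (m * h) * (v - u) / Real.log x ^ 2) ≤ (pairs m h u v : ℝ) ∧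
    (pairs m h u v : ℝ) ≤ hi * (sing (m * h) * (v - u) / Real.log x ^ 2)

/-- The integers `0 < h ≤ x`, `h ≡ a (mod q)`, coprime to `m`, with `m h` even, for which `Good` fails. -/
def exceptional (m A : ℕ) (lo hi x : ℝ) (q : ℕ) (a : ℤ) : Set ℕ :=
  {h : ℕ | 0 < h ∧ (h : ℝ) ≤ x ∧ 2 ∣ m * h ∧ Nat.Coprime h m ∧ (h : ℤ) ≡ a [ZMOD q] ∧ ¬ Good m A lo hi x h}

lemma pairs_eq (m h : ℕ) (u v : ℝ) (hu : 0 ≤ u) (hv : 0 ≤ v) : pairs m h u v = cntD m h ⌊u⌋₊ ⌊v⌋₊ := by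
  unfold pairs cntD
  rw [← Set.ncard_coe_finset]
  congr 1
  ext p
  rw [coe_filter, Set.mem_setOf_eq, Set.mem_setOf_eq, mem_Ioc, Nat.floor_lt hu, Nat.le_floor_iff hv]
  tauto

lemma num_eta {η : ℝ} (h0 : 0 < η) (h1 : η ≤ 1) : (1 - η) * (1 + η / 4) ^ 2 ≤ 1 - η / 4 := by
  have e : (1 - η) * (1 + η / 4) ^ 2 = 1 - η / 2 - 7 / 16 * η ^ 2 - 1 / 16 * η ^ 3 := by ring
  rw [e]
  have : 0 ≤ η ^ 3 := by positivity
  nlinarith [sq_nonneg η]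

/-- from the integer windows to the real ones -/
lemma good_of {m : ℕ} (hm : 1 ≤ m) (A A' : ℕ) (hA : A + 1 ≤ A') (ε : ℝ) (hε : 0 < ε) : ∃ x₀ : ℝ, ∀ x : ℝ, x₀ ≤ x →
    ∀ h : ℕ, (h : ℝ) ≤ x → ∀ lo hi : ℝ, lo ≤ 1 → 0 ≤ lo → 0 ≤ hi → hi ≤ 3 →
    PairT m A' lo hi ((m + 1) * ⌊x⌋₊) h → Good m A (lo - ε) (hi + ε) x h := by
  obtain ⟨η, hη⟩ : ∃ η : ℝ, η = min ε 1 / 6 := ⟨_, rfl⟩
  have hη0 : 0 < η := by rw [hη]; have := lt_min hε (show (0 : ℝ) < 1 by norm_num); linarith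
  have hη1 : 6 * η ≤ 1 := by rw [hη]; have := min_le_right ε (1 : ℝ); linarith
  have hη2 : 6 * η ≤ ε := by rw [hη]; have := min_le_left ε (1 : ℝ); linarith
  obtain ⟨lm, hlm⟩ : ∃ lm, lm = Real.log ((m : ℝ) + 1) := ⟨_, rfl⟩
  have hm1 : (1 : ℝ) ≤ m := by exact_mod_cast hm
  have hlm0 : 0 ≤ lm := by rw [hlm]; exact Real.log_nonneg (by linarith)
  obtain ⟨x₁, hx₁⟩ := Filter.eventually_atTop.1
    ((Real.tendsto_log_atTop.eventually_ge_atTop (100 + 4 * lm / η + 4 * ((m : ℝ) + 1) + 4 / η)).and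
      (real_log (A + 2) (s := 1) (by norm_num) 100))
  refine ⟨max x₁ 100, fun x hx h hh lo hi hlo hlo0 hhi0 hhi hP u v hu hv hlen => ?_⟩
  obtain ⟨hl, -, hpw⟩ := hx₁ x ((le_max_left _ _).trans hx)
  have hx100 : 100 ≤ x := (le_max_right _ _).trans hx
  have hx0 : 0 < x := by linarith
  obtain ⟨N, hN⟩ : ∃ N, N = (m + 1) * ⌊x⌋₊ := ⟨_, rfl⟩
  have hNr : (N : ℝ) = ((m : ℝ) + 1) * (⌊x⌋₊ : ℝ) := by rw [hN]; push_cast; ring
  have hf1 : (⌊x⌋₊ : ℝ) ≤ x := Nat.floor_le hx0.le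
  have hf2 : x < (⌊x⌋₊ : ℝ) + 1 := Nat.lt_floor_add_one x
  have hN2 : (N : ℝ) ≤ ((m : ℝ) + 1) * x := by
    rw [hNr]
    exact mul_le_mul_of_nonneg_left hf1 (by linarith)
  rw [← hN] at hP
  have hxN : x ≤ N := by
    rw [hNr]
    nlinarith
  obtain ⟨l, hld⟩ : ∃ l, l = Real.log x := ⟨_, rfl⟩
  obtain ⟨L, hLd⟩ : ∃ L, L = Real.log (N : ℝ) := ⟨_, rfl⟩
  rw [← hld] at hl hpw hlen ⊢
  have hlη : 0 ≤ 4 * lm / η := by positivity
  have hlη4 : 0 ≤ 4 / η := by positivity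
  have hl100 : 100 ≤ l := by linarith
  have hl0 : 0 < l := by linarith
  have hl1 : 1 ≤ l := by linarith
  have hlmη : lm ≤ η / 4 * l := by
    have h1 : 4 * lm / η ≤ l := by linarith
    rw [div_le_iff₀ hη0] at h1
    linarith
  have hN0 : (0 : ℝ) < N := by linarith
  have hLl : L ≤ (1 + η / 4) * l := by
    have h1 : L ≤ Real.log (((m : ℝ) + 1) * x) := by rw [hLd]; exact Real.log_le_log hN0 hN2
    rw [Real.log_mul (by linarith) hx0.ne', ← hld, ← hlm] at h1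
    linarith
  have hlL : l ≤ L := by rw [hld, hLd]; exact Real.log_le_log hx0 hxN
  have hL0 : 0 < L := by linarith
  -- the length
  obtain ⟨Δ, hΔ⟩ : ∃ Δ, Δ = v - u := ⟨_, rfl⟩
  rw [← hΔ] at hlen ⊢
  have hΔl : l ^ 2 ≤ Δ := by
    refine le_trans ?_ hlen
    rw [le_div_iff₀ (by positivity), ← pow_add, show 2 + A = A + 2 by ring]
    rw [Real.rpow_one] at hpw
    exact hpw
  have hll : l ≤ l ^ 2 := le_self_pow₀ hl1 (by norm_num)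
  have hΔ100 : 100 ≤ Δ := by linarith
  have hΔη : 1 ≤ η / 4 * Δ := by
    have h1 : 4 / η ≤ Δ := by linarith
    rw [div_le_iff₀ hη0] at h1
    linarith
  have hv0 : 0 ≤ v := by linarith
  obtain ⟨y₁, hy1⟩ : ∃ y₁, y₁ = ⌊u⌋₊ := ⟨_, rfl⟩
  obtain ⟨y₂, hy2⟩ : ∃ y₂, y₂ = ⌊v⌋₊ := ⟨_, rfl⟩
  have e1 : (y₁ : ℝ) ≤ u := by rw [hy1]; exact Nat.floor_le hu
  have e1' : u < y₁ + 1 := by rw [hy1]; exact Nat.lt_floor_add_one u
  have e2 : v < y₂ + 1 := by rw [hy2]; exact Nat.lt_floor_add_one v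
  have e2' : (y₂ : ℝ) ≤ v := by rw [hy2]; exact Nat.floor_le hv0
  obtain ⟨D, hD⟩ : ∃ D : ℝ, D = (y₂ : ℝ) - y₁ := ⟨_, rfl⟩
  have e3 : Δ - 1 ≤ D := by rw [hD, hΔ]; linarith
  have e3' : D ≤ Δ + 1 := by rw [hD, hΔ]; linarith
  have e4 : y₁ < y₂ := by
    have : (y₁ : ℝ) < y₂ := by linarith
    exact_mod_cast this
  have e5 : m * y₂ + h ≤ N := by
    have a1 : y₂ ≤ ⌊x⌋₊ := by rw [hy2]; exact Nat.floor_le_floor hv
    have a2 : h ≤ ⌊x⌋₊ := Nat.le_floor hh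
    have a3 : m * y₂ ≤ m * ⌊x⌋₊ := Nat.mul_le_mul_left m a1
    rw [hN, Nat.add_mul, Nat.one_mul]
    omega
  have e6 : (N : ℝ) / L ^ A' ≤ (y₂ : ℝ) - y₁ := by
    rw [← hD]
    refine le_trans ?_ e3
    have a1 : (N : ℝ) / L ^ A' ≤ ((m : ℝ) + 1) * x / l ^ (A + 1) := by
      have b1 : l ^ (A + 1) ≤ L ^ A' :=
        (pow_le_pow_left₀ hl0.le hlL _).trans (pow_le_pow_right₀ (by linarith) hA)
      exact div_le_div₀ (by positivity) hN2 (by positivity) b1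
    have a2 : ((m : ℝ) + 1) * x / l ^ (A + 1) = (x / l ^ A) * (((m : ℝ) + 1) / l) := by
      rw [pow_succ]
      field_simp
    have a3 : ((m : ℝ) + 1) / l ≤ 1 / 2 := by rw [div_le_div_iff₀ hl0 (by norm_num)]; linarith
    have a4 : (x / l ^ A) * (((m : ℝ) + 1) / l) ≤ Δ * (1 / 2) := mul_le_mul hlen a3 (by positivity) (by linarith)
    rw [a2] at a1
    linarith
  obtain ⟨k1, k2⟩ := hP y₁ y₂ e4 e5 (by rw [← hLd]; exact e6)
  rw [pairs_eq m h u v hu hv0, ← hy1, ← hy2]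
  rw [← hLd, ← hD] at k1 k2
  obtain ⟨S, hS⟩ : ∃ S, S = sing (m * h) := ⟨_, rfl⟩
  have hS1 : 1 ≤ S := by rw [hS]; exact one_le_sing _
  rw [← hS] at k1 k2 ⊢
  obtain ⟨X, hX⟩ : ∃ X, X = Δ / l ^ 2 := ⟨_, rfl⟩
  obtain ⟨Y, hY⟩ : ∃ Y, Y = D / L ^ 2 := ⟨_, rfl⟩
  have hX0 : 0 ≤ X := by rw [hX]; positivity
  have f1 : S * Δ / l ^ 2 = S * X := by rw [hX]; ring
  have f2 : S * D / L ^ 2 = S * Y := by rw [hY]; ring
  rw [f1]
  rw [f2] at k1 k2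
  have g1 : (1 - η) * X ≤ Y := by
    rw [hX, hY, ← mul_div_assoc, div_le_div_iff₀ (by positivity) (by positivity)]
    have b1 : L ^ 2 ≤ (1 + η / 4) ^ 2 * l ^ 2 := by
      rw [← mul_pow]
      exact pow_le_pow_left₀ hL0.le hLl 2
    have b2 : (1 - η / 4) * Δ ≤ D := by linarith
    have b3 := num_eta hη0 (by linarith)
    calc (1 - η) * Δ * L ^ 2 ≤ (1 - η) * Δ * ((1 + η / 4) ^ 2 * l ^ 2) := by
          apply mul_le_mul_of_nonneg_left b1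
          apply mul_nonneg <;> linarith
      _ = ((1 - η) * (1 + η / 4) ^ 2) * (Δ * l ^ 2) := by ring
      _ ≤ (1 - η / 4) * (Δ * l ^ 2) := mul_le_mul_of_nonneg_right b3 (by positivity)
      _ = ((1 - η / 4) * Δ) * l ^ 2 := by ring
      _ ≤ D * l ^ 2 := mul_le_mul_of_nonneg_right b2 (by positivity)
  have g2 : Y ≤ (1 + η) * X := by
    rw [hX, hY, ← mul_div_assoc]
    have b1 : l ^ 2 ≤ L ^ 2 := pow_le_pow_left₀ hl0.le hlL 2
    have b2 : D ≤ (1 + η) * Δ := by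
      have : 0 ≤ η * Δ := by positivity
      linarith
    exact div_le_div₀ (by positivity) b2 (by positivity) b1
  have hSX : 0 ≤ S * X := by positivity
  constructor
  · refine le_trans ?_ k1
    have c1 : lo * (S * ((1 - η) * X)) ≤ lo * (S * Y) := by gcongr
    refine le_trans ?_ c1
    have c2 : lo * (S * ((1 - η) * X)) = (lo * (1 - η)) * (S * X) := by ring
    rw [c2]
    apply mul_le_mul_of_nonneg_right _ hSX
    nlinarith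
  · refine k2.trans ?_
    have c1 : hi * (S * Y) ≤ hi * (S * ((1 + η) * X)) := by gcongr
    refine c1.trans ?_
    have c2 : hi * (S * ((1 + η) * X)) = (hi * (1 + η)) * (S * X) := by ring
    rw [c2]
    apply mul_le_mul_of_nonneg_right _ hSX
    nlinarith

/-- the theorem of project GD for real `x` -/
theorem gd_real {m : ℕ} (hm : 1 ≤ m) (hE : ErrStm m) (hWin : WinStm m) (ε : ℝ) (hε : 0 < ε) {θ : ℝ}
    (hθ0 : 2 / 3 ≤ θ) (hθ1 : θ ≤ 5 / 6) (ρ : ℝ) (hρ : 0 < ρ) (A T : ℕ) :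
    ∃ x₀ : ℝ, ∀ x : ℝ, x₀ ≤ x → ∀ q₁ q₂ : ℕ, 1 ≤ q₁ * q₂ → (q₁ : ℝ) ≤ Real.log x ^ T → Nat.Coprime q₂ m →
      ((q₁ * q₂ : ℕ) : ℝ) ≤ x ^ (θ - ρ) → ∀ a : ℤ, (Int.gcd a (q₁ * q₂ : ℕ) : ℝ) ≤ Real.log x ^ T →
        (exceptional m A (1 - FU (θ / (2 - 2 * θ)) ^ 2 - ε) (1 + FU (θ / (2 - 2 * θ)) + ε) x (q₁ * q₂) a).Finite ∧
        ((exceptional m A (1 - FU (θ / (2 - 2 * θ)) ^ 2 - ε) (1 + FU (θ / (2 - 2 * θ)) + ε) x (q₁ * q₂) a).ncard : ℝ) ≤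
          x / ((q₁ * q₂ : ℕ) * Real.log x ^ A) := by
  classical
  obtain ⟨hl0, hl1⟩ := FU_bd hθ0 hθ1
  obtain ⟨F, hF⟩ : ∃ F, F = FU (θ / (2 - 2 * θ)) := ⟨_, rfl⟩
  obtain ⟨e, he⟩ : ∃ e, e = min ε (1 / 100) / 2 := ⟨_, rfl⟩
  have he0 : 0 < e := by rw [he]; have := lt_min hε (show (0 : ℝ) < 1 / 100 by norm_num); linarith
  have he1 : 2 * e ≤ ε := by rw [he]; have := min_le_left ε (1 / 100 : ℝ); linarith
  have he2 : 2 * e ≤ 1 / 100 := by rw [he]; have := min_le_right ε (1 / 100 : ℝ); linarith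
  obtain ⟨N₁, h1⟩ := gd_F hm hE hWin e he0 hθ0 hθ1 (θ - ρ) (by linarith) (A + 1) T
  rw [← hF] at h1 hl0 hl1 ⊢
  have hm1 : (1 : ℝ) ≤ m := by exact_mod_cast hm
  obtain ⟨x₁, hx₁⟩ := good_of hm A (A + 1) le_rfl e he0
  obtain ⟨x₂, hx₂⟩ := Filter.eventually_atTop.1
    (Real.tendsto_log_atTop.eventually_ge_atTop (4 + ((m : ℝ) + 1)))
  refine ⟨max (max x₁ x₂) (N₁ + 4), fun x hx q₁ q₂ hq1 hqs hqc hqx a ha => ?_⟩
  have hw := hx₁ x ((le_max_left _ _).trans ((le_max_left _ _).trans hx))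
  have hl := hx₂ x ((le_max_right _ _).trans ((le_max_left _ _).trans hx))
  have hxN : (N₁ : ℝ) + 4 ≤ x := (le_max_right _ _).trans hx
  have hN1r : (0 : ℝ) ≤ N₁ := Nat.cast_nonneg _
  have hx4 : 4 ≤ x := by linarith
  have hx0 : 0 < x := by linarith
  obtain ⟨N, hN⟩ : ∃ N, N = (m + 1) * ⌊x⌋₊ := ⟨_, rfl⟩
  have hNr : (N : ℝ) = ((m : ℝ) + 1) * (⌊x⌋₊ : ℝ) := by rw [hN]; push_cast; ring
  have hf1 : (⌊x⌋₊ : ℝ) ≤ x := Nat.floor_le hx0.le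
  have hf2 : x < (⌊x⌋₊ : ℝ) + 1 := Nat.lt_floor_add_one x
  have hxNr : x ≤ N := by
    rw [hNr]
    nlinarith
  have hN2 : (N : ℝ) ≤ ((m : ℝ) + 1) * x := by
    rw [hNr]
    exact mul_le_mul_of_nonneg_left hf1 (by linarith)
  have hNN : N₁ ≤ N := by
    have : (N₁ : ℝ) ≤ N := by linarith
    exact_mod_cast this
  rw [← hN] at hw
  obtain ⟨l, hld⟩ : ∃ l, l = Real.log x := ⟨_, rfl⟩
  obtain ⟨L, hLd⟩ : ∃ L, L = Real.log (N : ℝ) := ⟨_, rfl⟩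
  have hlL : l ≤ L := by rw [hld, hLd]; exact Real.log_le_log hx0 hxNr
  rw [← hld] at hl hqs ha
  have hl4 : 4 ≤ l := by linarith
  have hl0' : 0 < l := by linarith
  have hL0 : 0 < L := by linarith
  obtain ⟨q, hq⟩ : ∃ q, q = q₁ * q₂ := ⟨_, rfl⟩
  rw [← hq] at hq1 hqx ha ⊢
  have hq0 : (0 : ℝ) < q := by exact_mod_cast hq1
  have hqN : (q : ℝ) ≤ (N : ℝ) ^ (θ - ρ) := by
    rcases le_or_gt 0 (θ - ρ) with hc | hc
    · exact hqx.trans (Real.rpow_le_rpow hx0.le hxNr hc)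
    · exfalso
      have h3 : x ^ (θ - ρ) < 1 := Real.rpow_lt_one_of_one_lt_of_neg (by linarith) hc
      have h4 : (1 : ℝ) ≤ q := by exact_mod_cast hq1
      linarith
  obtain ⟨a', ha'⟩ : ∃ a', a' = (a % (q : ℤ)).toNat := ⟨_, rfl⟩
  obtain ⟨S, hS⟩ : ∃ S, S = badD m (PairT m (A + 1) (1 - F ^ 2 - e) (1 + F + e) N) N q a' := ⟨_, rfl⟩
  have hcard : (S.card : ℝ) ≤ (N : ℝ) / (q * L ^ (A + 1)) := by
    rw [hS, hLd]
    refine h1 N hNN q₁ q₂ q hq hq1 ?_ hqc hqN a' ?_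
    · rw [← hLd]
      exact hqs.trans (pow_le_pow_left₀ hl0'.le hlL _)
    · rw [ha', gcd_toNat q a hq1, ← hLd]
      exact ha.trans (pow_le_pow_left₀ hl0'.le hlL _)
  have hF2 : F ^ 2 ≤ (965 / 1000) ^ 2 := pow_le_pow_left₀ hl0 hl1 2
  have hF2' : 0 ≤ F ^ 2 := sq_nonneg F
  norm_num at hF2
  have hsub : exceptional m A (1 - F ^ 2 - ε) (1 + F + ε) x q a ⊆ ((S : Finset ℕ) : Set ℕ) := by
    rintro h ⟨a1, a2, a3, a4, a5, a6⟩
    have hmod := mod_iff' h q a hq1 a5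
    rw [← ha'] at hmod
    rw [mem_coe, hS]
    unfold badD
    refine mem_filter.2 ⟨mem_Icc.2 ⟨a1, ?_⟩, a3, a4, hmod, fun hc => a6 ?_⟩
    · have : (h : ℝ) ≤ N := a2.trans hxNr
      exact_mod_cast this
    · have k := hw h a2 (1 - F ^ 2 - e) (1 + F + e) (by linarith) (by linarith) (by linarith) (by linarith) hc
      intro u v hu hv hlen
      obtain ⟨k1, k2⟩ := k u v hu hv hlen
      have hS1 := one_le_sing (m * h)
      have hlen0 : 0 ≤ v - u := le_trans (by rw [← hld]; positivity) hlen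
      have h7 : 0 ≤ sing (m * h) * (v - u) / Real.log x ^ 2 := by positivity
      exact ⟨(mul_le_mul_of_nonneg_right (by linarith) h7).trans k1,
        k2.trans (mul_le_mul_of_nonneg_right (by linarith) h7)⟩
  refine ⟨(Finset.finite_toSet S).subset hsub, ?_⟩
  have h3 : ((exceptional m A (1 - F ^ 2 - ε) (1 + F + ε) x q a).ncard : ℝ) ≤ S.card := by
    have h4 := Set.ncard_le_ncard hsub (Finset.finite_toSet _)
    rw [Set.ncard_coe_finset] at h4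
    exact_mod_cast h4
  refine h3.trans (hcard.trans ?_)
  rw [← hld, div_le_div_iff₀ (by positivity) (by positivity)]
  have h4 : ((m : ℝ) + 1) * l ^ A ≤ L ^ (A + 1) := by
    rw [pow_succ']
    exact mul_le_mul (by linarith) (pow_le_pow_left₀ hl0'.le hlL _) (by positivity) hL0.le
  calc (N : ℝ) * (q * l ^ A) ≤ (((m : ℝ) + 1) * x) * (q * l ^ A) := mul_le_mul_of_nonneg_right hN2 (by positivity)
    _ = (x * q) * (((m : ℝ) + 1) * l ^ A) := by ring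
    _ ≤ (x * q) * L ^ (A + 1) := mul_le_mul_of_nonneg_left h4 (by positivity)
    _ = x * (q * L ^ (A + 1)) := by ring

/-- the case `m = 1` -/
theorem gd_one (ε : ℝ) (hε : 0 < ε) {θ : ℝ} (hθ0 : 2 / 3 ≤ θ) (hθ1 : θ ≤ 5 / 6) (ρ : ℝ) (hρ : 0 < ρ) (A T : ℕ) :
    ∃ x₀ : ℝ, ∀ x : ℝ, x₀ ≤ x → ∀ q : ℕ, 1 ≤ q →
      (q : ℝ) ≤ x ^ (θ - ρ) → ∀ a : ℤ, (Int.gcd a q : ℝ) ≤ Real.log x ^ T →
        (exceptional 1 A (1 - FU (θ / (2 - 2 * θ)) ^ 2 - ε) (1 + FU (θ / (2 - 2 * θ)) + ε) x q a).Finite ∧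
        ((exceptional 1 A (1 - FU (θ / (2 - 2 * θ)) ^ 2 - ε) (1 + FU (θ / (2 - 2 * θ)) + ε) x q a).ncard : ℝ) ≤
          x / (q * Real.log x ^ A) := by
  obtain ⟨x₀, h⟩ := gd_real le_rfl (fun _ _ _ => errD_one) win_one ε hε hθ0 hθ1 ρ hρ A T
  obtain ⟨x₁, h1⟩ := Filter.eventually_atTop.1 (Real.tendsto_log_atTop.eventually_ge_atTop (1 : ℝ))
  refine ⟨max x₀ x₁, fun x hx q hq hqx a ha => ?_⟩
  have hl := h1 x ((le_max_right _ _).trans hx)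
  have := h x ((le_max_left _ _).trans hx) 1 q (by omega) (by
    rw [Nat.cast_one]
    exact one_le_pow₀ hl) (Nat.coprime_one_right q) (by rw [one_mul]; exact hqx) a (by rw [one_mul]; exact ha)
  rw [one_mul] at this
  exact this

end Pool.Agent.T2h83.GD
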