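import Pool.Agent.T2h83.GD.Trip

/-!
Project GD (helper83): chains `p, 2 p + h, 4 p + 3 h` in which exactly the first two numbers are primes.
-/

set_option autoImplicit false

namespace Pool.Agent.T2h83.GD

open Finset
open Pool.Agent.R460.GS
open Pool.Agent.T2h83.GT
open Pool.Agent.H560R3.GB (sing)

/-- the primes `p` in a window for which `2 p + h` is a prime and `4 p + 3 h` is not -/
def cntE (h u v : ℕ) : ℕ :=
  ((Ioc u v).filter (fun p => p.Prime ∧ (2 * p + h).Prime ∧ ¬ (4 * p + 3 * h).Prime)).card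

lemma cntE_add (h u v : ℕ) : cntE h u v + cntT h u v = cntD 2 h u v := by
  unfold cntE cntT cntD
  rw [← card_union_of_disjoint]
  · congr 1
    ext p
    rw [mem_union, mem_filter, mem_filter, mem_filter]
    tauto
  · rw [disjoint_left]
    intro p h1 h2
    rw [mem_filter] at h1 h2
    exact h1.2.2.2 h2.2.2.2

/-- the triples are few -/
lemma trip_few (δ : ℝ) (hδ : 0 < δ) (A : ℕ) : ∃ N₀ : ℕ, ∀ N : ℕ, N₀ ≤ N → ∀ h : ℕ, 0 < h → h ≤ N → ∀ u v : ℕ,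
    v ≤ N → (N : ℝ) / Real.log N ^ A ≤ (v : ℝ) - u →
    (cntT h u v : ℝ) ≤ δ * (((v : ℝ) - u) / Real.log N ^ 2) := by
  obtain ⟨K, hK1, N₁, h1⟩ := trip_sieve
  have hK0 : 0 < K := by linarith
  obtain ⟨N₂, h2⟩ := Filter.eventually_atTop.1 (Pool.Agent.Y614.GJ.Core.ev_log (A + 4) (s := 1 / 16) (by norm_num)
    (4 + 2 / δ + (2 * K * (216 * 8 * 2) / δ) ^ 2))
  refine ⟨N₂ + N₁ ^ 2 + 4, fun N hN h h0 hhN u v hv huv => ?_⟩
  obtain ⟨hL, hLp⟩ := h2 N (by omega)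
  obtain ⟨L, hLd⟩ : ∃ L, L = Real.log (N : ℝ) := ⟨_, rfl⟩
  rw [← hLd] at hL hLp huv ⊢
  have hsq : 0 ≤ (2 * K * (216 * 8 * 2) / δ) ^ 2 := sq_nonneg _
  have hdl : 0 < 2 / δ := by positivity
  have hL4 : 4 ≤ L := by linarith
  have hL0 : 0 < L := by linarith
  have hL1 : 1 ≤ L := by linarith
  have hN0 : (0 : ℝ) < N := by exact_mod_cast (by omega : 0 < N)
  have hN1 : (1 : ℝ) ≤ N := by exact_mod_cast (by omega : 1 ≤ N)
  obtain ⟨M, hM⟩ : ∃ M, M = v - u := ⟨_, rfl⟩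
  have hpos : (0 : ℝ) < (v : ℝ) - u := lt_of_lt_of_le (by positivity) huv
  have huv' : u < v := by
    have : (u : ℝ) < v := by linarith
    exact_mod_cast this
  have hMr : (M : ℝ) = (v : ℝ) - u := by
    rw [hM, Nat.cast_sub huv'.le]
  rw [← hMr] at huv hpos ⊢
  have hvM : v = u + M := by omega
  -- `M` is large
  have hM1 : (N : ℝ) ^ (15 / 16 : ℝ) ≤ M := by
    refine le_trans ?_ huv
    rw [le_div_iff₀ (by positivity)]
    have e1 : L ^ A ≤ (N : ℝ) ^ (1 / 16 : ℝ) := (pow_le_pow_right₀ hL1 (by omega)).trans hLp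
    calc (N : ℝ) ^ (15 / 16 : ℝ) * L ^ A ≤ (N : ℝ) ^ (15 / 16 : ℝ) * (N : ℝ) ^ (1 / 16 : ℝ) := by gcongr
      _ = N := by
          rw [← Real.rpow_add hN0]
          norm_num
  have hM2 : (N : ℝ) ^ (1 / 2 : ℝ) ≤ M :=
    (Real.rpow_le_rpow_of_exponent_le hN1 (by norm_num)).trans hM1
  have hMN1 : N₁ ≤ M := by
    have e1 : ((N₁ : ℝ) ^ 2) ≤ N := by exact_mod_cast (by omega : N₁ ^ 2 ≤ N)
    have e2 : (N₁ : ℝ) ≤ (N : ℝ) ^ (1 / 2 : ℝ) := by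
      rw [← Real.sqrt_eq_rpow]
      exact Real.le_sqrt_of_sq_le e1
    exact_mod_cast e2.trans hM2
  have hlogM : L / 2 ≤ Real.log M := by
    have e1 : Real.log ((N : ℝ) ^ (1 / 2 : ℝ)) ≤ Real.log M := Real.log_le_log (by positivity) hM2
    rw [Real.log_rpow hN0, ← hLd] at e1
    linarith
  have hMle : (M : ℝ) ≤ N := by exact_mod_cast (by omega : M ≤ N)
  -- the parameter `w`
  obtain ⟨w, hw⟩ : ∃ w, w = ⌊L⌋₊ + 1 := ⟨_, rfl⟩
  have hwr : L ≤ w := by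
    rw [hw]
    push_cast
    exact (Nat.lt_floor_add_one L).le
  have hwr2 : (w : ℝ) ≤ 2 * L := by
    rw [hw]
    push_cast
    have := Nat.floor_le hL0.le
    linarith
  have hw2 : 2 ≤ w := by
    have : (2 : ℝ) ≤ w := by linarith
    exact_mod_cast this
  have hlogh : Real.log h ≤ 4 * w := by
    have e1 : Real.log h ≤ L := by
      rw [hLd]
      exact Real.log_le_log (by exact_mod_cast h0) (by exact_mod_cast hhN)
    linarith
  have h3 := h1 M hMN1 h u w h0 hw2 hlogh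
  rw [← hvM] at h3
  refine h3.trans ?_
  -- the logarithm of `w`
  have hlw : Real.log w ^ 3 ≤ 216 * (2 * L ^ (1 / 2 : ℝ)) := by
    have e1 : Real.log w ≤ (w : ℝ) ^ (1 / 6 : ℝ) / (1 / 6) := Real.log_le_rpow_div (by positivity) (by norm_num)
    have e2 : 0 ≤ Real.log w := Real.log_nonneg (by linarith)
    calc Real.log w ^ 3 ≤ ((w : ℝ) ^ (1 / 6 : ℝ) / (1 / 6)) ^ 3 := pow_le_pow_left₀ e2 e1 3
      _ = 216 * (w : ℝ) ^ (1 / 2 : ℝ) := by
          rw [div_pow, ← Real.rpow_natCast ((w : ℝ) ^ (1 / 6 : ℝ)) 3, ← Real.rpow_mul (by positivity)]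
          norm_num
          ring
      _ ≤ 216 * (2 * L ^ (1 / 2 : ℝ)) := by
          apply mul_le_mul_of_nonneg_left _ (by norm_num)
          calc (w : ℝ) ^ (1 / 2 : ℝ) ≤ (2 * L) ^ (1 / 2 : ℝ) := Real.rpow_le_rpow (by positivity) hwr2 (by norm_num)
            _ = (2 : ℝ) ^ (1 / 2 : ℝ) * L ^ (1 / 2 : ℝ) := Real.mul_rpow (by norm_num) hL0.le
            _ ≤ 2 * L ^ (1 / 2 : ℝ) := by
                apply mul_le_mul_of_nonneg_right _ (by positivity)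
                calc (2 : ℝ) ^ (1 / 2 : ℝ) ≤ (2 : ℝ) ^ (1 : ℝ) :=
                      Real.rpow_le_rpow_of_exponent_le (by norm_num) (by norm_num)
                  _ = 2 := Real.rpow_one 2
  have hM0 : (0 : ℝ) < M := hpos
  have hlogM0 : 0 < Real.log M := by linarith
  -- first term
  have h4 : K * (Real.log w ^ 3 * M / Real.log M ^ 3) ≤ δ / 2 * (M / L ^ 2) := by
    have e1 : 2 * K * (216 * 8 * 2) / δ ≤ L ^ (1 / 2 : ℝ) := by
      rw [← Real.sqrt_eq_rpow]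
      apply Real.le_sqrt_of_sq_le
      linarith
    have e2 : L ^ (1 / 2 : ℝ) * L ^ (1 / 2 : ℝ) = L := by
      rw [← Real.rpow_add hL0]
      norm_num
    have e3 : Real.log w ^ 3 * M / Real.log M ^ 3 ≤ 216 * (2 * L ^ (1 / 2 : ℝ)) * M / (L / 2) ^ 3 := by gcongr
    calc K * (Real.log w ^ 3 * M / Real.log M ^ 3) ≤ K * (216 * (2 * L ^ (1 / 2 : ℝ)) * M / (L / 2) ^ 3) := by gcongr
      _ = (K * (216 * 8 * 2) / L * L ^ (1 / 2 : ℝ)) * (M / L ^ 2) := by field_simp; ring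
      _ ≤ δ / 2 * (M / L ^ 2) := by
          apply mul_le_mul_of_nonneg_right _ (by positivity)
          rw [div_mul_eq_mul_div, div_le_iff₀ hL0]
          rw [div_le_iff₀ hδ] at e1
          have e4 : 0 ≤ L ^ (1 / 2 : ℝ) := by positivity
          calc K * (216 * 8 * 2) * L ^ (1 / 2 : ℝ) = (2 * K * (216 * 8 * 2)) * L ^ (1 / 2 : ℝ) / 2 := by ring
            _ ≤ (L ^ (1 / 2 : ℝ) * δ) * L ^ (1 / 2 : ℝ) / 2 := by gcongr
            _ = δ / 2 * (L ^ (1 / 2 : ℝ) * L ^ (1 / 2 : ℝ)) := by ring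
            _ = δ / 2 * L := by rw [e2]
  -- second term
  have h5 : (M : ℝ) ^ (1 / 3 : ℝ) ≤ δ / 2 * (M / L ^ 2) := by
    have e1 : (M : ℝ) ^ (1 / 3 : ℝ) ≤ (N : ℝ) ^ (1 / 3 : ℝ) := Real.rpow_le_rpow hM0.le hMle (by norm_num)
    have e2 : 2 / δ * L ^ 2 ≤ (N : ℝ) ^ (1 / 16 : ℝ) := by
      refine le_trans ?_ hLp
      calc 2 / δ * L ^ 2 ≤ L * L ^ 2 := by
            apply mul_le_mul_of_nonneg_right _ (by positivity)
            linarith
        _ = L ^ 3 := by ring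
        _ ≤ L ^ (A + 4) := pow_le_pow_right₀ hL1 (by omega)
    have e3 : (N : ℝ) ^ (1 / 3 : ℝ) * (2 / δ * L ^ 2) ≤ M := by
      refine le_trans ?_ hM1
      calc (N : ℝ) ^ (1 / 3 : ℝ) * (2 / δ * L ^ 2) ≤ (N : ℝ) ^ (1 / 3 : ℝ) * (N : ℝ) ^ (1 / 16 : ℝ) := by gcongr
        _ = (N : ℝ) ^ (1 / 3 + 1 / 16 : ℝ) := by rw [← Real.rpow_add hN0]
        _ ≤ (N : ℝ) ^ (15 / 16 : ℝ) := Real.rpow_le_rpow_of_exponent_le hN1 (by norm_num)
    refine e1.trans ?_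
    have e4 : δ / 2 * (M / L ^ 2) = M / (2 / δ * L ^ 2) := by field_simp
    rw [e4, le_div_iff₀ (by positivity)]
    exact e3
  calc _ ≤ δ / 2 * (M / L ^ 2) + δ / 2 * (M / L ^ 2) := add_le_add h4 h5
    _ = _ := by ring

/-- Every window `(u, v] ⊆ (0, N]` of length at least `N / (log N) ^ A` contains between `lo` times and `hi` times
`𝔖(h) (v - u) / (log N)²` primes `p` such that `2 p + h` is a prime and `4 p + 3 h` is not. -/
def GoodE (A : ℕ) (lo hi : ℝ) (N h : ℕ) : Prop :=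
  ∀ u v : ℕ, v ≤ N → (N : ℝ) / Real.log N ^ A ≤ (v : ℝ) - u →
    lo * (sing h * ((v : ℝ) - u) / Real.log N ^ 2) ≤ (cntE h u v : ℝ) ∧
    (cntE h u v : ℝ) ≤ hi * (sing h * ((v : ℝ) - u) / Real.log N ^ 2)

lemma sing_two (n : ℕ) (hn : n ≠ 0) : sing (2 * n) = sing n := by
  unfold sing
  have h4 : (2 * n).primeFactors.filter (fun p => 2 < p) = n.primeFactors.filter (fun p => 2 < p) := by
    ext p
    rw [mem_filter, mem_filter, Nat.mem_primeFactors, Nat.mem_primeFactors]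
    constructor
    · rintro ⟨⟨h1, h2, -⟩, h3⟩
      refine ⟨⟨h1, ?_, hn⟩, h3⟩
      rcases (Nat.Prime.dvd_mul h1).1 h2 with h | h
      · exfalso
        have := Nat.le_of_dvd (by norm_num) h
        omega
      · exact h
    · rintro ⟨⟨h1, h2, -⟩, h3⟩
      exact ⟨⟨h1, h2.mul_left 2, by omega⟩, h3⟩
  rw [h4]

lemma goodE_of_good (ε : ℝ) (hε : 0 < ε) (A : ℕ) : ∃ N₀ : ℕ, ∀ N : ℕ, N₀ ≤ N → ∀ h : ℕ, 0 < h → h ≤ N →
    ∀ lo hi : ℝ, Good 2 A (lo + ε) hi N h → GoodE A lo hi N h := by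
  obtain ⟨N₀, h1⟩ := trip_few ε hε A
  refine ⟨N₀ + 3, fun N hN h h0 hhN lo hi hg u v hv huv => ?_⟩
  have h2 := h1 N (by omega) h h0 hhN u v hv huv
  obtain ⟨k1, k2⟩ := hg u v (Nat.cast_nonneg u) (by exact_mod_cast hv) huv
  rw [sing_two h h0.ne', pairs_eq 2 h u v (Nat.cast_nonneg u) (Nat.cast_nonneg v), Nat.floor_natCast,
    Nat.floor_natCast, ← cntE_add] at k1 k2
  push_cast at k1 k2
  have hT : (0 : ℝ) ≤ cntT h u v := Nat.cast_nonneg _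
  have hL : 0 < Real.log N := Real.log_pos (by exact_mod_cast (by omega : 1 < N))
  have hN0 : (0 : ℝ) < N := by exact_mod_cast (by omega : 0 < N)
  have hpos : (0 : ℝ) < (v : ℝ) - u := lt_of_lt_of_le (by positivity) huv
  refine ⟨?_, by linarith⟩
  have hS := one_le_sing h
  have h3 : ((v : ℝ) - u) / Real.log N ^ 2 ≤ sing h * ((v : ℝ) - u) / Real.log N ^ 2 := by
    apply div_le_div_of_nonneg_right _ (by positivity)
    nlinarith
  have h4 : ε * (((v : ℝ) - u) / Real.log N ^ 2) ≤ ε * (sing h * ((v : ℝ) - u) / Real.log N ^ 2) := by gcongr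
  nlinarith

open Classical in
/-- the odd `h ≤ N` with `h ≡ a (mod q)` which are not good -/
noncomputable def badE (A : ℕ) (lo hi : ℝ) (N q : ℕ) (a : ℤ) : Finset ℕ :=
  (Icc 1 N).filter (fun h : ℕ => Odd h ∧ (h : ℤ) ≡ a [ZMOD q] ∧ ¬ GoodE A lo hi N h)

/-- the chains of exact length two: all but few of the `h` in a residue class -/
theorem ex2_all (ε : ℝ) (hε : 0 < ε) {θ : ℝ}
    (hθ0 : 2 / 3 ≤ θ) (hθ1 : θ ≤ 5 / 6) (ρ : ℝ) (hρ : 0 < ρ) (A T : ℕ) :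
    ∃ N₀ : ℕ, ∀ N : ℕ, N₀ ≤ N → ∀ q₁ q₂ : ℕ, 1 ≤ q₁ → (q₁ : ℝ) ≤ Real.log N ^ T → Odd q₂ →
      ((q₁ * q₂ : ℕ) : ℝ) ≤ (N : ℝ) ^ (θ - ρ) → ∀ a : ℤ, (Int.gcd a (q₁ * q₂ : ℕ) : ℝ) ≤ Real.log N ^ T →
        ((badE A (1 - FU (θ / (2 - 2 * θ)) ^ 2 - ε) (1 + FU (θ / (2 - 2 * θ)) + ε) N (q₁ * q₂) a).card : ℝ) ≤
          N / ((q₁ * q₂ : ℕ) * Real.log N ^ A) := by
  classical
  obtain ⟨G, hG⟩ : ∃ G, G = FU (θ / (2 - 2 * θ)) := ⟨_, rfl⟩
  obtain ⟨x₀, h1⟩ := gd_all (m := 2) (by norm_num) (ε / 2) (by positivity) hθ0 hθ1 ρ hρ A T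
  rw [← hG] at h1 ⊢
  obtain ⟨N₁, hN₁⟩ := exists_nat_ge x₀
  obtain ⟨N₂, h2⟩ := goodE_of_good (ε / 2) (by positivity) A
  refine ⟨N₁ + N₂ + 3, fun N hN q₁ q₂ hq₁ hq₁T hq₂ hqN a ha => ?_⟩
  have hq₂0 : 0 < q₂ := hq₂.pos
  have hNN : x₀ ≤ N := hN₁.trans (by exact_mod_cast (by omega : N₁ ≤ N))
  obtain ⟨g1, g2⟩ := h1 N hNN q₁ q₂ (Nat.mul_pos hq₁ hq₂0) hq₁T (Nat.coprime_two_right.2 hq₂) hqN a ha
  refine le_trans ?_ g2
  have hL : 0 < Real.log N := Real.log_pos (by exact_mod_cast (by omega : 1 < N))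
  have hN0 : (0 : ℝ) < N := by exact_mod_cast (by omega : 0 < N)
  have hsub : ((badE A (1 - G ^ 2 - ε) (1 + G + ε) N (q₁ * q₂) a : Finset ℕ) : Set ℕ) ⊆
      exceptional 2 A (1 - G ^ 2 - ε / 2) (1 + G + ε / 2) N (q₁ * q₂) a := by
    intro h hh
    rw [mem_coe] at hh
    unfold badE at hh
    rw [mem_filter, mem_Icc] at hh
    obtain ⟨⟨b1, b2⟩, b3, b4, b5⟩ := hh
    refine ⟨b1, by exact_mod_cast b2, Dvd.intro _ rfl, Nat.coprime_two_right.2 b3, b4, fun hgood => b5 ?_⟩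
    have h3 : Good 2 A (1 - G ^ 2 - ε + ε / 2) (1 + G + ε / 2) N h := by
      have e : 1 - G ^ 2 - ε + ε / 2 = 1 - G ^ 2 - ε / 2 := by ring
      rw [e]
      exact hgood
    have h4 := h2 N (by omega) h b1 b2 _ _ h3
    intro u v hv huv
    obtain ⟨k1, k2⟩ := h4 u v hv huv
    refine ⟨k1, k2.trans ?_⟩
    have hpos : (0 : ℝ) < (v : ℝ) - u := lt_of_lt_of_le (by positivity) huv
    have hS := one_le_sing h
    apply mul_le_mul_of_nonneg_right (by linarith)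
    positivity
  have h3 := Set.ncard_le_ncard hsub g1
  rw [Set.ncard_coe_finset] at h3
  exact_mod_cast h3

/-- every residue class contains a small `h` with a small chain of exact length two -/
theorem ex2_least (ε : ℝ) (hε : 0 < ε) (T : ℕ) : ∃ q₀ : ℕ, ∀ q : ℕ, q₀ ≤ q → Odd q →
    ∀ a : ℤ, (Int.gcd a q : ℝ) ≤ Real.log q ^ T →
      ∃ h p : ℕ, Odd h ∧ (h : ℤ) ≡ a [ZMOD q] ∧ p.Prime ∧ (2 * p + h).Prime ∧ ¬ (4 * p + 3 * h).Prime ∧
        1 < p ∧ ((4 * p + 3 * h : ℕ) : ℝ) ≤ (q : ℝ) ^ (6 / 5 + ε) := by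
  classical
  obtain ⟨e, he⟩ : ∃ e, e = min ε 1 := ⟨_, rfl⟩
  have he0 : 0 < e := by rw [he]; exact lt_min hε one_pos
  have he1 : e ≤ 1 := by rw [he]; exact min_le_right _ _
  have he2 : e ≤ ε := by rw [he]; exact min_le_left _ _
  obtain ⟨N₀, h1⟩ := ex2_all (1 / 100) (by norm_num) (θ := 5 / 6) (by norm_num) le_rfl (e / 6) (by positivity) 1 T
  obtain ⟨Q₁, h2⟩ := Filter.eventually_atTop.1 (Pool.Agent.Y614.GJ.Core.ev_log 1 (s := e / 8) (by positivity)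
    (640 + N₀))
  refine ⟨Q₁ + 3, fun q hq hodd a ha => ?_⟩
  obtain ⟨hL, hLp⟩ := h2 q (by omega)
  rw [pow_one] at hLp
  have hN00 : (0 : ℝ) ≤ N₀ := Nat.cast_nonneg _
  have hq1 : 1 ≤ q := by omega
  have hqr : (1 : ℝ) ≤ q := by exact_mod_cast hq1
  have hq0 : (0 : ℝ) < q := by linarith
  obtain ⟨x, hx⟩ : ∃ x : ℝ, x = (q : ℝ) ^ (6 / 5 + e) / 7 := ⟨_, rfl⟩
  obtain ⟨N, hNd⟩ : ∃ N : ℕ, N = ⌊x⌋₊ := ⟨_, rfl⟩
  have hqe : 640 ≤ (q : ℝ) ^ (e / 8) := by linarith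
  have hx1 : (q : ℝ) ^ (6 / 5 + e / 2) ≤ x / 2 := by
    rw [hx, div_div, le_div_iff₀ (by positivity)]
    have e1 : (7 * 2 : ℝ) ≤ (q : ℝ) ^ (e / 2) := by
      calc (7 * 2 : ℝ) ≤ (q : ℝ) ^ (e / 8) := by linarith
        _ ≤ (q : ℝ) ^ (e / 2) := Real.rpow_le_rpow_of_exponent_le hqr (by linarith)
    calc (q : ℝ) ^ (6 / 5 + e / 2) * (7 * 2) ≤ (q : ℝ) ^ (6 / 5 + e / 2) * (q : ℝ) ^ (e / 2) := by gcongr
      _ = (q : ℝ) ^ (6 / 5 + e) := by rw [← Real.rpow_add hq0]; congr 1; ring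
  have hx2 : 2 ≤ x := by
    have : (1 : ℝ) ≤ (q : ℝ) ^ (6 / 5 + e / 2) := Real.one_le_rpow hqr (by positivity)
    linarith
  have hNx : (N : ℝ) ≤ x := by rw [hNd]; exact Nat.floor_le (by linarith)
  have hNx' : x / 2 ≤ N := by
    rw [hNd]
    have := Nat.lt_floor_add_one x
    linarith
  have hx1' : (q : ℝ) ^ (6 / 5 + e / 2) ≤ N := hx1.trans hNx'
  have hqx1 : 64 * (q : ℝ) ≤ N := by
    refine le_trans ?_ hx1'
    calc 64 * (q : ℝ) ≤ (q : ℝ) ^ (e / 8) * q := mul_le_mul_of_nonneg_right (by linarith) hq0.le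
      _ = (q : ℝ) ^ (e / 8 + 1) := by rw [Real.rpow_add hq0, Real.rpow_one]
      _ ≤ (q : ℝ) ^ (6 / 5 + e / 2) := Real.rpow_le_rpow_of_exponent_le hqr (by linarith)
  have hqx0 : (q : ℝ) ≤ N := by linarith
  have hLq : Real.log q ≤ q := (Real.log_le_sub_one_of_pos hq0).trans (by linarith)
  have hN0 : (0 : ℝ) < N := by linarith
  have hlogx : Real.log q ≤ Real.log N := Real.log_le_log hq0 hqx0
  have hqx2 : (q : ℝ) ≤ (N : ℝ) ^ (5 / 6 - e / 6) := by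
    calc (q : ℝ) = (q : ℝ) ^ (1 : ℝ) := (Real.rpow_one _).symm
      _ ≤ (q : ℝ) ^ ((6 / 5 + e / 2) * (5 / 6 - e / 6)) := by
          apply Real.rpow_le_rpow_of_exponent_le hqr
          nlinarith
      _ = ((q : ℝ) ^ (6 / 5 + e / 2)) ^ (5 / 6 - e / 6) := by rw [← Real.rpow_mul hq0.le]
      _ ≤ (N : ℝ) ^ (5 / 6 - e / 6) := Real.rpow_le_rpow (by positivity) hx1' (by linarith)
  have hlx : 640 ≤ Real.log N := by linarith
  have hgcd : (Int.gcd a q : ℝ) ≤ Real.log N ^ T := ha.trans (pow_le_pow_left₀ (by linarith) hlogx T)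
  have h3 := h1 N (by
    have : (N₀ : ℝ) ≤ N := by linarith
    exact_mod_cast this) 1 q le_rfl (by
    rw [Nat.cast_one]
    exact one_le_pow₀ (by linarith)) hodd (by rw [one_mul]; exact hqx2) a (by rw [one_mul]; exact hgcd)
  rw [one_mul] at h3
  -- the class
  obtain ⟨b, hb1, hb2⟩ := crt q 2 (Nat.coprime_two_right.2 hodd) a 1
  obtain ⟨h, k1, k2, k3, k4⟩ := exists_good (x := (N : ℝ)) (q := q) (M := 2) (b := b) (by norm_num)
    (by push_cast; linarith) _ (Finset.finite_toSet _) (by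
      rw [Set.ncard_coe_finset]
      refine h3.trans ?_
      apply div_le_div_of_nonneg_left hN0.le (by positivity)
      rw [pow_one]
      apply mul_le_mul_of_nonneg_left _ hq0.le
      push_cast
      linarith) hq1 (by push_cast; linarith)
  have k2' : h ≤ N := by exact_mod_cast k2
  have k5 : (h : ℤ) ≡ a [ZMOD q] := by
    refine Int.ModEq.trans ?_ hb1
    apply Int.ModEq.of_dvd _ k3
    exact_mod_cast Nat.dvd_mul_right q 2
  have k6 : Odd h := by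
    have h4 : (h : ℤ) ≡ b [ZMOD ((2 : ℕ) : ℤ)] := by
      apply Int.ModEq.of_dvd _ k3
      exact_mod_cast Nat.dvd_mul_left 2 q
    have h5 := h4.trans hb2
    have h6 : (h : ℤ) % 2 = 1 := h5
    rw [Nat.odd_iff]
    omega
  obtain ⟨f0, f1⟩ := FU_bd (θ := 5 / 6) (by norm_num) le_rfl
  obtain ⟨F, hF⟩ : ∃ F, F = FU (5 / 6 / (2 - 2 * (5 / 6))) := ⟨_, rfl⟩
  rw [← hF] at k4 f0 f1
  have hgood : GoodE 1 (1 - F ^ 2 - 1 / 100) (1 + F + 1 / 100) N h := by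
    by_contra hcon
    apply k4
    rw [mem_coe]
    unfold badE
    rw [mem_filter, mem_Icc]
    exact ⟨⟨k1, k2'⟩, k6, k5, hcon⟩
  have hlog0 : 0 < Real.log N := by linarith
  obtain ⟨m1, -⟩ := hgood 0 N le_rfl (by
    rw [Nat.cast_zero, sub_zero, pow_one]
    exact div_le_self hN0.le (by linarith))
  have hpos : 0 < (cntE h 0 N : ℝ) := by
    refine lt_of_lt_of_le ?_ m1
    have hS := one_le_sing h
    have hF2 : F ^ 2 ≤ (965 / 1000) ^ 2 := pow_le_pow_left₀ f0 f1 2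
    norm_num at hF2
    rw [Nat.cast_zero, sub_zero]
    apply mul_pos (by linarith)
    positivity
  have hpos' : 0 < cntE h 0 N := by exact_mod_cast hpos
  unfold cntE at hpos'
  obtain ⟨p, hp⟩ := card_pos.1 hpos'
  rw [mem_filter, mem_Ioc] at hp
  obtain ⟨⟨hp0, hp1⟩, hp2, hp3, hp4⟩ := hp
  refine ⟨h, p, k6, k5, hp2, hp3, hp4, hp2.one_lt, ?_⟩
  have hpN : (p : ℝ) ≤ N := by exact_mod_cast hp1
  push_cast
  calc 4 * (p : ℝ) + 3 * h ≤ 7 * x := by linarith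
    _ = (q : ℝ) ^ (6 / 5 + e) := by rw [hx]; field_simp
    _ ≤ (q : ℝ) ^ (6 / 5 + ε) := Real.rpow_le_rpow_of_exponent_le hqr (by linarith)

end Pool.Agent.T2h83.GD
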