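import Pool.Agent.T2h83.GD.WinB

set_option autoImplicit false

/-! The correlations of the von Mangoldt function and the sieve model for the pair of forms `b`, `m b + n`. -/

namespace Pool.Agent.T2h83.GD

open Finset
open Pool.Agent.H373R2.T7
open Pool.Agent.H560R3.GB (sing)
open Pool.Agent.W93.GB
open Pool.Agent.W93.PP (MT MT_sing MT_one MT_le Cnt PS mem_PS ap_main)
open Pool.Agent.W93.PG (lamz_nn)
open Pool.Agent.R460.GP (win_gen)
open Pool.Agent.T2h83.AM (nuL FpL sgL main_L root_card)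

theorem win_all (m : ℕ) (hm : 1 ≤ m) : WinStm m := by
  classical
  intro V
  refine ⟨V + 7, fun E1 hE1 => ?_⟩
  obtain ⟨N1, h1⟩ := main_L (k := 1) (fun _ => m) (fun _ => hm) (E1 + 2) (V + 4)
  obtain ⟨N2, h2⟩ := ap_main (E1 + 2) (V + 1 + 4)
  obtain ⟨N3, h3⟩ := sys_count 2 (E1 + 2) (V + 7) (by norm_num)
  obtain ⟨X1, g1⟩ := win_gen V E1 (N1 + 3)
  obtain ⟨X2, g2⟩ := win_gen (V + 1) E1 (N2 + 3)
  obtain ⟨X3, g3⟩ := win_gen V E1 (N3 + 3)
  obtain ⟨X4, g4⟩ := sing_modelM m hm (V + 1) E1 (by omega)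
  obtain ⟨X5, g5⟩ := ev_L' (1000 + 4 * m)
  refine ⟨X1 + X2 + X3 + X4 + X5 + 4, fun X hX n hnX h2m hcop hn0 z hz1 hz2 => ?_⟩
  obtain ⟨s1, s2, s3, s5, s6⟩ := g4 X (by omega) n hnX h2m hn0 z hz1 hz2
  have hL := g5 X (by omega)
  have hX4 : 4 ≤ X := by omega
  have hm1 : (1 : ℝ) ≤ m := by exact_mod_cast hm
  have hm0 : (0 : ℝ) < m := by linarith
  have hL1000 : 1000 ≤ Real.log X := by linarith
  have hmL : 4 * (m : ℝ) ≤ Real.log X := by linarith
  have hL0 : 0 < Real.log X := by linarith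
  have hL1 : 1 ≤ Real.log X := by linarith
  have hX0 : (0 : ℝ) < X := by exact_mod_cast (by omega : 0 < X)
  have hε0 : 0 < (X : ℝ) / Real.log X ^ (V + 2) := by positivity
  have hmz : m ≤ z := by
    have : (m : ℝ) ≤ z := by
      refine le_trans ?_ hz1
      calc (m : ℝ) ≤ Real.log X ^ 1 := by rw [pow_one]; linarith
        _ ≤ Real.log X ^ E1 := pow_le_pow_right₀ hL1 (by omega)
    exact_mod_cast this
  have s1' : |MT z 1 (m * n) - sing (m * n)| ≤ 1 / Real.log X ^ (V + 2) := by
    refine s1.trans ?_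
    apply one_div_le_one_div_of_le (by positivity)
    exact pow_le_pow_right₀ hL1 (by omega)
  have hVi : 0 < (Vz z)⁻¹ := inv_pos.2 (Vz_pos z)
  have hla : ∀ k : ℕ, k ≤ X → |ArithmeticFunction.vonMangoldt k| ≤ Real.log X := by
    intro k hk
    rw [abs_of_nonneg ArithmeticFunction.vonMangoldt_nonneg]
    exact vM_le k X (by omega) (by omega)
  have hlz : ∀ k : ℕ, |lamz z k| ≤ Real.log X := by
    intro k
    rw [abs_of_nonneg (lamz_nn _ _)]
    exact (Pool.Agent.W93.PG.lamz_le _ _).trans s5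
  have hbd : ∀ (y : ℕ) (u : ℕ → ℝ), (∀ k ∈ Icc 1 y, |u k| ≤ Real.log X * Real.log X) →
      |∑ k ∈ Icc 1 y, u k| ≤ y * (Real.log X * Real.log X) := by
    intro y u hu
    refine (abs_sum_le_sum_abs _ _).trans ((sum_le_sum hu).trans (le_of_eq ?_))
    rw [sum_const, Nat.card_Icc, nsmul_eq_mul, Nat.add_sub_cancel]
  refine ⟨fun y hy => ⟨?_, ?_, ?_⟩, s2, s3⟩
  · -- primes, shifted model
    have hyX : y ≤ X := le2 hm hy
    obtain ⟨f, hf⟩ : ∃ f : ℕ → ℝ, f = fun y => ∑ b ∈ Icc 1 y, ArithmeticFunction.vonMangoldt b * lamz z (m * b + n) :=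
      ⟨_, rfl⟩
    have hf' : ∀ y, f y = ∑ b ∈ Icc 1 y, ArithmeticFunction.vonMangoldt b * lamz z (m * b + n) := by
      intro y; rw [hf]
    have k := g1 X (by omega) z hz2 f (MT z 1 (m * n)) (sing (m * n)) ?_ s1' s2 s3 ?_ y hyX
    · rw [hf'] at k
      have e : ∑ b ∈ Icc 1 y, Pool.Agent.R460.GS.la b * lamz z (m * b + n) =
          ∑ b ∈ Icc 1 y, ArithmeticFunction.vonMangoldt b * lamz z (m * b + n) := rfl
      rw [e]
      linarith
    · intro y hy0 hyX hlog hzy
      have k1 := h1 y (by omega) z s6 hzy (fun _ => n)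
      rw [sgL_MT hcop] at k1
      rw [hf']
      simpa using k1
    · intro y hyX
      rw [hf']
      apply hbd
      intro k hk
      rw [mem_Icc] at hk
      rw [abs_mul]
      exact mul_le_mul (hla k (by omega)) (hlz _) (abs_nonneg _) hL0.le
  · -- model, shifted primes
    obtain ⟨h, hmh, hh⟩ := exists_shift m n z hm
    obtain ⟨f, hf⟩ : ∃ f : ℕ → ℕ → ℝ, f = fun b₀ Y => ∑ u ∈ Icc 1 Y,
      (if u ≡ m * b₀ + n [MOD m ^ 2] then ArithmeticFunction.vonMangoldt u else 0) * lamzI z ((u : ℤ) + (h : ℤ)) :=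
      ⟨_, rfl⟩
    obtain ⟨φ, hφ⟩ : ∃ φ : ℝ, φ = (Nat.totient m : ℝ) := ⟨_, rfl⟩
    have hφ1 : 1 ≤ φ := by
      rw [hφ]
      exact_mod_cast Nat.totient_pos.2 (by omega)
    have hφm : φ ≤ m := by
      rw [hφ]
      exact_mod_cast Nat.totient_le m
    have hφ0 : 0 < φ := by linarith
    have hmφ : 1 ≤ (m : ℝ) * φ := by nlinarith
    have hcls : ∀ b₀ ∈ (range m).filter (fun b₀ => Nat.Coprime b₀ m), ∀ Y : ℕ, Y ≤ X →
        |f b₀ Y - sing (m * n) / (m * φ) * Y| ≤ 2 * (X / Real.log X ^ (V + 3)) := by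
      intro b₀ hb₀ Y hY
      rw [mem_filter, mem_range] at hb₀
      refine g2 X (by omega) z hz2 (f b₀) (MT z 1 (m * n) / (m * φ)) (sing (m * n) / (m * φ)) ?_ ?_ ?_ ?_ ?_ Y hY
      · intro y hy0 hyX hlog hzy
        have hly : 2 * (m : ℝ) ≤ Real.log y := by linarith
        have hly1 : 1 ≤ Real.log y := by linarith
        have hq : ((m ^ 2 : ℕ) : ℝ) ≤ Real.log y ^ (E1 + 2) := by
          push_cast
          calc (m : ℝ) ^ 2 ≤ Real.log y ^ 2 := pow_le_pow_left₀ hm0.le (by linarith) 2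
            _ ≤ Real.log y ^ (E1 + 2) := pow_le_pow_right₀ hly1 (by omega)
        have hc1 : Nat.Coprime (m * b₀ + n) (m ^ 2) := by
          apply Nat.Coprime.pow_right
          have : Nat.Coprime (m * b₀ + n) m := by
            rw [add_comm]
            exact (Nat.coprime_add_mul_left_left n m b₀).2 hcop
          exact this
        have hc2 : Nat.Coprime (m * b₀ + n + h) (m ^ 2) := by
          apply Nat.Coprime.pow_right
          obtain ⟨h', rfl⟩ := hmh
          have e : m * b₀ + n + m * h' = n + m * (b₀ + h') := by ring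
          rw [e]
          exact (Nat.coprime_add_mul_left_left n m (b₀ + h')).2 hcop
        have k1 := h2 y (by omega) z s6 hzy (m ^ 2) (m * b₀ + n) h (Nat.pos_of_ne_zero (by positivity)) hq hc1 hc2
        rw [MT_shift hm hmh hh, ← hφ] at k1
        rw [hf]
        exact k1
      · rw [← sub_div, abs_div, abs_of_pos (by positivity : (0 : ℝ) < m * φ)]
        refine (div_le_self (abs_nonneg _) hmφ).trans ?_
        exact s1
      · exact div_nonneg s2 (by positivity)
      · exact (div_le_self s2 hmφ).trans s3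
      · intro y hyX
        rw [hf]
        simp only
        apply hbd
        intro k hk
        rw [mem_Icc] at hk
        rw [abs_mul]
        apply mul_le_mul _ _ (abs_nonneg _) hL0.le
        · split_ifs
          · exact hla k (by omega)
          · rw [abs_zero]; exact hL0.le
        · unfold lamzI
          split_ifs
          · exact hlz _
          · rw [abs_zero]; exact hL0.le
    have hsum := split_shift (y := y) hm hn0 hcop hmz hmh hh
    have e0 : ∑ b ∈ Icc 1 y, lamz z b * Pool.Agent.R460.GS.la (m * b + n) =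
        ∑ b₀ ∈ (range m).filter (fun b₀ => Nat.Coprime b₀ m), (f b₀ (m * y + n) - f b₀ n) := by
      rw [hf]
      exact hsum
    have hcard : (((range m).filter (fun b₀ => Nat.Coprime b₀ m)).card : ℝ) = φ := by
      rw [hφ]
      congr 1
      rw [Nat.totient_eq_card_coprime]
      congr 1
      apply filter_congr
      intro b _
      exact Nat.coprime_comm
    have e1 : sing (m * n) * y = ∑ _b₀ ∈ (range m).filter (fun b₀ => Nat.Coprime b₀ m),
        (sing (m * n) / (m * φ) * ((m * y + n : ℕ) : ℝ) - sing (m * n) / (m * φ) * n) := by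
      rw [sum_const, nsmul_eq_mul, hcard]
      push_cast
      field_simp
      ring
    rw [e0, e1, ← sum_sub_distrib]
    refine (abs_sum_le_sum_abs _ _).trans ?_
    have hterm : ∀ b₀ ∈ (range m).filter (fun b₀ => Nat.Coprime b₀ m),
        |f b₀ (m * y + n) - f b₀ n - (sing (m * n) / (m * φ) * ((m * y + n : ℕ) : ℝ) - sing (m * n) / (m * φ) * n)| ≤
          4 * (X / Real.log X ^ (V + 3)) := by
      intro b₀ hb₀
      have k1 := hcls b₀ hb₀ (m * y + n) hy
      have k2 := hcls b₀ hb₀ n hnX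
      have e2 : f b₀ (m * y + n) - f b₀ n - (sing (m * n) / (m * φ) * ((m * y + n : ℕ) : ℝ) -
          sing (m * n) / (m * φ) * n) = (f b₀ (m * y + n) - sing (m * n) / (m * φ) * ((m * y + n : ℕ) : ℝ)) -
          (f b₀ n - sing (m * n) / (m * φ) * n) := by ring
      rw [e2]
      have := abs_sub (f b₀ (m * y + n) - sing (m * n) / (m * φ) * ((m * y + n : ℕ) : ℝ))
        (f b₀ n - sing (m * n) / (m * φ) * n)
      linarith
    refine (sum_le_sum hterm).trans ?_
    rw [sum_const, nsmul_eq_mul, hcard]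
    calc φ * (4 * (X / Real.log X ^ (V + 3))) ≤ Real.log X * (4 * (X / Real.log X ^ (V + 3))) := by
          apply mul_le_mul_of_nonneg_right _ (by positivity)
          linarith
      _ = 4 * (X / Real.log X ^ (V + 2)) := by
          rw [show V + 3 = V + 2 + 1 by ring, pow_succ]
          field_simp
  · -- model, shifted model
    have hyX : y ≤ X := le2 hm hy
    obtain ⟨f, hf⟩ : ∃ f : ℕ → ℝ, f = fun y => ∑ b ∈ Icc 1 y, lamz z b * lamz z (m * b + n) := ⟨_, rfl⟩
    have k := g3 X (by omega) z hz2 f (MT z 1 (m * n)) (sing (m * n)) ?_ s1' s2 s3 ?_ y hyX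
    · rw [hf] at k
      simp only at k
      linarith
    · intro y hy0 hyX hlog hzy
      have k1 := h3 y (by omega) z s6 hzy (QB m n) (QB_perB hcop)
      rw [QB_prod hcop] at k1
      rw [hf]
      simp only
      rw [lam2_sumM]
      obtain ⟨c, hc⟩ : ∃ c : ℝ, c = (((Icc 1 y).filter (fun b : ℕ => ∀ p ∈ pz z, ¬ QB m n p b)).card : ℝ) := ⟨_, rfl⟩
      have k1' : |c - y * (Vz z * ∏ p ∈ PS z 1 (m * n), (1 - 1 / ((p : ℝ) - 1)))| ≤ y / Real.log y ^ (V + 7) := by
        rw [hc]
        convert k1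
      rw [← hc]
      have hMe : MT z 1 (m * n) = (Vz z)⁻¹ * ∏ p ∈ PS z 1 (m * n), (1 - 1 / ((p : ℝ) - 1)) := by
        unfold MT
        rw [Nat.totient_one, Nat.cast_one, div_one]
      have hVp := Vz_pos z
      have e2 : (Vz z)⁻¹ ^ 2 * c - MT z 1 (m * n) * y =
          (Vz z)⁻¹ ^ 2 * (c - y * (Vz z * ∏ p ∈ PS z 1 (m * n), (1 - 1 / ((p : ℝ) - 1)))) := by
        rw [hMe]
        field_simp
      rw [e2, abs_mul, abs_of_nonneg (sq_nonneg _)]
      have hly : 500 ≤ Real.log y := by linarith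
      have hly0 : 0 < Real.log y := by linarith
      calc (Vz z)⁻¹ ^ 2 * |c - y * (Vz z * ∏ p ∈ PS z 1 (m * n), (1 - 1 / ((p : ℝ) - 1)))|
          ≤ (2 * Real.log y) ^ 2 * (y / Real.log y ^ (V + 7)) := by
            have := s5.trans hlog
            gcongr
        _ = y / Real.log y ^ (V + 4) * (4 / Real.log y) := by
            rw [show V + 7 = (V + 4) + 3 by ring, pow_add]
            field_simp
            ring
        _ ≤ y / Real.log y ^ (V + 4) * 1 := by
            have : 4 / Real.log y ≤ 1 := by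
              rw [div_le_one hly0]
              linarith
            gcongr
        _ = _ := mul_one _
    · intro y hyX
      rw [hf]
      simp only
      apply hbd
      intro k hk
      rw [mem_Icc] at hk
      rw [abs_mul]
      exact mul_le_mul (hlz _) (hlz _) (abs_nonneg _) hL0.le

end Pool.Agent.T2h83.GD
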