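import Pool.Agent.T2h83.GD.Least
import Pool.Agent.T2h83.GD.Asm6
import Pool.Agent.T2h83.GD.WinC

/-!
Project GD (helper83): the theorem for every multiplier, and the least shifts in residue classes.
-/

set_option autoImplicit false

namespace Pool.Agent.T2h83.GD

open Finset
open Pool.Agent.R460.GS
open Pool.Agent.T2h83.GT
open Pool.Agent.H560R3.GB (sing)

/-- the pairs `p`, `m p + h`: all but few of the `h` in a residue class -/
theorem gd_all {m : ℕ} (hm : 1 ≤ m) (ε : ℝ) (hε : 0 < ε) {θ : ℝ}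
    (hθ0 : 2 / 3 ≤ θ) (hθ1 : θ ≤ 5 / 6) (ρ : ℝ) (hρ : 0 < ρ) (A T : ℕ) :
    ∃ x₀ : ℝ, ∀ x : ℝ, x₀ ≤ x → ∀ q₁ q₂ : ℕ, 1 ≤ q₁ * q₂ → (q₁ : ℝ) ≤ Real.log x ^ T → Nat.Coprime q₂ m →
      ((q₁ * q₂ : ℕ) : ℝ) ≤ x ^ (θ - ρ) → ∀ a : ℤ, (Int.gcd a (q₁ * q₂ : ℕ) : ℝ) ≤ Real.log x ^ T →
        (exceptional m A (1 - FU (θ / (2 - 2 * θ)) ^ 2 - ε) (1 + FU (θ / (2 - 2 * θ)) + ε) x (q₁ * q₂) a).Finite ∧
        ((exceptional m A (1 - FU (θ / (2 - 2 * θ)) ^ 2 - ε) (1 + FU (θ / (2 - 2 * θ)) + ε) x (q₁ * q₂) a).ncard : ℝ) ≤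
          x / ((q₁ * q₂ : ℕ) * Real.log x ^ A) :=
  gdm_real hm (win_all m hm) ε hε hθ0 hθ1 ρ hρ A T

/-- every residue class contains a small shift -/
theorem least_m {m : ℕ} (hm : 1 ≤ m) (ε : ℝ) (hε : 0 < ε) (T : ℕ) : ∃ q₀ : ℕ, ∀ q : ℕ, q₀ ≤ q →
    Nat.Coprime q (2 * m) → ∀ a : ℤ, (Int.gcd a q : ℝ) ≤ Real.log q ^ T →
      ∃ h p : ℕ, 0 < h ∧ h ≡ m + 1 [MOD 2 * m] ∧ (h : ℤ) ≡ a [ZMOD q] ∧ p.Prime ∧ (m * p + h).Prime ∧
        ((m * p + h : ℕ) : ℝ) ≤ (q : ℝ) ^ (6 / 5 + ε) := by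
  classical
  obtain ⟨e, he⟩ : ∃ e, e = min ε 1 := ⟨_, rfl⟩
  have he0 : 0 < e := by rw [he]; exact lt_min hε one_pos
  have he1 : e ≤ 1 := by rw [he]; exact min_le_right _ _
  have he2 : e ≤ ε := by rw [he]; exact min_le_left _ _
  have hm0 : (0 : ℝ) < m := by exact_mod_cast hm
  have hm1 : (1 : ℝ) ≤ m := by exact_mod_cast hm
  obtain ⟨x₀, h1⟩ := gd_all hm (1 / 100) (by norm_num) (θ := 5 / 6) (by norm_num) le_rfl (e / 6) (by positivity) 1 T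
  obtain ⟨Q₁, h2⟩ := Filter.eventually_atTop.1 (Pool.Agent.Y614.GJ.Core.ev_log 1 (s := e / 8) (by positivity)
    (64 * (m + 1) + |x₀|))
  refine ⟨Q₁ + 3, fun q hq hqm a ha => ?_⟩
  obtain ⟨hL, hLp⟩ := h2 q (by omega)
  rw [pow_one] at hLp
  have habs := abs_nonneg x₀
  have habs' := le_abs_self x₀
  have hq1 : 1 ≤ q := by omega
  have hqr : (1 : ℝ) ≤ q := by exact_mod_cast hq1
  have hq0 : (0 : ℝ) < q := by linarith
  obtain ⟨x, hx⟩ : ∃ x : ℝ, x = (q : ℝ) ^ (6 / 5 + e) / (m + 1) := ⟨_, rfl⟩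
  have hqe : 64 * ((m : ℝ) + 1) ≤ (q : ℝ) ^ (e / 8) := by linarith
  have hx1 : (q : ℝ) ^ (6 / 5 + e / 2) ≤ x := by
    rw [hx, le_div_iff₀ (by positivity)]
    have e1 : ((m : ℝ) + 1) ≤ (q : ℝ) ^ (e / 2) := by
      calc ((m : ℝ) + 1) ≤ (q : ℝ) ^ (e / 8) := by linarith
        _ ≤ (q : ℝ) ^ (e / 2) := Real.rpow_le_rpow_of_exponent_le hqr (by linarith)
    calc (q : ℝ) ^ (6 / 5 + e / 2) * ((m : ℝ) + 1) ≤ (q : ℝ) ^ (6 / 5 + e / 2) * (q : ℝ) ^ (e / 2) := by gcongr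
      _ = (q : ℝ) ^ (6 / 5 + e) := by rw [← Real.rpow_add hq0]; congr 1; ring
  have hqx1 : 64 * ((m : ℝ) + 1) * (q : ℝ) ≤ x := by
    refine le_trans ?_ hx1
    calc 64 * ((m : ℝ) + 1) * (q : ℝ) ≤ (q : ℝ) ^ (e / 8) * q := mul_le_mul_of_nonneg_right hqe hq0.le
      _ = (q : ℝ) ^ (e / 8 + 1) := by rw [Real.rpow_add hq0, Real.rpow_one]
      _ ≤ (q : ℝ) ^ (6 / 5 + e / 2) := Real.rpow_le_rpow_of_exponent_le hqr (by linarith)
  have hqx0 : (q : ℝ) ≤ x := by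
    refine le_trans ?_ hqx1
    nlinarith
  have hLq : Real.log q ≤ q := (Real.log_le_sub_one_of_pos hq0).trans (by linarith)
  have hx0 : 0 < x := by linarith
  have hlogx : Real.log q ≤ Real.log x := Real.log_le_log hq0 hqx0
  have hqx2 : (q : ℝ) ≤ x ^ (5 / 6 - e / 6) := by
    calc (q : ℝ) = (q : ℝ) ^ (1 : ℝ) := (Real.rpow_one _).symm
      _ ≤ (q : ℝ) ^ ((6 / 5 + e / 2) * (5 / 6 - e / 6)) := by
          apply Real.rpow_le_rpow_of_exponent_le hqr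
          nlinarith
      _ = ((q : ℝ) ^ (6 / 5 + e / 2)) ^ (5 / 6 - e / 6) := by rw [← Real.rpow_mul hq0.le]
      _ ≤ x ^ (5 / 6 - e / 6) := Real.rpow_le_rpow (by positivity) hx1 (by linarith)
  have hlx : 64 * ((m : ℝ) + 1) ≤ Real.log x := by linarith
  have hlx1 : 1 ≤ Real.log x := by nlinarith
  have hgcd : (Int.gcd a q : ℝ) ≤ Real.log x ^ T := ha.trans (pow_le_pow_left₀ (by nlinarith) hlogx T)
  have hqm' : Nat.Coprime q m := Nat.Coprime.coprime_dvd_right (Nat.dvd_mul_left m 2) hqm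
  have h3 := h1 x (by linarith) 1 q (by omega) (by
    rw [Nat.cast_one]
    exact one_le_pow₀ hlx1) hqm' (by rw [one_mul]; exact hqx2) a (by rw [one_mul]; exact hgcd)
  rw [one_mul] at h3
  obtain ⟨g1, g2⟩ := h3
  -- the class
  obtain ⟨b, hb1, hb2⟩ := crt q (2 * m) hqm a (m + 1)
  obtain ⟨h, k1, k2, k3, k4⟩ := exists_good (x := x) (q := q) (M := 2 * m) (b := b) (by omega)
    (by
      push_cast
      nlinarith) _ g1 (by
      refine g2.trans ?_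
      apply div_le_div_of_nonneg_left hx0.le (by positivity)
      rw [pow_one]
      apply mul_le_mul_of_nonneg_left _ hq0.le
      push_cast
      linarith) hq1 (by
      push_cast
      nlinarith)
  have k5 : (h : ℤ) ≡ a [ZMOD q] := by
    refine Int.ModEq.trans ?_ hb1
    apply Int.ModEq.of_dvd _ k3
    exact_mod_cast Nat.dvd_mul_right q (2 * m)
  have k6 : h ≡ m + 1 [MOD 2 * m] := by
    rw [← Int.natCast_modEq_iff]
    push_cast
    have h4 : (h : ℤ) ≡ b [ZMOD ((2 * m : ℕ) : ℤ)] := by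
      apply Int.ModEq.of_dvd _ k3
      exact_mod_cast Nat.dvd_mul_left (2 * m) q
    have h5 := h4.trans hb2
    push_cast at h5
    exact h5
  have k7 : Nat.Coprime h m := by
    have h4 : h ≡ m + 1 [MOD m] := Nat.ModEq.of_dvd (Nat.dvd_mul_left m 2) k6
    have h5 := h4.gcd_eq
    unfold Nat.Coprime
    rw [h5]
    exact (Nat.coprime_add_self_left).2 (Nat.coprime_one_left m) |> fun h => by
      rw [add_comm]
      simpa using h
  have k8 : 2 ∣ m * h := by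
    have h4 : h ≡ m + 1 [MOD 2] := Nat.ModEq.of_dvd (Nat.dvd_mul_right 2 m) k6
    have h5 : m * h ≡ m * (m + 1) [MOD 2] := h4.mul_left m
    have h6 : 2 ∣ m * (m + 1) := (Nat.even_mul_succ_self m).two_dvd
    exact (Nat.modEq_zero_iff_dvd).1 (h5.trans ((Nat.modEq_zero_iff_dvd).2 h6))
  obtain ⟨f0, f1⟩ := FU_bd (θ := 5 / 6) (by norm_num) le_rfl
  obtain ⟨F, hF⟩ : ∃ F, F = FU (5 / 6 / (2 - 2 * (5 / 6))) := ⟨_, rfl⟩
  rw [← hF] at k4 f0 f1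
  have hgood : Good m 1 (1 - F ^ 2 - 1 / 100) (1 + F + 1 / 100) x h := by
    by_contra hcon
    exact k4 ⟨k1, k2, k8, k7, k5, hcon⟩
  have hlog0 : 0 < Real.log x := by linarith
  obtain ⟨m1, -⟩ := hgood 0 x le_rfl le_rfl (by
    rw [sub_zero, pow_one]
    exact div_le_self hx0.le hlx1)
  have hpos : 0 < (pairs m h 0 x : ℝ) := by
    refine lt_of_lt_of_le ?_ m1
    have hS := one_le_sing (m * h)
    have hF2 : F ^ 2 ≤ (965 / 1000) ^ 2 := pow_le_pow_left₀ f0 f1 2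
    norm_num at hF2
    rw [sub_zero]
    apply mul_pos (by linarith)
    positivity
  have hpos' : pairs m h 0 x ≠ 0 := by
    intro h0
    rw [h0] at hpos
    simp at hpos
  obtain ⟨p, hp1, hp2, hp3, hp4⟩ := Set.nonempty_of_ncard_ne_zero hpos'
  refine ⟨h, p, k1, k6, k5, hp1, hp2, ?_⟩
  push_cast
  calc (m : ℝ) * p + h ≤ m * x + x := add_le_add (mul_le_mul_of_nonneg_left hp4 hm0.le) k2
    _ = (q : ℝ) ^ (6 / 5 + e) := by rw [hx]; field_simp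
    _ ≤ (q : ℝ) ^ (6 / 5 + ε) := Real.rpow_le_rpow_of_exponent_le hqr (by linarith)

end Pool.Agent.T2h83.GD
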