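import Pool.Agent.T2h83.GT.Grid
import Pool.Agent.R460.GP.Low

set_option autoImplicit false

/-! Pairs `b`, `m b + n`: the sums over a window, in terms of the error terms. -/

namespace Pool.Agent.T2h83.GD

open Finset
open Pool.Agent.R460.GS
open Pool.Agent.T2h83.GT
open Pool.Agent.H373R2.T7 (lamz Vz pz lamI lamzI Vz_pos)
open Pool.Agent.Y883.T3 (lsh)
open Pool.Agent.Y883.GJ
open Pool.Agent.W93.PG (lamz_le lamz_nn)
open Pool.Agent.H560R3.GB (sing)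
open Pool.Agent.R460.GP (real_sumC)

/-- the weighted number of pairs in a window -/
noncomputable def wm (m n y₁ y₂ : ℕ) : ℝ := ∑ b ∈ Ioc y₁ y₂, la b * la (m * b + n)

/-- the correlation, `G` at the larger variable -/
noncomputable def cf (m n y : ℕ) (F G : ℕ → ℂ) : ℂ := ∑ b ∈ Icc 1 y, F b * (starRingEnd ℂ) (G (m * b + n))

/-- the correlation, `G` at the smaller variable -/
noncomputable def cg (m n y : ℕ) (F G : ℕ → ℂ) : ℂ := ∑ b ∈ Icc 1 y, F (m * b + n) * (starRingEnd ℂ) (G b)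

lemma mem2 {m N n y₁ y₂ b : ℕ} (hm : 1 ≤ m) (h2 : m * y₂ + n ≤ N) (hb : b ∈ Ioc y₁ y₂) :
    b ∈ Icc 1 N ∧ m * b + n ∈ Icc 1 N := by
  rw [mem_Ioc] at hb
  have h3 : m * b ≤ m * y₂ := Nat.mul_le_mul_left m hb.2
  have h4 : 1 * b ≤ m * b := Nat.mul_le_mul_right b hm
  rw [mem_Icc, mem_Icc]
  omega

lemma le2 {m N n y : ℕ} (hm : 1 ≤ m) (h2 : m * y + n ≤ N) : y ≤ N := by
  have h4 : 1 * y ≤ m * y := Nat.mul_le_mul_right y hm
  omega

lemma plain_le (F : ℕ → ℝ) (hF : ∀ b, 0 ≤ F b) {m N n y₁ y₂ : ℕ} (hm : 1 ≤ m) (h2 : m * y₂ + n ≤ N) :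
    ∑ b ∈ Ioc y₁ y₂, F b ≤ ∑ b ∈ Icc 1 N, F b :=
  sum_le_sum_of_subset_of_nonneg (fun _ hb => (mem2 hm h2 hb).1) fun _ _ _ => hF _

lemma shift_m (F : ℕ → ℝ) (hF : ∀ b, 0 ≤ F b) {m N n y₁ y₂ : ℕ} (hm : 1 ≤ m) (h2 : m * y₂ + n ≤ N) :
    ∑ b ∈ Ioc y₁ y₂, F (m * b + n) ≤ ∑ b ∈ Icc 1 N, F b := by
  have e1 : ∑ b ∈ Ioc y₁ y₂, F (m * b + n) = ∑ b ∈ (Ioc y₁ y₂).image (fun b => m * b + n), F b := by
    rw [sum_image]
    intro x _ y _ hxy
    exact Nat.eq_of_mul_eq_mul_left hm (Nat.add_right_cancel hxy)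
  rw [e1]
  refine sum_le_sum_of_subset_of_nonneg (fun b hb => ?_) fun _ _ _ => hF _
  rw [mem_image] at hb
  obtain ⟨c, hc, rfl⟩ := hb
  exact (mem2 hm h2 hc).2

/-- the vector sieve -/
lemma wm_lower {m N n y₁ y₂ : ℕ} {g : ℕ → ℝ} {k X : ℝ} (hm : 1 ≤ m) (h2 : m * y₂ + n ≤ N) (hk : 0 ≤ k)
    (hg : ∀ n ∈ Icc 1 N, 0 ≤ g n ∧ g n ≤ k * Real.log N) (hX : ∑ b ∈ Icc 1 N, bd g b ≤ X) :
    ∑ b ∈ Ioc y₁ y₂, (la b * g (m * b + n) + g b * la (m * b + n) - g b * g (m * b + n)) -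
      4 * k * Real.log N ^ 2 * X ≤ wm m n y₁ y₂ := by
  have h1 : ∑ b ∈ Ioc y₁ y₂, (la b * g (m * b + n) + g b * la (m * b + n) - g b * g (m * b + n) -
      2 * k * Real.log N ^ 2 * (bd g b + bd g (m * b + n))) ≤ wm m n y₁ y₂ := by
    unfold wm
    refine sum_le_sum fun b hb => ?_
    obtain ⟨a1, a2⟩ := mem2 hm h2 hb
    exact pt_lower a1 a2 hk hg
  rw [sum_sub_distrib, ← mul_sum, sum_add_distrib] at h1
  have h3 := plain_le (bd g) (fun b => bd_nn g b) (y₁ := y₁) hm h2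
  have h4 := shift_m (bd g) (fun b => bd_nn g b) (y₁ := y₁) hm h2
  have h5 : 2 * k * Real.log N ^ 2 * (∑ b ∈ Ioc y₁ y₂, bd g b + ∑ b ∈ Ioc y₁ y₂, bd g (m * b + n)) ≤
      2 * k * Real.log N ^ 2 * (X + X) := by
    apply mul_le_mul_of_nonneg_left (by linarith) (by positivity)
  linarith

lemma wm_upper {m N n y₁ y₂ : ℕ} {g : ℕ → ℝ} {X : ℝ} (hm : 1 ≤ m) (h2 : m * y₂ + n ≤ N)
    (hg : ∀ n ∈ Icc 1 N, 0 ≤ g n) (hX : ∑ b ∈ Icc 1 N, bd g b ≤ X) :
    wm m n y₁ y₂ ≤ ∑ b ∈ Ioc y₁ y₂, la b * g (m * b + n) + Real.log N ^ 2 * X := by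
  have h1 : wm m n y₁ y₂ ≤ ∑ b ∈ Ioc y₁ y₂, (la b * g (m * b + n) + Real.log N ^ 2 * bd g (m * b + n)) := by
    unfold wm
    refine sum_le_sum fun b hb => ?_
    obtain ⟨a1, a2⟩ := mem2 hm h2 hb
    exact pt_upper a1 a2 hg
  rw [sum_add_distrib, ← mul_sum] at h1
  have h4 := shift_m (bd g) (fun b => bd_nn g b) (y₁ := y₁) hm h2
  have h5 : Real.log N ^ 2 * (∑ b ∈ Ioc y₁ y₂, bd g (m * b + n)) ≤ Real.log N ^ 2 * X :=
    mul_le_mul_of_nonneg_left (by linarith) (by positivity)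
  linarith

/-- the error terms up to `y` -/
lemma err_windowD (m n y z r : ℕ) (g W : ℕ → ℝ) :
    |∑ b ∈ Icc 1 y, (la b * fT g W z r (m * b + n) + fT g W z r b * la (m * b + n) -
      fT g W z r b * g (m * b + n) - hT W z r b * fT g W z r (m * b + n))| ≤
    ‖cf m n y LA (fC g W z r)‖ + ‖cg m n y LA (fC g W z r)‖ + ‖cg m n y (gC g) (fC g W z r)‖ +
      ‖cf m n y (hC W z r) (fC g W z r)‖ := by
  unfold cf cg
  rw [← real_sumC (Icc 1 y) la (fun b => fT g W z r (m * b + n)) LA (fun b => fC g W z r (m * b + n)) (fun _ => rfl)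
    (fun b => fC_eq _ _ _ _ _)]
  rw [← real_sumC (Icc 1 y) (fun b => la (m * b + n)) (fT g W z r) (fun b => LA (m * b + n)) (fC g W z r)
    (fun _ => rfl) (fun b => fC_eq _ _ _ _ _)]
  rw [← real_sumC (Icc 1 y) (fun b => g (m * b + n)) (fT g W z r) (fun b => gC g (m * b + n)) (fC g W z r)
    (fun _ => rfl) (fun b => fC_eq _ _ _ _ _)]
  rw [← real_sumC (Icc 1 y) (hT W z r) (fun b => fT g W z r (m * b + n)) (hC W z r)
    (fun b => fC g W z r (m * b + n)) (fun _ => rfl) (fun b => fC_eq _ _ _ _ _)]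
  have e : ∑ b ∈ Icc 1 y, (la b * fT g W z r (m * b + n) + fT g W z r b * la (m * b + n) -
      fT g W z r b * g (m * b + n) - hT W z r b * fT g W z r (m * b + n)) =
      ∑ b ∈ Icc 1 y, la b * fT g W z r (m * b + n) + ∑ b ∈ Icc 1 y, la (m * b + n) * fT g W z r b -
      ∑ b ∈ Icc 1 y, g (m * b + n) * fT g W z r b - ∑ b ∈ Icc 1 y, hT W z r b * fT g W z r (m * b + n) := by
    rw [← sum_add_distrib, ← sum_sub_distrib, ← sum_sub_distrib]
    refine sum_congr rfl fun b _ => ?_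
    ring
  rw [e]
  refine (abs_sub _ _).trans (add_le_add ?_ le_rfl)
  refine (abs_sub _ _).trans (add_le_add ?_ le_rfl)
  exact abs_add_le _ _

lemma err_windowD1 (m n y z r : ℕ) (g W : ℕ → ℝ) :
    |∑ b ∈ Icc 1 y, la b * fT g W z r (m * b + n)| ≤ ‖cf m n y LA (fC g W z r)‖ := by
  unfold cf
  rw [← real_sumC (Icc 1 y) la (fun b => fT g W z r (m * b + n)) LA (fun b => fC g W z r (m * b + n)) (fun _ => rfl)
    (fun b => fC_eq _ _ _ _ _)]

/-- from the truncated model to the exact model -/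
lemma swap_modelD {m N n y₁ y₂ z r U : ℕ} {W : ℕ → ℝ} {c X₁ X₂ : ℝ} (hm : 1 ≤ m) (hW : WB W c N)
    (hP : Par U N z r) (h2 : m * y₂ + n ≤ N) (h1 : ∑ n ∈ Icc 1 N, |lamz z n - lsh z r n| ≤ X₁)
    (hX₂ : ∑ n ∈ Icc 1 N, (lsh z r n - lamz z n) ^ 2 ≤ X₂) :
    |∑ b ∈ Ioc y₁ y₂, (la b * hT W z r (m * b + n) + hT W z r b * la (m * b + n) -
        hT W z r b * hT W z r (m * b + n)) -
      ∑ b ∈ Ioc y₁ y₂, (la b * (W (m * b + n) * lamz z (m * b + n)) + (W b * lamz z b) * la (m * b + n) -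
        (W b * lamz z b) * (W (m * b + n) * lamz z (m * b + n)))| ≤
    2 * ((c + c ^ 2) * Real.log N * X₁) + 2 * (c ^ 2 * X₂) := by
  have hc := hW.nn
  obtain ⟨x, hx⟩ : ∃ x : ℕ → ℝ, x = fun n => lsh z r n - lamz z n := ⟨_, rfl⟩
  have hL0 : 0 ≤ Real.log N := Real.log_natCast_nonneg N
  have hpt : ∀ b ∈ Ioc y₁ y₂, |(la b * hT W z r (m * b + n) + hT W z r b * la (m * b + n) -
        hT W z r b * hT W z r (m * b + n)) -
      (la b * (W (m * b + n) * lamz z (m * b + n)) + (W b * lamz z b) * la (m * b + n) -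
        (W b * lamz z b) * (W (m * b + n) * lamz z (m * b + n)))| ≤
      ((c + c ^ 2) * Real.log N * |x b| + c ^ 2 * x b ^ 2) +
      ((c + c ^ 2) * Real.log N * |x (m * b + n)| + c ^ 2 * x (m * b + n) ^ 2) := by
    intro b hb
    obtain ⟨hbN, hcN⟩ := mem2 hm h2 hb
    have a1 := hW.h0 b
    have a2 := hW.h0 (m * b + n)
    have a3 := hW.h1 b (mem_Icc.1 hbN).2
    have a4 := hW.h1 (m * b + n) (mem_Icc.1 hcN).2
    have a5 := la_nn b
    have a6 := la_nn (m * b + n)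
    have a7 : la b ≤ Real.log N := vm_le hbN
    have a8 : la (m * b + n) ≤ Real.log N := vm_le hcN
    have a9 := lamz_nn z b
    have a10 := lamz_nn z (m * b + n)
    have a11 : lamz z b ≤ Real.log N := (lamz_le z b).trans hP.hV
    have a12 : lamz z (m * b + n) ≤ Real.log N := (lamz_le z (m * b + n)).trans hP.hV
    have e1 : (la b * hT W z r (m * b + n) + hT W z r b * la (m * b + n) - hT W z r b * hT W z r (m * b + n)) -
      (la b * (W (m * b + n) * lamz z (m * b + n)) + (W b * lamz z b) * la (m * b + n) -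
        (W b * lamz z b) * (W (m * b + n) * lamz z (m * b + n))) =
      la b * W (m * b + n) * x (m * b + n) + la (m * b + n) * W b * x b -
      W b * W (m * b + n) * (x b * lamz z (m * b + n) + lamz z b * x (m * b + n) + x b * x (m * b + n)) := by
      rw [hx]
      unfold hT
      ring
    rw [e1]
    generalize m * b + n = s at a2 a4 a6 a8 a10 a12 ⊢
    have b1 : |la b * W s * x s| ≤ c * Real.log N * |x s| := by
      rw [abs_mul, abs_of_nonneg (mul_nonneg a5 a2)]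
      apply mul_le_mul_of_nonneg_right _ (abs_nonneg _)
      rw [mul_comm c]
      exact mul_le_mul a7 a4 a2 hL0
    have b2 : |la s * W b * x b| ≤ c * Real.log N * |x b| := by
      rw [abs_mul, abs_of_nonneg (mul_nonneg a6 a1)]
      apply mul_le_mul_of_nonneg_right _ (abs_nonneg _)
      rw [mul_comm c]
      exact mul_le_mul a8 a3 a1 hL0
    have b4 : |x b * lamz z s + lamz z b * x s + x b * x s| ≤
        Real.log N * |x b| + Real.log N * |x s| + (x b ^ 2 + x s ^ 2) := by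
      refine (abs_add_le _ _).trans (add_le_add ((abs_add_le _ _).trans (add_le_add ?_ ?_)) ?_)
      · rw [abs_mul, abs_of_nonneg a10, mul_comm]
        exact mul_le_mul_of_nonneg_right a12 (abs_nonneg _)
      · rw [abs_mul, abs_of_nonneg a9]
        exact mul_le_mul_of_nonneg_right a11 (abs_nonneg _)
      · rw [abs_mul]
        have := sq_abs (x b)
        have := sq_abs (x s)
        nlinarith [sq_nonneg (|x b| - |x s|), abs_nonneg (x b), abs_nonneg (x s)]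
    have b3 : |W b * W s * (x b * lamz z s + lamz z b * x s + x b * x s)| ≤
        c ^ 2 * (Real.log N * |x b| + Real.log N * |x s| + (x b ^ 2 + x s ^ 2)) := by
      rw [abs_mul, abs_of_nonneg (mul_nonneg a1 a2)]
      refine mul_le_mul ?_ b4 (abs_nonneg _) (sq_nonneg c)
      rw [sq]
      exact mul_le_mul a3 a4 a2 hc
    have k1 := abs_sub (la b * W s * x s + la s * W b * x b)
      (W b * W s * (x b * lamz z s + lamz z b * x s + x b * x s))
    have k2 := abs_add_le (la b * W s * x s) (la s * W b * x b)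
    calc _ ≤ c * Real.log N * |x s| + c * Real.log N * |x b| +
          c ^ 2 * (Real.log N * |x b| + Real.log N * |x s| + (x b ^ 2 + x s ^ 2)) := by linarith
      _ = _ := by ring
  rw [← sum_sub_distrib]
  refine (abs_sum_le_sum_abs _ _).trans ((sum_le_sum hpt).trans ?_)
  obtain ⟨F, hF⟩ : ∃ F : ℕ → ℝ, F = fun b => (c + c ^ 2) * Real.log N * |x b| + c ^ 2 * x b ^ 2 := ⟨_, rfl⟩
  have hF0 : ∀ b, 0 ≤ F b := fun b => by rw [hF]; positivity
  have hFs : ∑ b ∈ Icc 1 N, F b ≤ (c + c ^ 2) * Real.log N * X₁ + c ^ 2 * X₂ := by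
    rw [hF, sum_add_distrib, ← mul_sum, ← mul_sum]
    have h3 : ∑ b ∈ Icc 1 N, |x b| ≤ X₁ := by
      refine le_trans (le_of_eq (sum_congr rfl fun b _ => ?_)) h1
      rw [hx, abs_sub_comm]
    have h4 : ∑ b ∈ Icc 1 N, x b ^ 2 ≤ X₂ := by rw [hx]; exact hX₂
    have h5 : 0 ≤ (c + c ^ 2) * Real.log N := by positivity
    exact add_le_add (mul_le_mul_of_nonneg_left h3 h5) (mul_le_mul_of_nonneg_left h4 (sq_nonneg c))
  have e3 : ∑ b ∈ Ioc y₁ y₂, (((c + c ^ 2) * Real.log N * |x b| + c ^ 2 * x b ^ 2) +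
      ((c + c ^ 2) * Real.log N * |x (m * b + n)| + c ^ 2 * x (m * b + n) ^ 2)) =
      ∑ b ∈ Ioc y₁ y₂, F b + ∑ b ∈ Ioc y₁ y₂, F (m * b + n) := by
    rw [← sum_add_distrib, hF]
  rw [e3]
  have k1 := plain_le F hF0 (y₁ := y₁) hm h2
  have k2 := shift_m F hF0 (y₁ := y₁) hm h2
  linarith

/-- the same for one function -/
lemma swap_oneD {m N n y₁ y₂ z r : ℕ} {W : ℕ → ℝ} {c X₁ : ℝ} (hm : 1 ≤ m) (hW : WB W c N) (h2 : m * y₂ + n ≤ N)
    (h1 : ∑ n ∈ Icc 1 N, |lamz z n - lsh z r n| ≤ X₁) :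
    |∑ b ∈ Ioc y₁ y₂, la b * hT W z r (m * b + n) -
      ∑ b ∈ Ioc y₁ y₂, la b * (W (m * b + n) * lamz z (m * b + n))| ≤ c * Real.log N * X₁ := by
  have hc := hW.nn
  have hL0 : 0 ≤ Real.log N := Real.log_natCast_nonneg N
  rw [← sum_sub_distrib]
  have hpt : ∀ b ∈ Ioc y₁ y₂, |la b * hT W z r (m * b + n) - la b * (W (m * b + n) * lamz z (m * b + n))| ≤
      c * Real.log N * |lamz z (m * b + n) - lsh z r (m * b + n)| := by
    intro b hb
    obtain ⟨hbN, hcN⟩ := mem2 hm h2 hb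
    have e1 : la b * hT W z r (m * b + n) - la b * (W (m * b + n) * lamz z (m * b + n)) =
        (la b * W (m * b + n)) * -(lamz z (m * b + n) - lsh z r (m * b + n)) := by
      unfold hT
      ring
    rw [e1, abs_mul, abs_neg, abs_of_nonneg (mul_nonneg (la_nn b) (hW.h0 _))]
    apply mul_le_mul_of_nonneg_right _ (abs_nonneg _)
    rw [mul_comm c]
    exact mul_le_mul (la_le_log hbN) (hW.h1 _ (mem_Icc.1 hcN).2) (hW.h0 _) hL0
  refine (abs_sum_le_sum_abs _ _).trans ((sum_le_sum hpt).trans ?_)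
  rw [← mul_sum]
  apply mul_le_mul_of_nonneg_left _ (mul_nonneg hc hL0)
  refine le_trans ?_ h1
  exact shift_m (fun b => |lamz z b - lsh z r b|) (fun _ => abs_nonneg _) hm h2

lemma WB_shiftD {W : ℕ → ℝ} {c : ℝ} {N : ℕ} (h : WB W c N) {m n y : ℕ} (hy : m * y + n ≤ N) :
    ∑ i ∈ range y, |W (m * (i + 1) + n) - W (m * i + n)| ≤ c := by
  have e1 : ∀ i ∈ range y, |W (m * (i + 1) + n) - W (m * i + n)| ≤
      ∑ j ∈ Ico (m * i + n) (m * (i + 1) + n), |W (j + 1) - W j| := by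
    intro i _
    have h1 : m * i + n ≤ m * (i + 1) + n := by
      have : m * i ≤ m * (i + 1) := Nat.mul_le_mul_left m (Nat.le_succ i)
      omega
    rw [← Finset.sum_Ico_sub W h1]
    exact abs_sum_le_sum_abs _ _
  refine (sum_le_sum e1).trans ?_
  have e2 : ∀ y : ℕ, ∑ i ∈ range y, ∑ j ∈ Ico (m * i + n) (m * (i + 1) + n), |W (j + 1) - W j| =
      ∑ j ∈ Ico n (m * y + n), |W (j + 1) - W j| := by
    intro y
    induction y with
    | zero => simp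
    | succ y ih =>
      rw [sum_range_succ, ih]
      refine sum_Ico_consecutive _ (Nat.le_add_left _ _) ?_
      have : m * y ≤ m * (y + 1) := Nat.mul_le_mul_left m (Nat.le_succ y)
      omega
  rw [e2]
  refine le_trans (sum_le_sum_of_subset_of_nonneg (fun j hj => ?_) fun _ _ _ => abs_nonneg _) h.h2
  rw [mem_Ico] at hj
  rw [mem_range]
  omega

lemma WB_prodD {W : ℕ → ℝ} {c : ℝ} {N : ℕ} (h : WB W c N) {m n y : ℕ} (hm : 1 ≤ m) (hy : m * y + n ≤ N) :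
    ∑ i ∈ range y, |W (i + 1) * W (m * (i + 1) + n) - W i * W (m * i + n)| ≤ 2 * c ^ 2 := by
  have hc := h.nn
  have hyN := le2 hm hy
  have e1 : ∀ i ∈ range y, |W (i + 1) * W (m * (i + 1) + n) - W i * W (m * i + n)| ≤
      c * |W (m * (i + 1) + n) - W (m * i + n)| + c * |W (i + 1) - W i| := by
    intro i hi
    rw [mem_range] at hi
    have e2 : W (i + 1) * W (m * (i + 1) + n) - W i * W (m * i + n) =
        W (i + 1) * (W (m * (i + 1) + n) - W (m * i + n)) + W (m * i + n) * (W (i + 1) - W i) := by ring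
    rw [e2]
    refine (abs_add_le _ _).trans ?_
    rw [abs_mul, abs_mul, abs_of_nonneg (h.h0 _), abs_of_nonneg (h.h0 _)]
    have h3 : m * i ≤ m * y := Nat.mul_le_mul_left m hi.le
    exact add_le_add (mul_le_mul_of_nonneg_right (h.h1 _ (by omega)) (abs_nonneg _))
      (mul_le_mul_of_nonneg_right (h.h1 _ (by omega)) (abs_nonneg _))
  refine (sum_le_sum e1).trans ?_
  rw [sum_add_distrib, ← mul_sum, ← mul_sum]
  have k1 := WB_shiftD h hy
  have k2 := h.tv (y := y) hyN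
  nlinarith

/-- the main term with weights -/
lemma det_mainD {m N n y₁ y₂ : ℕ} {W la lz : ℕ → ℝ} {c S ε : ℝ} (hm : 1 ≤ m) (hW : WB W c N) (h12 : y₁ ≤ y₂)
    (h2 : m * y₂ + n ≤ N)
    (hm1 : ∀ y, m * y + n ≤ N → |∑ b ∈ Icc 1 y, la b * lz (m * b + n) - S * y| ≤ ε)
    (hm2 : ∀ y, m * y + n ≤ N → |∑ b ∈ Icc 1 y, lz b * la (m * b + n) - S * y| ≤ ε)
    (hm3 : ∀ y, m * y + n ≤ N → |∑ b ∈ Icc 1 y, lz b * lz (m * b + n) - S * y| ≤ ε) :
    |∑ b ∈ Ioc y₁ y₂, (la b * (W (m * b + n) * lz (m * b + n)) + (W b * lz b) * la (m * b + n) -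
        (W b * lz b) * (W (m * b + n) * lz (m * b + n))) -
      S * ∑ b ∈ Ioc y₁ y₂, (W (m * b + n) + W b - W b * W (m * b + n))| ≤ (12 * c + 6 * c ^ 2) * ε := by
  have hc := hW.nn
  have hmono : ∀ i, i ≤ y₂ → m * i + n ≤ N := by
    intro i hi
    have h3 : m * i ≤ m * y₂ := Nat.mul_le_mul_left m hi
    omega
  have hy2N := le2 hm h2
  have hε : 0 ≤ ε := (abs_nonneg _).trans (hm1 0 (hmono 0 (Nat.zero_le _)))
  have cst : ∀ k : ℕ, ∑ _i ∈ Icc 1 k, S = S * k := by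
    intro k
    rw [sum_const, Nat.card_Icc, nsmul_eq_mul, Nat.add_sub_cancel, mul_comm]
  have p1 : ∀ k ≤ y₂, |∑ i ∈ Icc 1 k, (la i * lz (m * i + n) - S)| ≤ ε := by
    intro k hk
    rw [sum_sub_distrib, cst]
    exact hm1 k (hmono k hk)
  have p2 : ∀ k ≤ y₂, |∑ i ∈ Icc 1 k, (lz i * la (m * i + n) - S)| ≤ ε := by
    intro k hk
    rw [sum_sub_distrib, cst]
    exact hm2 k (hmono k hk)
  have p3 : ∀ k ≤ y₂, |∑ i ∈ Icc 1 k, (lz i * lz (m * i + n) - S)| ≤ ε := by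
    intro k hk
    rw [sum_sub_distrib, cst]
    exact hm3 k (hmono k hk)
  have q1 := abelW (fun i => la i * lz (m * i + n) - S) (fun i => W (m * i + n)) ε c c y₁ y₂ h12 p1
    (fun i hi => by
      rw [mem_Icc] at hi
      rw [abs_of_nonneg (hW.h0 _)]
      exact hW.h1 _ (hmono i hi.2)) (WB_shiftD hW h2) hc
  have q2 := abelW (fun i => lz i * la (m * i + n) - S) (fun i => W i) ε c c y₁ y₂ h12 p2
    (fun i hi => by
      rw [mem_Icc] at hi
      rw [abs_of_nonneg (hW.h0 _)]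
      exact hW.h1 _ (by omega)) (hW.tv hy2N) hc
  have q3 := abelW (fun i => lz i * lz (m * i + n) - S) (fun i => W i * W (m * i + n)) ε (c ^ 2) (2 * c ^ 2)
    y₁ y₂ h12 p3
    (fun i hi => by
      rw [mem_Icc] at hi
      rw [abs_mul, abs_of_nonneg (hW.h0 _), abs_of_nonneg (hW.h0 _), sq]
      exact mul_le_mul (hW.h1 _ (by omega)) (hW.h1 _ (hmono i hi.2)) (hW.h0 _) hc) (WB_prodD hW hm h2) (sq_nonneg c)
  have e : ∑ b ∈ Ioc y₁ y₂, (la b * (W (m * b + n) * lz (m * b + n)) + (W b * lz b) * la (m * b + n) -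
        (W b * lz b) * (W (m * b + n) * lz (m * b + n))) -
      S * ∑ b ∈ Ioc y₁ y₂, (W (m * b + n) + W b - W b * W (m * b + n)) =
      ∑ i ∈ Ioc y₁ y₂, W (m * i + n) * (la i * lz (m * i + n) - S) +
      ∑ i ∈ Ioc y₁ y₂, W i * (lz i * la (m * i + n) - S) -
      ∑ i ∈ Ioc y₁ y₂, W i * W (m * i + n) * (lz i * lz (m * i + n) - S) := by
    rw [mul_sum, ← sum_sub_distrib, ← sum_add_distrib, ← sum_sub_distrib]
    refine sum_congr rfl fun b _ => ?_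
    ring
  rw [e]
  have k1 := abs_sub (∑ i ∈ Ioc y₁ y₂, W (m * i + n) * (la i * lz (m * i + n) - S) +
    ∑ i ∈ Ioc y₁ y₂, W i * (lz i * la (m * i + n) - S))
    (∑ i ∈ Ioc y₁ y₂, W i * W (m * i + n) * (lz i * lz (m * i + n) - S))
  have k2 := abs_add_le (∑ i ∈ Ioc y₁ y₂, W (m * i + n) * (la i * lz (m * i + n) - S))
    (∑ i ∈ Ioc y₁ y₂, W i * (lz i * la (m * i + n) - S))
  have k3 : 0 ≤ c * ε := mul_nonneg hc hε
  nlinarith

/-- the main term for one function -/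
lemma det_oneD {m N n y₁ y₂ : ℕ} {W lz : ℕ → ℝ} {c S ε : ℝ} (hW : WB W c N) (h12 : y₁ ≤ y₂)
    (h2 : m * y₂ + n ≤ N) (hm1 : ∀ y, m * y + n ≤ N → |∑ b ∈ Icc 1 y, la b * lz (m * b + n) - S * y| ≤ ε) :
    |∑ b ∈ Ioc y₁ y₂, la b * (W (m * b + n) * lz (m * b + n)) - S * ∑ b ∈ Ioc y₁ y₂, W (m * b + n)| ≤
      4 * c * ε := by
  have hc := hW.nn
  have hmono : ∀ i, i ≤ y₂ → m * i + n ≤ N := by
    intro i hi
    have h3 : m * i ≤ m * y₂ := Nat.mul_le_mul_left m hi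
    omega
  have cst : ∀ k : ℕ, ∑ _i ∈ Icc 1 k, S = S * k := by
    intro k
    rw [sum_const, Nat.card_Icc, nsmul_eq_mul, Nat.add_sub_cancel, mul_comm]
  have p1 : ∀ k ≤ y₂, |∑ i ∈ Icc 1 k, (la i * lz (m * i + n) - S)| ≤ ε := by
    intro k hk
    rw [sum_sub_distrib, cst]
    exact hm1 k (hmono k hk)
  have q1 := abelW (fun i => la i * lz (m * i + n) - S) (fun i => W (m * i + n)) ε c c y₁ y₂ h12 p1
    (fun i hi => by
      rw [mem_Icc] at hi
      rw [abs_of_nonneg (hW.h0 _)]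
      exact hW.h1 _ (hmono i hi.2)) (WB_shiftD hW h2) hc
  have e : ∑ b ∈ Ioc y₁ y₂, la b * (W (m * b + n) * lz (m * b + n)) - S * ∑ b ∈ Ioc y₁ y₂, W (m * b + n) =
      ∑ i ∈ Ioc y₁ y₂, W (m * i + n) * (la i * lz (m * i + n) - S) := by
    rw [mul_sum, ← sum_sub_distrib]
    refine sum_congr rfl fun b _ => ?_
    ring
  rw [e]
  refine q1.trans (le_of_eq ?_)
  ring

lemma card_smallD {m n y₁ y₂ : ℕ} {X : ℝ} (hm : 1 ≤ m) (hX : 0 ≤ X) :
    (((Ioc y₁ y₂).filter (fun b : ℕ => ((m * b + n : ℕ) : ℝ) < X)).card : ℝ) ≤ X + 1 := by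
  refine le_trans ?_ (card_small (y₁ := y₁) (y₂ := y₂) hX)
  have h1 : (Ioc y₁ y₂).filter (fun b : ℕ => ((m * b + n : ℕ) : ℝ) < X) ⊆
      (Ioc y₁ y₂).filter (fun b : ℕ => (b : ℝ) < X) := by
    intro b hb
    rw [mem_filter] at hb ⊢
    refine ⟨hb.1, lt_of_le_of_lt ?_ hb.2⟩
    have h4 : 1 * b ≤ m * b := Nat.mul_le_mul_right b hm
    exact_mod_cast (by omega : b ≤ m * b + n)
  exact_mod_cast card_le_card h1

/-- the density of the lower bound -/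
lemma dens_lowerD {m N n y₁ y₂ : ℕ} {W : ℕ → ℝ} {c X δ : ℝ} (hm : 1 ≤ m) (hW : WB W c N) (h12 : y₁ ≤ y₂)
    (h2 : m * y₂ + n ≤ N) (hX : 0 ≤ X) (hδ0 : 0 ≤ δ) (hδ1 : δ ≤ 1)
    (hd : ∀ b : ℕ, b ≤ N → X ≤ b → 1 ≤ W b ∧ W b ≤ 1 + δ) :
    (1 - δ ^ 2) * ((y₂ : ℝ) - y₁) - (c ^ 2 + 1) * (2 * X + 2) ≤
      ∑ b ∈ Ioc y₁ y₂, (W (m * b + n) + W b - W b * W (m * b + n)) := by
  classical
  have hc := hW.nn
  have hδ2 : 0 ≤ δ ^ 2 := sq_nonneg δ
  have h1 : ∀ b ∈ Ioc y₁ y₂, (1 - δ ^ 2) - (if (b : ℝ) < X then (c ^ 2 + 1) else 0) -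
      (if ((m * b + n : ℕ) : ℝ) < X then (c ^ 2 + 1) else 0) ≤ W (m * b + n) + W b - W b * W (m * b + n) := by
    intro b hb
    obtain ⟨hbN, hcN⟩ := mem2 hm h2 hb
    have hbN2 := (mem_Icc.1 hbN).2
    have hcN2 := (mem_Icc.1 hcN).2
    have k1 := hW.h0 b
    have k2 := hW.h0 (m * b + n)
    have k3 := hW.h1 b hbN2
    have k4 := hW.h1 (m * b + n) hcN2
    have k5 : W b * W (m * b + n) ≤ c ^ 2 := by
      rw [sq]
      exact mul_le_mul k3 k4 k2 hc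
    by_cases a1 : (b : ℝ) < X
    · rw [if_pos a1]
      have : (0 : ℝ) ≤ (if ((m * b + n : ℕ) : ℝ) < X then (c ^ 2 + 1) else 0) := by
        split_ifs
        · positivity
        · exact le_rfl
      linarith
    · by_cases a2 : ((m * b + n : ℕ) : ℝ) < X
      · rw [if_neg a1, if_pos a2]
        linarith
      · rw [if_neg a1, if_neg a2]
        obtain ⟨d1, d2⟩ := hd b hbN2 (not_lt.1 a1)
        obtain ⟨d3, d4⟩ := hd (m * b + n) hcN2 (not_lt.1 a2)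
        have d5 : (W b - 1) * (W (m * b + n) - 1) ≤ δ * δ :=
          mul_le_mul (by linarith) (by linarith) (by linarith) hδ0
        nlinarith
  refine le_trans ?_ (sum_le_sum h1)
  rw [sum_sub_distrib, sum_sub_distrib, sum_const, Nat.card_Ioc, nsmul_eq_mul, ← sum_filter, ← sum_filter,
    sum_const, sum_const, nsmul_eq_mul, nsmul_eq_mul]
  have c1 := card_small (y₁ := y₁) (y₂ := y₂) hX
  have c2 := card_smallD (n := n) (y₁ := y₁) (y₂ := y₂) hm hX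
  have c3 : ((y₂ - y₁ : ℕ) : ℝ) = (y₂ : ℝ) - y₁ := Nat.cast_sub h12
  rw [c3]
  have hc1 : 0 ≤ c ^ 2 + 1 := by positivity
  nlinarith [mul_le_mul_of_nonneg_right c1 hc1, mul_le_mul_of_nonneg_right c2 hc1]

/-- the density of the upper bound -/
lemma dens_upperD {m N n y₁ y₂ : ℕ} {W : ℕ → ℝ} {c X δ : ℝ} (hm : 1 ≤ m) (hW : WB W c N) (h12 : y₁ ≤ y₂)
    (h2 : m * y₂ + n ≤ N) (hX : 0 ≤ X) (hδ0 : 0 ≤ δ)
    (hd : ∀ b : ℕ, b ≤ N → X ≤ b → 1 ≤ W b ∧ W b ≤ 1 + δ) :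
    ∑ b ∈ Ioc y₁ y₂, W (m * b + n) ≤ (1 + δ) * ((y₂ : ℝ) - y₁) + c * (X + 1) := by
  classical
  have hc := hW.nn
  have h1 : ∀ b ∈ Ioc y₁ y₂, W (m * b + n) ≤ (1 + δ) + (if ((m * b + n : ℕ) : ℝ) < X then c else 0) := by
    intro b hb
    obtain ⟨hbN, hcN⟩ := mem2 hm h2 hb
    have hcN2 := (mem_Icc.1 hcN).2
    by_cases a2 : ((m * b + n : ℕ) : ℝ) < X
    · rw [if_pos a2]
      have := hW.h1 (m * b + n) hcN2
      linarith
    · rw [if_neg a2]
      obtain ⟨d3, d4⟩ := hd (m * b + n) hcN2 (not_lt.1 a2)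
      linarith
  refine (sum_le_sum h1).trans ?_
  rw [sum_add_distrib, sum_const, Nat.card_Ioc, nsmul_eq_mul, ← sum_filter, sum_const, nsmul_eq_mul]
  have c2 := card_smallD (n := n) (y₁ := y₁) (y₂ := y₂) hm hX
  have c3 : ((y₂ - y₁ : ℕ) : ℝ) = (y₂ : ℝ) - y₁ := Nat.cast_sub h12
  rw [c3]
  nlinarith [mul_le_mul_of_nonneg_right c2 hc]

end Pool.Agent.T2h83.GD
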