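import Pool.Agent.T2h83.GD.Sub

set_option autoImplicit false

/-! The correlations with the shifted characters for sections. -/

namespace Pool.Agent.T2h83.GD

open Finset
open Pool.Agent.R460.GS
open Pool.Agent.Y883.GJ
open Pool.Agent.H807R2.Dav (ee norm_ee)

/-- section -/
noncomputable def sec (m n₀ N : ℕ) (F : ℕ → ℂ) (t : ℕ) : ℂ := if m * t + n₀ ≤ N then F (m * t + n₀) else 0

lemma sec_sum {m n₀ N y : ℕ} (hm : 1 ≤ m) (hn : n₀ < m) (F : ℕ → ℂ) (g : ℕ → ℂ) :
    ∑ t ∈ Icc 1 y, sec m n₀ N F t * g t =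
      ∑ s ∈ (Ioc n₀ (min (m * y + n₀) N)).filter (fun s : ℕ => (s : ℤ) ≡ (n₀ : ℤ) [ZMOD m]), F s * g ((s - n₀) / m) := by
  classical
  have hset : (Ioc n₀ (min (m * y + n₀) N)).filter (fun s : ℕ => (s : ℤ) ≡ (n₀ : ℤ) [ZMOD m]) =
      ((Icc 1 y).filter (fun t => m * t + n₀ ≤ N)).image (fun t => m * t + n₀) := by
    ext s
    rw [mem_filter, mem_Ioc, mem_image, le_min_iff, Int.natCast_modEq_iff]
    constructor
    · rintro ⟨⟨h1, h2, h3⟩, h4⟩
      obtain ⟨t, ht⟩ : ∃ t, s = m * t + n₀ := by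
        have h5 : m ∣ s - n₀ := (Nat.modEq_iff_dvd' h1.le).1 h4.symm
        obtain ⟨t, ht⟩ := h5
        exact ⟨t, by omega⟩
      refine ⟨t, ?_, ht.symm⟩
      rw [mem_filter, mem_Icc]
      rw [ht] at h1 h2 h3
      refine ⟨⟨?_, ?_⟩, h3⟩
      · rcases Nat.eq_zero_or_pos t with h | h
        · rw [h] at h1
          omega
        · exact h
      · have h5 : m * t ≤ m * y := by omega
        exact Nat.le_of_mul_le_mul_left h5 hm
    · rintro ⟨t, ht, rfl⟩
      rw [mem_filter, mem_Icc] at ht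
      obtain ⟨⟨h1, h2⟩, h3⟩ := ht
      have h4 : m * 1 ≤ m * t := Nat.mul_le_mul_left m h1
      have h5 : m * t ≤ m * y := Nat.mul_le_mul_left m h2
      refine ⟨⟨by omega, by omega, h3⟩, ?_⟩
      have h6 : m * t ≡ 0 [MOD m] := (Nat.modEq_zero_iff_dvd).2 (Nat.dvd_mul_right m t)
      have h7 := h6.add_right n₀
      rwa [zero_add] at h7
  rw [hset, sum_image]
  · rw [sum_filter]
    refine sum_congr rfl fun t _ => ?_
    unfold sec
    split_ifs with h
    · rw [Nat.add_sub_cancel, Nat.mul_div_cancel_left t hm]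
    · rw [zero_mul]
  · intro a _ b _ hab
    exact Nat.eq_of_mul_eq_mul_left hm (Nat.add_right_cancel hab)

/-- the sum over the interval is a difference of two sums -/
lemma ioc_diff (n₀ Y : ℕ) (P : ℕ → Prop) [DecidablePred P] (f : ℕ → ℂ) :
    ‖∑ s ∈ (Ioc n₀ Y).filter P, f s‖ ≤ ‖∑ s ∈ (Icc 1 Y).filter P, f s‖ + ‖∑ s ∈ (Icc 1 n₀).filter P, f s‖ := by
  rcases le_or_gt n₀ Y with h | h
  · have h1 : ∑ s ∈ (Icc 1 Y).filter P, f s = ∑ s ∈ (Icc 1 n₀).filter P, f s + ∑ s ∈ (Ioc n₀ Y).filter P, f s := by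
      rw [← sum_union]
      · congr 1
        ext s
        simp only [mem_union, mem_filter, mem_Icc, mem_Ioc]
        constructor
        · rintro ⟨⟨a1, a2⟩, a3⟩
          by_cases hs : s ≤ n₀
          · exact Or.inl ⟨⟨a1, hs⟩, a3⟩
          · exact Or.inr ⟨⟨by omega, a2⟩, a3⟩
        · rintro (⟨⟨a1, a2⟩, a3⟩ | ⟨⟨a1, a2⟩, a3⟩)
          · exact ⟨⟨a1, by omega⟩, a3⟩
          · exact ⟨⟨by omega, a2⟩, a3⟩
      · rw [disjoint_left]
        intro s h1 h2
        rw [mem_filter, mem_Icc] at h1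
        rw [mem_filter, mem_Ioc] at h2
        omega
    have h2 : ∑ s ∈ (Ioc n₀ Y).filter P, f s = ∑ s ∈ (Icc 1 Y).filter P, f s - ∑ s ∈ (Icc 1 n₀).filter P, f s := by
      rw [h1]
      ring
    rw [h2]
    exact norm_sub_le _ _
  · rw [Ioc_eq_empty (by omega), filter_empty, sum_empty, norm_zero]
    positivity

theorem shq_sec {N B C T K m q n₀ : ℕ} {ρ : ℝ} {F : ℕ → ℂ} [NeZero q] (hm : 1 ≤ m) (hqm : Nat.Coprime q m)
    (hn₀ : n₀ < m) (hN : 1 ≤ N) (hL : 2 ≤ Real.log N) (hmL : (m : ℝ) ≤ Real.log N)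
    (hQ : (m : ℝ) * (Real.log N ^ C * q) ≤ (N : ℝ) ^ (7 / 10 - ρ))
    (h : ShAt N ρ (B + C + 1) (C + 1) (T + C + 1) K F) (a : ZMod q) (b₀ : ℤ) (hb₀ : (b₀ : ZMod q) = m * a + n₀)
    (ha : (Int.gcd b₀ q : ℝ) ≤ Real.log N ^ T) : ShQ N B C (K + C + 1) (sec m n₀ N F) q a := by
  classical
  intro j hj χ hχ a' ha' η hη y hy _
  obtain ⟨L, hLd⟩ : ∃ L, L = Real.log (N : ℝ) := ⟨_, rfl⟩
  have hL0 : 0 < L := by linarith
  have hL1 : 1 ≤ L := by linarith
  have hN0 : (0 : ℝ) < N := by exact_mod_cast hN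
  have hm0 : (0 : ℝ) < m := by exact_mod_cast hm
  have hm1 : (1 : ℝ) ≤ m := by exact_mod_cast hm
  have hq1 : 1 ≤ q := NeZero.pos q
  have hq0 : (0 : ℝ) < q := by exact_mod_cast hq1
  have hmN : m ≤ N := by
    have h1 : Real.log N ≤ N := (Real.log_le_sub_one_of_pos hN0).trans (by linarith)
    exact_mod_cast hmL.trans h1
  obtain ⟨r, k₂, e, e1, e2, e3⟩ := mpart m (j + 1) (by omega)
  have hr1 : 1 ≤ r := by
    rcases Nat.eq_zero_or_pos r with h3 | h3
    · rw [h3] at e1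
      omega
    · exact h3
  have hk2 : 1 ≤ k₂ := by
    rcases Nat.eq_zero_or_pos k₂ with h3 | h3
    · rw [h3] at e1
      omega
    · exact h3
  obtain ⟨Q₀, hQ₀⟩ : ∃ Q₀, Q₀ = k₂ * q := ⟨_, rfl⟩
  have hQr : (j + 1) * q = r * Q₀ := by rw [hQ₀, e1, mul_assoc]
  have hcopm : Nat.Coprime Q₀ m := by rw [hQ₀]; exact Nat.Coprime.mul_left e2 hqm
  have hcop : Nat.Coprime r Q₀ := by
    apply Nat.Coprime.of_dvd_left e3
    exact (Nat.Coprime.pow_right e hcopm).symm
  have hcopmr : Nat.Coprime (m * r) Q₀ := Nat.Coprime.mul_left hcopm.symm hcop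
  have hQ₀1 : 1 ≤ Q₀ := by rw [hQ₀]; exact Nat.mul_pos hk2 hq1
  have hrk : (r : ℝ) ≤ ((j + 1 : ℕ) : ℝ) := by
    have : r ≤ j + 1 := by
      rw [e1]
      exact Nat.le_mul_of_pos_right r hk2
    exact_mod_cast this
  have hrL : (r : ℝ) ≤ L ^ C := by rw [hLd]; exact hrk.trans hj
  obtain ⟨A, hA⟩ : ∃ A : ℤ, A = ((a'.val : ℕ) : ℤ) := ⟨_, rfl⟩
  have haA : a' = ((A : ℤ) : ZMod ((j + 1) * q)) := by
    rw [hA, Int.cast_natCast, ZMod.natCast_zmod_val]
  obtain ⟨M, hM⟩ : ∃ M, M = m * ((j + 1) * q) := ⟨_, rfl⟩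
  have hMr : M = (m * r) * Q₀ := by rw [hM, hQr, mul_assoc]
  have hM0 : M ≠ 0 := by
    rw [hM]
    have : 0 < m * ((j + 1) * q) := Nat.mul_pos hm (Nat.mul_pos (by omega) hq1)
    omega
  have : NeZero M := ⟨hM0⟩
  have hQM : (j + 1) * q ∣ M := by rw [hM]; exact Nat.dvd_mul_left _ _
  obtain ⟨χ', hχ'⟩ : ∃ χ', χ' = DirichletCharacter.changeLevel hQM χ := ⟨_, rfl⟩
  -- the inverse of `m`
  obtain ⟨mb, hmb⟩ : ∃ mb : ℤ, (m : ℤ) * mb ≡ 1 [ZMOD Q₀] := by
    obtain ⟨u, v, huv⟩ := Nat.isCoprime_iff_coprime.2 hcopm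
    refine ⟨v, ?_⟩
    rw [Int.modEq_iff_dvd]
    exact ⟨u, by linear_combination (-1 : ℤ) * huv⟩
  obtain ⟨Y, hY⟩ : ∃ Y, Y = min (m * y + n₀) N := ⟨_, rfl⟩
  have hYN : Y ≤ N := by rw [hY]; exact min_le_right _ _
  rw [sum_cl]
  have s1 : ∑ n ∈ Icc 1 y, sec m n₀ N F n * ee (n * η) * χ (a' - (n : ZMod ((j + 1) * q))) =
      ∑ s ∈ (Ioc n₀ Y).filter (fun s : ℕ => (s : ℤ) ≡ (n₀ : ℤ) [ZMOD m]),
        F s * (ee ((((s - n₀) / m : ℕ) : ℝ) * η) * χ (a' - (((s - n₀) / m : ℕ) : ZMod ((j + 1) * q)))) := by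
    rw [hY, ← sec_sum hm hn₀ F (fun u => ee ((u : ℝ) * η) * χ (a' - (u : ZMod ((j + 1) * q))))]
    refine sum_congr rfl fun n _ => ?_
    rw [mul_assoc]
  -- the classes modulo `m r`
  have s0 : ∑ s ∈ (Ioc n₀ Y).filter (fun s : ℕ => (s : ℤ) ≡ (n₀ : ℤ) [ZMOD m]),
        F s * (ee ((((s - n₀) / m : ℕ) : ℝ) * η) * χ (a' - (((s - n₀) / m : ℕ) : ZMod ((j + 1) * q)))) =
      ∑ τ ∈ range r, ∑ s ∈ (Ioc n₀ Y).filter (fun s : ℕ => (s : ℤ) ≡ ((n₀ + m * τ : ℕ) : ℤ) [ZMOD ((m * r : ℕ) : ℤ)]),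
        F s * (ee ((((s - n₀) / m : ℕ) : ℝ) * η) * χ (a' - (((s - n₀) / m : ℕ) : ZMod ((j + 1) * q)))) := by
    rw [← sum_fiberwise_of_maps_to (s := (Ioc n₀ Y).filter (fun s : ℕ => (s : ℤ) ≡ (n₀ : ℤ) [ZMOD m]))
      (t := range r) (g := fun s => ((s - n₀) / m) % r) (fun b _ => mem_range.2 (Nat.mod_lt _ hr1))]
    refine sum_congr rfl fun τ hτ => ?_
    rw [mem_range] at hτ
    apply sum_congr _ fun _ _ => rfl
    rw [filter_filter]
    apply filter_congr
    intro s hs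
    rw [mem_Ioc] at hs
    rw [Int.natCast_modEq_iff, Int.natCast_modEq_iff]
    constructor
    · rintro ⟨h1, h2⟩
      have h5 : m ∣ s - n₀ := (Nat.modEq_iff_dvd' hs.1.le).1 h1.symm
      obtain ⟨t, ht⟩ := h5
      have h6 : s = n₀ + m * t := by omega
      rw [ht, Nat.mul_div_cancel_left t hm] at h2
      rw [h6]
      apply Nat.ModEq.add_left
      apply Nat.ModEq.mul_left'
      unfold Nat.ModEq
      rw [h2, Nat.mod_eq_of_lt hτ]
    · intro h1
      have h2 : s ≡ n₀ + m * τ [MOD m] := h1.of_mul_right r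
      have h3 : n₀ + m * τ ≡ n₀ + 0 [MOD m] :=
        Nat.ModEq.add_left _ ((Nat.modEq_zero_iff_dvd).2 (Nat.dvd_mul_right m τ))
      have h4 : s ≡ n₀ [MOD m] := h2.trans h3
      refine ⟨h4, ?_⟩
      have h5 : m ∣ s - n₀ := (Nat.modEq_iff_dvd' hs.1.le).1 h4.symm
      obtain ⟨t, ht⟩ := h5
      have h6 : s = n₀ + m * t := by omega
      rw [ht, Nat.mul_div_cancel_left t hm]
      rw [h6] at h1
      have h7 : m * t ≡ m * τ [MOD m * r] := Nat.ModEq.add_left_cancel' n₀ h1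
      have h8 : t ≡ τ [MOD r] := Nat.ModEq.mul_left_cancel' (by omega) h7
      unfold Nat.ModEq at h8
      rwa [Nat.mod_eq_of_lt hτ] at h8
  rw [s1, s0]
  have s2 : ∀ τ ∈ range r, ‖∑ s ∈ (Ioc n₀ Y).filter
      (fun s : ℕ => (s : ℤ) ≡ ((n₀ + m * τ : ℕ) : ℤ) [ZMOD ((m * r : ℕ) : ℤ)]),
        F s * (ee ((((s - n₀) / m : ℕ) : ℝ) * η) * χ (a' - (((s - n₀) / m : ℕ) : ZMod ((j + 1) * q))))‖ ≤
      2 * (N / L ^ (B + C + 1)) := by
    intro τ _
    obtain ⟨σ, hσ⟩ : ∃ σ : ℤ, σ = ((n₀ + m * τ : ℕ) : ℤ) := ⟨_, rfl⟩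
    obtain ⟨c, hc1, hc2⟩ := crt (m * r) Q₀ hcopmr (σ + 1) (m * A + n₀)
    obtain ⟨w, hw1, hw2⟩ := crt r Q₀ hcop (A - τ) mb
    rw [← hσ]
    have key : ∀ s : ℕ, n₀ < s → (s : ℤ) ≡ σ [ZMOD ((m * r : ℕ) : ℤ)] →
        F s * (ee ((((s - n₀) / m : ℕ) : ℝ) * η) * χ (a' - (((s - n₀) / m : ℕ) : ZMod ((j + 1) * q)))) =
        (ee (-((n₀ : ℝ) * (η / m))) * χ ((w : ℤ) : ZMod ((j + 1) * q))) *
          (F s * ee (s * (η / m)) * χ' (((c : ℤ) : ZMod M) - (s : ZMod M))) := by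
      intro s hs1 hs
      obtain ⟨t, ht⟩ : ∃ t : ℕ, s = n₀ + m * t := by
        have h1 : s ≡ n₀ + m * τ [MOD m * r] := by
          rw [hσ] at hs
          exact (Int.natCast_modEq_iff).1 hs
        have h2 : s ≡ n₀ + m * τ [MOD m] := h1.of_mul_right r
        have h3 : n₀ + m * τ ≡ n₀ + 0 [MOD m] :=
          Nat.ModEq.add_left _ ((Nat.modEq_zero_iff_dvd).2 (Nat.dvd_mul_right m τ))
        have h4 : s ≡ n₀ [MOD m] := h2.trans h3
        have h5 : m ∣ s - n₀ := (Nat.modEq_iff_dvd' hs1.le).1 h4.symm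
        obtain ⟨t, ht⟩ := h5
        exact ⟨t, by omega⟩
      have htd : (s - n₀) / m = t := by
        rw [ht, Nat.add_sub_cancel_left, Nat.mul_div_cancel_left t hm]
      rw [htd]
      have htτ : (t : ℤ) ≡ τ [ZMOD r] := by
        have h1 : n₀ + m * t ≡ n₀ + m * τ [MOD m * r] := by
          rw [hσ] at hs
          rw [← ht]
          exact (Int.natCast_modEq_iff).1 hs
        have h7 : m * t ≡ m * τ [MOD m * r] := Nat.ModEq.add_left_cancel' n₀ h1
        have h8 : t ≡ τ [MOD r] := Nat.ModEq.mul_left_cancel' (by omega) h7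
        exact (Int.natCast_modEq_iff).2 h8
      have hcs1 : c - s ≡ 1 [ZMOD ((m * r : ℕ) : ℤ)] := by
        have h1 := hc1.sub hs
        rwa [show σ + 1 - σ = 1 by ring] at h1
      have hcs2 : c - s ≡ m * (A - t) [ZMOD Q₀] := by
        have h1 := hc2.sub (Int.ModEq.refl (s : ℤ))
        have h2 : (m : ℤ) * A + n₀ - s = m * (A - t) := by
          rw [ht]
          push_cast
          ring
        rwa [h2] at h1
      -- the exponential
      have hee : ee ((t : ℝ) * η) = ee (-((n₀ : ℝ) * (η / m))) * ee (s * (η / m)) := by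
        rw [← Pool.Agent.H807R2.Dav.ee_add]
        congr 1
        rw [ht]
        push_cast
        field_simp
        ring
      -- the character
      have hchi : χ (a' - (t : ZMod ((j + 1) * q))) =
          χ ((w : ℤ) : ZMod ((j + 1) * q)) * χ (((c - s : ℤ)) : ZMod ((j + 1) * q)) := by
        rw [← map_mul]
        congr 1
        have h1 : A - t ≡ w * (c - s) [ZMOD ((r * Q₀ : ℕ) : ℤ)] := by
          apply modEq_mul hcop
          · have h0 : c - s ≡ 1 [ZMOD r] := by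
              apply Int.ModEq.of_dvd _ hcs1
              exact_mod_cast Nat.dvd_mul_left r m
            have h2 : w * (c - s) ≡ (A - τ) * 1 [ZMOD r] := hw1.mul h0
            have h3 : A - t ≡ A - τ [ZMOD r] := (Int.ModEq.refl A).sub htτ
            rw [mul_one] at h2
            exact h3.trans h2.symm
          · have h2 : w * (c - s) ≡ mb * (m * (A - t)) [ZMOD Q₀] := hw2.mul hcs2
            refine Int.ModEq.trans ?_ h2.symm
            have h3 : mb * (m * (A - t)) = (m * mb) * (A - t) := by ring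
            rw [h3]
            have h4 : (m * mb) * (A - t) ≡ 1 * (A - t) [ZMOD Q₀] := hmb.mul (Int.ModEq.refl _)
            rw [one_mul] at h4
            exact h4.symm
        rw [← hQr] at h1
        have h2 := (ZMod.intCast_eq_intCast_iff _ _ _).2 h1
        rw [haA]
        push_cast at h2 ⊢
        exact h2
      have hchi' : χ (((c - s : ℤ)) : ZMod ((j + 1) * q)) = χ' (((c : ℤ) : ZMod M) - (s : ZMod M)) := by
        have h0 : ((c : ℤ) : ZMod M) - (s : ZMod M) = ((c - s : ℤ) : ZMod M) := by push_cast; ring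
        rw [h0, hχ']
        by_cases hu : IsCoprime (c - s) (M : ℤ)
        · exact (DirichletCharacter.changeLevel_eq_cast_of_dvd' χ hQM hu).symm
        · have g1 : (DirichletCharacter.changeLevel hQM χ) ((c - s : ℤ) : ZMod M) = 0 := by
            apply MulChar.map_nonunit
            intro g
            apply hu
            rwa [ZMod.coe_int_isUnit_iff_isCoprime, isCoprime_comm] at g
          rw [g1]
          apply χ.map_nonunit
          intro g
          apply hu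
          rw [ZMod.coe_int_isUnit_iff_isCoprime, isCoprime_comm] at g
          have g2 : IsCoprime (c - s) ((m * r : ℕ) : ℤ) := by
            rw [Int.modEq_iff_dvd] at hcs1
            obtain ⟨u, hu⟩ := hcs1
            exact ⟨1, u, by linear_combination (-1 : ℤ) * hu⟩
          have g3 : IsCoprime (c - s) (Q₀ : ℤ) := by
            rw [hQr] at g
            push_cast at g
            exact g.of_mul_right_right
          rw [hMr]
          push_cast at g2 ⊢
          exact g2.mul_right g3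
      rw [hee, hchi, hchi']
      ring
    have s3 : ∑ s ∈ (Ioc n₀ Y).filter (fun s : ℕ => (s : ℤ) ≡ σ [ZMOD ((m * r : ℕ) : ℤ)]),
        F s * (ee ((((s - n₀) / m : ℕ) : ℝ) * η) * χ (a' - (((s - n₀) / m : ℕ) : ZMod ((j + 1) * q)))) =
        (ee (-((n₀ : ℝ) * (η / m))) * χ ((w : ℤ) : ZMod ((j + 1) * q))) *
        ∑ s ∈ (Ioc n₀ Y).filter (fun s : ℕ => (s : ℤ) ≡ σ [ZMOD ((m * r : ℕ) : ℤ)]),
          F s * ee (s * (η / m)) * χ' (((c : ℤ) : ZMod M) - (s : ZMod M)) := by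
      rw [mul_sum]
      refine sum_congr rfl fun s hs => ?_
      rw [mem_filter, mem_Ioc] at hs
      exact key s hs.1.1 hs.2
    rw [s3, norm_mul]
    have hdvd : m * r ∣ M := by rw [hMr]; exact Nat.dvd_mul_right _ _
    have s4 : ∀ Z : ℕ, Z ≤ N → ‖∑ s ∈ (Icc 1 Z).filter (fun s : ℕ => (s : ℤ) ≡ σ [ZMOD ((m * r : ℕ) : ℤ)]),
        F s * ee (s * (η / m)) * χ' (((c : ℤ) : ZMod M) - (s : ZMod M))‖ ≤ N / Real.log N ^ (B + C + 1) := by
      intro Z hZ
      exact block (M := M) (R := m * r) h (by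
        have e5 : (M : ℝ) ≤ m * (Real.log N ^ C * q) := by
          rw [hM, Nat.cast_mul, Nat.cast_mul]
          gcongr
        exact e5.trans hQ) hdvd (by linarith) χ' (by
        rw [hχ', DirichletCharacter.conductor_changeLevel]
        refine lt_of_le_of_lt ?_ hχ
        rw [← hLd, Nat.cast_mul]
        calc L ^ K * ((m : ℝ) * r) ≤ L ^ K * (L * L ^ C) := by
              rw [← hLd] at hmL
              gcongr
          _ = L ^ (K + C + 1) := by rw [pow_add, pow_add, pow_one]; ring) c (by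
        rw [← hLd]
        have g1 : Int.gcd c (M : ℤ) ≤ (m * r) * (k₂ * Int.gcd b₀ q) := by
          rw [hMr]
          refine (gcd_mul_le c (m * r) Q₀ (Nat.mul_pos hm hr1) hQ₀1).trans ?_
          apply Nat.mul_le_mul_left
          have g2 : Int.gcd c Q₀ = Int.gcd (m * A + n₀) Q₀ := gcd_congr' hc2
          rw [g2, hQ₀]
          refine (gcd_mul_le _ k₂ q hk2 hq1).trans ?_
          apply Nat.mul_le_mul_left
          apply le_of_eq
          apply gcd_congr'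
          rw [← ZMod.intCast_eq_intCast_iff, hb₀]
          push_cast
          congr 2
          rw [hA, Int.cast_natCast]
          exact ha'
        have g7 : (m * r) * (k₂ * Int.gcd b₀ q) = m * ((j + 1) * Int.gcd b₀ q) := by rw [e1]; ring
        rw [g7] at g1
        calc ((Int.gcd c (M : ℤ) : ℕ) : ℝ) ≤ ((m * ((j + 1) * Int.gcd b₀ q) : ℕ) : ℝ) := by
              exact_mod_cast g1
          _ = (m : ℝ) * (((j + 1 : ℕ) : ℝ) * (Int.gcd b₀ q : ℝ)) := by rw [Nat.cast_mul, Nat.cast_mul]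
          _ ≤ L * (L ^ C * L ^ T) := by
              rw [← hLd] at hmL hj ha
              gcongr
          _ = L ^ (T + C + 1) := by rw [pow_add, pow_add, pow_one]; ring) σ hc1 (η / m) (by
        rw [abs_div, abs_of_pos hm0, pow_succ]
        have h1 : |η| / m ≤ |η| := div_le_self (abs_nonneg _) hm1
        refine h1.trans (hη.trans ?_)
        have h2 : (0 : ℝ) ≤ Real.log N ^ C := by positivity
        apply div_le_div_of_nonneg_right _ hN0.le
        nlinarith) Z hZ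
    have s5 := ioc_diff n₀ Y (fun s : ℕ => (s : ℤ) ≡ σ [ZMOD ((m * r : ℕ) : ℤ)])
      (fun s => F s * ee (s * (η / m)) * χ' (((c : ℤ) : ZMod M) - (s : ZMod M)))
    have s6 := s4 Y hYN
    have s7 := s4 n₀ (by omega)
    rw [← hLd] at s6 s7
    have s8 : ‖ee (-((n₀ : ℝ) * (η / m))) * χ ((w : ℤ) : ZMod ((j + 1) * q))‖ ≤ 1 := by
      rw [norm_mul, norm_ee, one_mul]
      exact χ.norm_le_one _
    calc _ ≤ 1 * (2 * (N / L ^ (B + C + 1))) := by
          apply mul_le_mul s8 _ (norm_nonneg _) zero_le_one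
          linarith
      _ = _ := one_mul _
  refine (norm_sum_le _ _).trans ((sum_le_sum s2).trans ?_)
  rw [sum_const, card_range, nsmul_eq_mul, ← hLd]
  rw [← hLd] at hL
  calc (r : ℝ) * (2 * (N / L ^ (B + C + 1))) ≤ L ^ C * (L * (N / L ^ (B + C + 1))) := by gcongr
    _ = N / L ^ B := by
        rw [pow_add, pow_add, pow_one]
        field_simp

end Pool.Agent.T2h83.GD
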