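import Pool.Agent.T2h83.GD.Blk

set_option autoImplicit false

/-! The correlations with the shifted characters for dilated functions and for sections. -/

namespace Pool.Agent.T2h83.GD

open Finset
open Pool.Agent.R460.GS
open Pool.Agent.Y883.GJ
open Pool.Agent.H807R2.Dav (ee norm_ee)

lemma mpart (m : ℕ) : ∀ k : ℕ, 1 ≤ k → ∃ r k₂ e : ℕ, k = r * k₂ ∧ Nat.Coprime k₂ m ∧ r ∣ m ^ e := by
  intro k
  induction k using Nat.strong_induction_on with
  | _ k ih =>
    intro hk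
    by_cases h : Nat.Coprime k m
    · exact ⟨1, k, 0, (one_mul k).symm, h, one_dvd _⟩
    · obtain ⟨p, hp, h1, h2⟩ := Nat.Prime.not_coprime_iff_dvd.1 h
      obtain ⟨k', hk'⟩ := h1
      have hk'0 : 1 ≤ k' := by
        rcases Nat.eq_zero_or_pos k' with h3 | h3
        · rw [h3] at hk'
          omega
        · exact h3
      have hlt : k' < k := by
        rw [hk']
        have := hp.two_le
        nlinarith
      obtain ⟨r, k₂, e, e1, e2, e3⟩ := ih k' hlt hk'0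
      refine ⟨p * r, k₂, e + 1, ?_, e2, ?_⟩
      · rw [hk', e1, mul_assoc]
      · rw [pow_succ']
        exact Nat.mul_dvd_mul h2 e3

lemma crt (r s : ℕ) (h : Nat.Coprime r s) (α β : ℤ) : ∃ x : ℤ, x ≡ α [ZMOD r] ∧ x ≡ β [ZMOD s] := by
  obtain ⟨u, v, huv⟩ := Nat.isCoprime_iff_coprime.2 h
  refine ⟨α * (v * s) + β * (u * r), ?_, ?_⟩
  · rw [Int.modEq_iff_dvd]
    refine ⟨u * α - u * β, ?_⟩
    linear_combination (-α) * huv
  · rw [Int.modEq_iff_dvd]
    refine ⟨v * β - v * α, ?_⟩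
    linear_combination (-β) * huv

lemma modEq_mul {r s : ℕ} (h : Nat.Coprime r s) {x y : ℤ} (h1 : x ≡ y [ZMOD r]) (h2 : x ≡ y [ZMOD s]) :
    x ≡ y [ZMOD ((r * s : ℕ) : ℤ)] := by
  have := (Int.modEq_and_modEq_iff_modEq_mul (a := x) (b := y) (m := (r : ℤ)) (n := (s : ℤ)) (by simpa using h)).1
    ⟨h1, h2⟩
  push_cast
  exact this

lemma gcd_mul_le (x : ℤ) (k q : ℕ) (hk : 1 ≤ k) (hq : 1 ≤ q) : Int.gcd x ((k * q : ℕ) : ℤ) ≤ k * Int.gcd x q := by
  have h1 : Int.gcd x ((k * q : ℕ) : ℤ) ∣ k * Int.gcd x q := by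
    have h2 : k * Int.gcd x q = Int.gcd (k * x) (k * q) := by
      rw [Int.gcd_mul_left]
      simp
    rw [h2, Int.dvd_gcd_iff]
    constructor
    · exact (Int.gcd_dvd_left _ _).mul_left _
    · have := Int.gcd_dvd_right x ((k * q : ℕ) : ℤ)
      push_cast at this ⊢
      exact this
  apply Nat.le_of_dvd _ h1
  apply Nat.mul_pos hk
  apply Int.gcd_pos_of_ne_zero_right
  exact_mod_cast (by omega : q ≠ 0)

lemma gcd_congr' {x y : ℤ} {q : ℕ} (h : x ≡ y [ZMOD q]) : Int.gcd x q = Int.gcd y q := by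
  rw [← Int.gcd_emod x, ← Int.gcd_emod y]
  have h2 : x % q = y % q := h
  rw [h2]

/-- the members of a sum are distributed into residue classes -/
lemma split_mod {M : Type*} [AddCommMonoid M] (S : Finset ℕ) (r : ℕ) (hr : 1 ≤ r) (f : ℕ → M) :
    ∑ b ∈ S, f b = ∑ τ ∈ range r, ∑ b ∈ S.filter (fun b : ℕ => (b : ℤ) ≡ (τ : ℤ) [ZMOD r]), f b := by
  rw [← sum_fiberwise_of_maps_to (s := S) (t := range r) (g := fun b => b % r)
    (fun b _ => mem_range.2 (Nat.mod_lt _ hr))]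
  refine sum_congr rfl fun τ hτ => ?_
  rw [mem_range] at hτ
  apply sum_congr _ fun _ _ => rfl
  apply filter_congr
  intro b _
  constructor
  · intro h
    have h1 : b ≡ τ [MOD r] := by
      unfold Nat.ModEq
      rw [h, Nat.mod_eq_of_lt hτ]
    exact (Int.natCast_modEq_iff).2 h1
  · intro h
    have h1 : b ≡ τ [MOD r] := (Int.natCast_modEq_iff).1 h
    unfold Nat.ModEq at h1
    rwa [Nat.mod_eq_of_lt hτ] at h1

/-- dilation -/
noncomputable def dil (m : ℕ) (F : ℕ → ℂ) (u : ℕ) : ℂ := if m ∣ u then F (u / m) else 0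

lemma dil_sum {m y : ℕ} (hm : 1 ≤ m) (F : ℕ → ℂ) (g : ℕ → ℂ) :
    ∑ u ∈ Icc 1 y, dil m F u * g u = ∑ b ∈ Icc 1 (y / m), F b * g (m * b) := by
  classical
  have hinj : Set.InjOn (fun b => m * b) (Icc 1 (y / m) : Finset ℕ) := by
    intro a _ b _ hab
    exact Nat.eq_of_mul_eq_mul_left hm hab
  have hsub : (Icc 1 (y / m)).image (fun b => m * b) ⊆ Icc 1 y := by
    intro u hu
    rw [mem_image] at hu
    obtain ⟨b, hb, rfl⟩ := hu
    rw [mem_Icc] at hb ⊢
    refine ⟨Nat.mul_pos hm hb.1, ?_⟩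
    calc m * b ≤ m * (y / m) := Nat.mul_le_mul_left m hb.2
      _ ≤ y := Nat.mul_div_le y m
  rw [← sum_subset hsub]
  · rw [sum_image hinj]
    refine sum_congr rfl fun b _ => ?_
    unfold dil
    rw [if_pos (Nat.dvd_mul_right m b), Nat.mul_div_cancel_left b hm]
  · intro u hu hu2
    unfold dil
    rw [if_neg, zero_mul]
    rintro ⟨b, rfl⟩
    apply hu2
    rw [mem_Icc] at hu
    rw [mem_image]
    refine ⟨b, mem_Icc.2 ⟨?_, ?_⟩, rfl⟩
    · rcases Nat.eq_zero_or_pos b with h | h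
      · rw [h] at hu
        omega
      · exact h
    · rw [Nat.le_div_iff_mul_le hm, mul_comm]
      exact hu.2

theorem shq_dil {N B C T K m q : ℕ} {ρ : ℝ} {F : ℕ → ℂ} [NeZero q] (hm : 1 ≤ m) (hqm : Nat.Coprime q m)
    (hN : 1 ≤ N) (hL : 1 ≤ Real.log N) (hmL : (m : ℝ) ≤ Real.log N)
    (hQ : (m : ℝ) * (Real.log N ^ C * q) ≤ (N : ℝ) ^ (7 / 10 - ρ))
    (h : ShAt N ρ (B + C) (C + 1) (T + C + 1) K F) (a : ZMod q)
    (ha : (Nat.gcd a.val q : ℝ) ≤ Real.log N ^ T) : ShQ N B C (K + C + 1) (dil m F) q a := by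
  classical
  intro j hj χ hχ a' ha' η hη y hy _
  obtain ⟨L, hLd⟩ : ∃ L, L = Real.log (N : ℝ) := ⟨_, rfl⟩
  have hL0 : 0 < L := by linarith
  have hL1 : 1 ≤ L := by linarith
  have hN0 : (0 : ℝ) < N := by exact_mod_cast hN
  have hm0 : (0 : ℝ) < m := by exact_mod_cast hm
  have hm1 : (1 : ℝ) ≤ m := by exact_mod_cast hm
  have hq1 : 1 ≤ q := NeZero.pos q
  have hq0 : (0 : ℝ) < q := by exact_mod_cast hq1
  obtain ⟨k, hk⟩ : ∃ k, k = j + 1 := ⟨_, rfl⟩
  subst hk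
  obtain ⟨r, k₂, e, e1, e2, e3⟩ := mpart m (j + 1) (by omega)
  have hr1 : 1 ≤ r := by
    rcases Nat.eq_zero_or_pos r with h3 | h3
    · rw [h3] at e1
      omega
    · exact h3
  have hk2 : 1 ≤ k₂ := by
    rcases Nat.eq_zero_or_pos k₂ with h3 | h3
    · rw [h3] at e1
      omega
    · exact h3
  obtain ⟨Q₀, hQ₀⟩ : ∃ Q₀, Q₀ = k₂ * q := ⟨_, rfl⟩
  have hQr : (j + 1) * q = r * Q₀ := by rw [hQ₀, e1, mul_assoc]
  have hcopm : Nat.Coprime Q₀ m := by rw [hQ₀]; exact Nat.Coprime.mul_left e2 hqm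
  have hcop : Nat.Coprime r Q₀ := by
    apply Nat.Coprime.of_dvd_left e3
    exact (Nat.Coprime.pow_right e hcopm).symm
  have hQ₀1 : 1 ≤ Q₀ := by rw [hQ₀]; exact Nat.mul_pos hk2 hq1
  obtain ⟨Q, hQd⟩ : ∃ Q, Q = (j + 1) * q := ⟨_, rfl⟩
  have hrk : (r : ℝ) ≤ ((j + 1 : ℕ) : ℝ) := by
    have : r ≤ j + 1 := by
      rw [e1]
      exact Nat.le_mul_of_pos_right r hk2
    exact_mod_cast this
  have hrL : (r : ℝ) ≤ L ^ C := by rw [hLd]; exact hrk.trans hj
  obtain ⟨A, hA⟩ : ∃ A : ℤ, A = ((a'.val : ℕ) : ℤ) := ⟨_, rfl⟩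
  have haA : a' = ((A : ℤ) : ZMod ((j + 1) * q)) := by
    rw [hA, Int.cast_natCast, ZMod.natCast_zmod_val]
  -- the inverse of `m`
  obtain ⟨mb, hmb⟩ : ∃ mb : ℤ, (m : ℤ) * mb ≡ 1 [ZMOD Q₀] := by
    obtain ⟨u, v, huv⟩ := Nat.isCoprime_iff_coprime.2 hcopm
    refine ⟨v, ?_⟩
    rw [Int.modEq_iff_dvd]
    exact ⟨u, by linear_combination (-1 : ℤ) * huv⟩
  rw [sum_cl]
  have s1 : ∑ n ∈ Icc 1 y, dil m F n * ee (n * η) * χ (a' - (n : ZMod ((j + 1) * q))) =
      ∑ b ∈ Icc 1 (y / m), F b * (ee (((m * b : ℕ) : ℝ) * η) * χ (a' - ((m * b : ℕ) : ZMod ((j + 1) * q)))) := by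
    rw [← dil_sum hm F (fun u => ee ((u : ℝ) * η) * χ (a' - (u : ZMod ((j + 1) * q))))]
    refine sum_congr rfl fun n _ => ?_
    rw [mul_assoc]
  rw [s1, split_mod (Icc 1 (y / m)) r hr1]
  have s2 : ∀ τ ∈ range r, ‖∑ b ∈ (Icc 1 (y / m)).filter (fun b : ℕ => (b : ℤ) ≡ (τ : ℤ) [ZMOD r]),
      F b * (ee (((m * b : ℕ) : ℝ) * η) * χ (a' - ((m * b : ℕ) : ZMod ((j + 1) * q))))‖ ≤ N / L ^ (B + C) := by
    intro τ _
    obtain ⟨c, hc1, hc2⟩ := crt r Q₀ hcop (τ + 1) (mb * A)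
    obtain ⟨w, hw1, hw2⟩ := crt r Q₀ hcop (A - m * τ) m
    have key : ∀ b : ℕ, (b : ℤ) ≡ (τ : ℤ) [ZMOD r] → χ (a' - ((m * b : ℕ) : ZMod ((j + 1) * q))) =
        χ ((w : ℤ) : ZMod ((j + 1) * q)) * χ (((c : ℤ) : ZMod ((j + 1) * q)) - (b : ZMod ((j + 1) * q))) := by
      intro b hb
      rw [← map_mul]
      congr 1
      have h1 : A - m * b ≡ w * (c - b) [ZMOD ((r * Q₀ : ℕ) : ℤ)] := by
        apply modEq_mul hcop
        · have h2 : w * (c - b) ≡ (A - m * τ) * ((τ + 1) - τ) [ZMOD r] := hw1.mul (hc1.sub hb)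
          have h3 : A - m * b ≡ A - m * τ [ZMOD r] := (Int.ModEq.refl A).sub ((Int.ModEq.refl _).mul hb)
          refine h3.trans ?_
          refine Int.ModEq.trans ?_ h2.symm
          rw [show (A - m * τ) * ((τ + 1) - τ) = A - m * τ by ring]
        · have h2 : w * (c - b) ≡ m * (mb * A - b) [ZMOD Q₀] := hw2.mul (hc2.sub (Int.ModEq.refl _))
          refine Int.ModEq.trans ?_ h2.symm
          have h3 : (m : ℤ) * (mb * A - b) = (m * mb) * A - m * b := by ring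
          rw [h3]
          have h4 : (m * mb) * A ≡ 1 * A [ZMOD Q₀] := hmb.mul (Int.ModEq.refl _)
          rw [one_mul] at h4
          exact (h4.sub (Int.ModEq.refl _)).symm
      rw [← hQr] at h1
      have h2 := (ZMod.intCast_eq_intCast_iff _ _ _).2 h1
      rw [haA]
      push_cast at h2 ⊢
      exact h2
    have s3 : ∑ b ∈ (Icc 1 (y / m)).filter (fun b : ℕ => (b : ℤ) ≡ (τ : ℤ) [ZMOD r]),
        F b * (ee (((m * b : ℕ) : ℝ) * η) * χ (a' - ((m * b : ℕ) : ZMod ((j + 1) * q)))) =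
        χ ((w : ℤ) : ZMod ((j + 1) * q)) *
        ∑ b ∈ (Icc 1 (y / m)).filter (fun b : ℕ => (b : ℤ) ≡ (τ : ℤ) [ZMOD r]),
          F b * ee (b * (m * η)) * χ (((c : ℤ) : ZMod ((j + 1) * q)) - (b : ZMod ((j + 1) * q))) := by
      rw [mul_sum]
      refine sum_congr rfl fun b hb => ?_
      rw [key b (mem_filter.1 hb).2]
      have : ((m * b : ℕ) : ℝ) * η = b * (m * η) := by push_cast; ring
      rw [this]
      ring
    rw [s3, norm_mul]
    have hdvd : r ∣ (j + 1) * q := by rw [hQr]; exact Nat.dvd_mul_right _ _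
    have s4 := block (M := (j + 1) * q) (R := r) h (by
        have e5 : (((j + 1) * q : ℕ) : ℝ) ≤ m * (Real.log N ^ C * q) := by
          rw [Nat.cast_mul]
          calc ((j + 1 : ℕ) : ℝ) * q ≤ Real.log N ^ C * q := by gcongr
            _ ≤ m * (Real.log N ^ C * q) := le_mul_of_one_le_left (by positivity) hm1
        exact e5.trans hQ) hdvd (by linarith) χ (by
        refine lt_of_le_of_lt ?_ hχ
        rw [← hLd]
        calc L ^ K * r ≤ L ^ K * L ^ C := by gcongr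
          _ = L ^ (K + C) := (pow_add _ _ _).symm
          _ ≤ L ^ (K + C + 1) := pow_le_pow_right₀ hL1 (by omega)) c (by
        rw [← hLd]
        have g1 : Int.gcd c (((j + 1) * q : ℕ) : ℤ) ≤ r * (k₂ * Int.gcd A q) := by
          rw [hQr]
          refine (gcd_mul_le c r Q₀ hr1 hQ₀1).trans ?_
          apply Nat.mul_le_mul_left
          have g2 : Int.gcd c Q₀ = Int.gcd (mb * A) Q₀ := gcd_congr' hc2
          rw [g2]
          have g3 : IsCoprime mb (Q₀ : ℤ) := by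
            rw [Int.modEq_iff_dvd] at hmb
            obtain ⟨u, hu⟩ := hmb
            exact ⟨m, u, by linear_combination (-1 : ℤ) * hu⟩
          have g4 : Int.gcd (mb * A) Q₀ = Int.gcd A Q₀ := by
            have g5 : Int.gcd mb Q₀ = 1 := Int.isCoprime_iff_gcd_eq_one.1 g3
            rw [Int.gcd_mul_right_left_of_gcd_eq_one g5]
          rw [g4, hQ₀]
          exact gcd_mul_le A k₂ q hk2 hq1
        have g6 : Int.gcd A q = Nat.gcd a.val q := by
          rw [← gcd_val (M := q) A]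
          congr 2
          rw [hA, Int.cast_natCast]
          exact ha'
        rw [g6] at g1
        have g7 : r * (k₂ * Nat.gcd a.val q) = (j + 1) * Nat.gcd a.val q := by rw [e1, mul_assoc]
        rw [g7] at g1
        calc ((Int.gcd c (((j + 1) * q : ℕ) : ℤ) : ℕ) : ℝ) ≤ (((j + 1) * Nat.gcd a.val q : ℕ) : ℝ) := by
              exact_mod_cast g1
          _ = ((j + 1 : ℕ) : ℝ) * (Nat.gcd a.val q : ℝ) := by rw [Nat.cast_mul]
          _ ≤ L ^ C * L ^ T := by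
              rw [hLd]
              exact mul_le_mul hj ha (Nat.cast_nonneg _) (by positivity)
          _ = L ^ (T + C) := by rw [← pow_add, add_comm]
          _ ≤ L ^ (T + C + 1) := pow_le_pow_right₀ hL1 (by omega)) τ hc1 (m * η) (by
        rw [abs_mul, abs_of_pos hm0, pow_succ]
        calc (m : ℝ) * |η| ≤ Real.log N * (Real.log N ^ C / N) :=
              mul_le_mul hmL hη (abs_nonneg _) (by linarith)
          _ = Real.log N ^ C * Real.log N / N := by ring) (y / m) ((Nat.div_le_self y m).trans hy)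
    rw [← hLd] at s4
    calc _ ≤ 1 * (N / L ^ (B + C)) := by
          apply mul_le_mul (χ.norm_le_one _) _ (norm_nonneg _) zero_le_one
          exact s4
      _ = _ := one_mul _
  refine (norm_sum_le _ _).trans ((sum_le_sum s2).trans ?_)
  rw [sum_const, card_range, nsmul_eq_mul, ← hLd]
  calc (r : ℝ) * (N / L ^ (B + C)) ≤ L ^ C * (N / L ^ (B + C)) := by gcongr
    _ = N / L ^ B := by
        rw [pow_add]
        field_simp

end Pool.Agent.T2h83.GD
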