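import Pool.Agent.N136.OW.SV
import Pool.Agent.N75.OW.SG
import Pool.Agent.T2h83.GD.LeastM

/-!
Project GD (helper83): the primes `p` for which `2 p + h` and `4 p + 3 h` are primes are few in every window.
-/

set_option autoImplicit false

namespace Pool.Agent.T2h83.GD

open Finset

/-- one root -/
lemma root_card (l a b : ℕ) (hl : l.Prime) (ha : ¬ l ∣ a) :
    ((range l).filter (fun n => l ∣ a * n + b)).card = 1 := by
  haveI : Fact l.Prime := ⟨hl⟩
  rw [card_eq_one]
  have ha' : (a : ZMod l) ≠ 0 := by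
    rw [Ne, ZMod.natCast_eq_zero_iff]
    exact ha
  refine ⟨((-(b : ZMod l)) * (a : ZMod l)⁻¹).val, ?_⟩
  ext n
  rw [mem_filter, mem_range, mem_singleton, ← ZMod.natCast_eq_zero_iff]
  push_cast
  constructor
  · rintro ⟨h1, h2⟩
    have h3 : (n : ZMod l) = (-(b : ZMod l)) * (a : ZMod l)⁻¹ := by
      rw [eq_mul_inv_iff_mul_eq₀ ha']
      linear_combination h2
    rw [← h3, ZMod.val_natCast, Nat.mod_eq_of_lt h1]
  · rintro rfl
    refine ⟨ZMod.val_lt _, ?_⟩
    rw [ZMod.natCast_val, ZMod.cast_id', id]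
    field_simp
    ring

/-- the three roots -/
def rts (h u l : ℕ) : Finset ℕ :=
  (range l).filter (fun n => l ∣ (n + u) ∨ l ∣ 2 * (n + u) + h ∨ l ∣ 4 * (n + u) + 3 * h)

lemma rts_eq (h u l : ℕ) : rts h u l = (range l).filter (fun n => l ∣ 1 * n + u) ∪
    ((range l).filter (fun n => l ∣ 2 * n + (2 * u + h)) ∪ (range l).filter (fun n => l ∣ 4 * n + (4 * u + 3 * h))) := by
  ext n
  unfold rts
  rw [mem_union, mem_union, mem_filter, mem_filter, mem_filter, mem_filter]
  have e1 : 1 * n + u = n + u := by ring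
  have e2 : 2 * n + (2 * u + h) = 2 * (n + u) + h := by ring
  have e3 : 4 * n + (4 * u + 3 * h) = 4 * (n + u) + 3 * h := by ring
  rw [e1, e2, e3]
  tauto

lemma prime_not_dvd {l : ℕ} (hl : l.Prime) (h9 : 9 < l) {a : ℕ} (ha : a ≤ 4) (ha0 : 0 < a) : ¬ l ∣ a := by
  intro h
  have := Nat.le_of_dvd ha0 h
  omega

lemma rts_le (h u l : ℕ) (hl : l.Prime) (h9 : 9 < l) : (rts h u l).card ≤ 3 := by
  rw [rts_eq]
  refine (card_union_le _ _).trans ?_
  have h1 := root_card l 1 u hl (prime_not_dvd hl h9 (by norm_num) (by norm_num))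
  have h2 := root_card l 2 (2 * u + h) hl (prime_not_dvd hl h9 (by norm_num) (by norm_num))
  have h3 := root_card l 4 (4 * u + 3 * h) hl (prime_not_dvd hl h9 (by norm_num) (by norm_num))
  have h4 := card_union_le ((range l).filter (fun n => l ∣ 2 * n + (2 * u + h)))
    ((range l).filter (fun n => l ∣ 4 * n + (4 * u + 3 * h)))
  omega

lemma rts_three (h u l : ℕ) (hl : l.Prime) (h9 : 9 < l) (hd : ¬ l ∣ h) : (rts h u l).card = 3 := by
  have hodd : Nat.Coprime l 2 := by
    rw [Nat.Prime.coprime_iff_not_dvd hl]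
    exact prime_not_dvd hl h9 (by norm_num) (by norm_num)
  have key : ∀ n : ℕ, ¬ (l ∣ n + u ∧ l ∣ 2 * (n + u) + h) ∧ ¬ (l ∣ n + u ∧ l ∣ 4 * (n + u) + 3 * h) ∧
      ¬ (l ∣ 2 * (n + u) + h ∧ l ∣ 4 * (n + u) + 3 * h) := by
    intro n
    refine ⟨?_, ?_, ?_⟩
    · rintro ⟨h1, h2⟩
      exact hd ((Nat.dvd_add_right (h1.mul_left 2)).1 h2)
    · rintro ⟨h1, h2⟩
      have h3 : l ∣ 3 * h := (Nat.dvd_add_right (h1.mul_left 4)).1 h2
      rcases (Nat.Prime.dvd_mul hl).1 h3 with h4 | h4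
      · exact prime_not_dvd hl h9 (by norm_num) (by norm_num) h4
      · exact hd h4
    · rintro ⟨h1, h2⟩
      have h3 : 4 * (n + u) + 3 * h = 2 * (2 * (n + u) + h) + h := by ring
      rw [h3] at h2
      exact hd ((Nat.dvd_add_right (h1.mul_left 2)).1 h2)
  rw [rts_eq, card_union_of_disjoint, card_union_of_disjoint,
    root_card l 1 u hl (prime_not_dvd hl h9 (by norm_num) (by norm_num)),
    root_card l 2 (2 * u + h) hl (prime_not_dvd hl h9 (by norm_num) (by norm_num)),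
    root_card l 4 (4 * u + 3 * h) hl (prime_not_dvd hl h9 (by norm_num) (by norm_num))]
  · rw [disjoint_left]
    intro n h1 h2
    rw [mem_filter] at h1 h2
    have e2 : 2 * n + (2 * u + h) = 2 * (n + u) + h := by ring
    have e3 : 4 * n + (4 * u + 3 * h) = 4 * (n + u) + 3 * h := by ring
    rw [e2] at h1
    rw [e3] at h2
    exact (key n).2.2 ⟨h1.2, h2.2⟩
  · rw [disjoint_left]
    intro n h1 h2
    rw [mem_union, mem_filter, mem_filter] at h2
    rw [mem_filter] at h1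
    have e1 : 1 * n + u = n + u := by ring
    have e2 : 2 * n + (2 * u + h) = 2 * (n + u) + h := by ring
    have e3 : 4 * n + (4 * u + 3 * h) = 4 * (n + u) + 3 * h := by ring
    rw [e1] at h1
    rw [e2, e3] at h2
    rcases h2 with h2 | h2
    · exact (key n).1 ⟨h1.2, h2.2⟩
    · exact (key n).2.1 ⟨h1.2, h2.2⟩

/-- the exponent in the sieve bound -/
lemma rts_sum (h u N : ℕ) (h0 : 0 < h) :
    ∑ l ∈ (Ioc 9 N).filter Nat.Prime, ((3 : ℕ) - ((rts h u l).card : ℝ)) / l ≤ 3 * ∑ l ∈ h.primeFactors, (1 : ℝ) / l := by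
  have h1 : ∀ l ∈ (Ioc 9 N).filter Nat.Prime, ((3 : ℕ) - ((rts h u l).card : ℝ)) / l ≤
      if l ∈ h.primeFactors then 3 * ((1 : ℝ) / l) else 0 := by
    intro l hl
    rw [mem_filter, mem_Ioc] at hl
    obtain ⟨⟨h2, -⟩, h3⟩ := hl
    have hl0 : (0 : ℝ) < l := by exact_mod_cast h3.pos
    split_ifs with h4
    · rw [mul_one_div]
      apply div_le_div_of_nonneg_right _ hl0.le
      have : (0 : ℝ) ≤ ((rts h u l).card : ℝ) := Nat.cast_nonneg _
      push_cast
      linarith
    · have h5 : ¬ l ∣ h := fun h5 => h4 (Nat.mem_primeFactors.2 ⟨h3, h5, h0.ne'⟩)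
      rw [rts_three h u l h3 h2 h5]
      simp
  refine (sum_le_sum h1).trans ?_
  rw [← sum_filter, mul_sum]
  apply sum_le_sum_of_subset_of_nonneg
  · intro l hl
    exact (mem_filter.1 hl).2
  · intro l _ _
    positivity

/-- the sum of the reciprocals of the prime factors -/
lemma inv_primeFactors : ∃ C : ℝ, 0 ≤ C ∧ ∀ h w : ℕ, 0 < h → 2 ≤ w → Real.log h ≤ 4 * w →
    ∑ l ∈ h.primeFactors, (1 : ℝ) / l ≤ Real.log (Real.log w) + C := by
  obtain ⟨C, hC0, hC⟩ := Pool.Agent.N136.OW.mert2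
  refine ⟨C + 8, by linarith, fun h w h0 hw hlog => ?_⟩
  have hw0 : (0 : ℝ) < w := by exact_mod_cast (by omega : 0 < w)
  have h1 : ∑ l ∈ h.primeFactors, (1 : ℝ) / l ≤ ∑ l ∈ (Icc 1 w).filter Nat.Prime, (1 : ℝ) / l +
      ∑ l ∈ h.primeFactors, (1 : ℝ) / w := by
    have h2 : ∑ l ∈ h.primeFactors, (1 : ℝ) / l ≤
        ∑ l ∈ h.primeFactors, ((if l ≤ w then (1 : ℝ) / l else 0) + 1 / w) := by
      apply sum_le_sum
      intro l hl
      have hl0 : 0 < l := Nat.pos_of_mem_primeFactors hl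
      split_ifs with h3
      · have : (0 : ℝ) ≤ 1 / w := by positivity
        linarith
      · rw [zero_add]
        apply one_div_le_one_div_of_le hw0
        exact_mod_cast (by omega : w ≤ l)
    refine h2.trans ?_
    rw [sum_add_distrib]
    apply add_le_add _ le_rfl
    rw [← sum_filter]
    apply sum_le_sum_of_subset_of_nonneg
    · intro l hl
      rw [mem_filter] at hl
      rw [mem_filter, mem_Icc]
      exact ⟨⟨Nat.pos_of_mem_primeFactors hl.1, hl.2⟩, Nat.prime_of_mem_primeFactors hl.1⟩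
    · intro l _ _
      positivity
  have h2 := (abs_le.1 (hC w hw)).2
  have h3 : ∑ l ∈ h.primeFactors, (1 : ℝ) / w ≤ 8 := by
    rw [sum_const, nsmul_eq_mul, mul_one_div, div_le_iff₀ hw0]
    have h4 : 2 ^ h.primeFactors.card ≤ h := by
      calc 2 ^ h.primeFactors.card = ∏ _l ∈ h.primeFactors, 2 := by rw [prod_const]
        _ ≤ ∏ l ∈ h.primeFactors, l := prod_le_prod' fun l hl => (Nat.prime_of_mem_primeFactors hl).two_le
        _ ≤ h := Nat.le_of_dvd h0 (Nat.prod_primeFactors_dvd h)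
    have h5 : (h.primeFactors.card : ℝ) * Real.log 2 ≤ Real.log h := by
      rw [← Real.log_pow]
      apply Real.log_le_log (by positivity)
      exact_mod_cast h4
    have h6 := Real.log_two_gt_d9
    have h7 : (0 : ℝ) ≤ h.primeFactors.card := Nat.cast_nonneg _
    nlinarith
  linarith

/-- the primes `p` in a window for which `2 p + h` and `4 p + 3 h` are primes -/
def cntT (h u v : ℕ) : ℕ :=
  ((Ioc u v).filter (fun p => p.Prime ∧ (2 * p + h).Prime ∧ (4 * p + 3 * h).Prime)).card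

/-- the upper bound sieve for the triples -/
lemma trip_sieve : ∃ K : ℝ, 1 ≤ K ∧ ∃ N₀ : ℕ, ∀ N : ℕ, N₀ ≤ N → ∀ h u w : ℕ, 0 < h → 2 ≤ w → Real.log h ≤ 4 * w →
    (cntT h u (u + N) : ℝ) ≤ K * (Real.log w ^ 3 * N / Real.log N ^ 3) + (N : ℝ) ^ (1 / 3 : ℝ) := by
  obtain ⟨C, hC1, hSV⟩ := Pool.Agent.N136.OW.sv2 Pool.Agent.N75.OW.sg
  obtain ⟨D, hD1, hSV⟩ := hSV C le_rfl
  obtain ⟨M, hM0, hM⟩ := inv_primeFactors
  obtain ⟨N₁, hN₁⟩ := exists_nat_ge (Real.exp (C * 3 * Real.log 9))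
  refine ⟨D ^ 3 * Real.exp (3 * M) * (3 * Real.log 9) ^ 3 + 1, ?_, N₁ + 2, fun N hN h u w h0 hw hlog => ?_⟩
  · have : 0 < Real.log 9 := Real.log_pos (by norm_num)
    have : 0 ≤ D ^ 3 * Real.exp (3 * M) * (3 * Real.log 9) ^ 3 := by positivity
    linarith
  have hN2 : 2 ≤ N := by omega
  have hNr : (2 : ℝ) ≤ N := by exact_mod_cast hN2
  have hN0 : (0 : ℝ) < N := by linarith
  have hlogN : 0 < Real.log N := Real.log_pos (by linarith)
  have hlog9 : 0 < Real.log 9 := Real.log_pos (by norm_num)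
  have hCN : C * 3 * Real.log 9 ≤ Real.log N := by
    rw [← Real.log_exp (C * 3 * Real.log 9)]
    apply Real.log_le_log (Real.exp_pos _)
    refine hN₁.trans ?_
    exact_mod_cast (by omega : N₁ ≤ N)
  obtain ⟨z, hz⟩ : ∃ z : ℝ, z = (N : ℝ) ^ (1 / 3 : ℝ) := ⟨_, rfl⟩
  have hz0 : 0 < z := by rw [hz]; positivity
  have hlogz : Real.log z = 1 / 3 * Real.log N := by rw [hz, Real.log_rpow hN0]
  -- the set
  obtain ⟨A, hA⟩ : ∃ A : Finset ℕ, A = (Icc 1 N).filter (fun n => z < ((n + u : ℕ) : ℝ) ∧ (n + u).Prime ∧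
    (2 * (n + u) + h).Prime ∧ (4 * (n + u) + 3 * h).Prime) := ⟨_, rfl⟩
  have h1 := hSV 3 N 9 (3 * ∑ l ∈ h.primeFactors, (1 : ℝ) / l) (rts h u) A (by norm_num) (by norm_num) (by norm_num)
    (by push_cast; exact hCN) (by rw [hA]; exact filter_subset _ _)
    (fun l hl h9 => ⟨filter_subset _ _, rts_le h u l hl h9⟩)
    (by
      intro n hn l hl h9 hlN hmem
      rw [hA, mem_filter] at hn
      obtain ⟨h2, h3, h4, h5, h6⟩ := hn
      have hlz : (l : ℝ) ≤ z := by
        have hl0 : (0 : ℝ) < l := by exact_mod_cast hl.pos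
        rw [← Real.log_le_log_iff hl0 hz0, hlogz]
        have hl1 : 0 ≤ Real.log l := Real.log_nonneg (by exact_mod_cast hl.one_le)
        push_cast at hlN
        nlinarith
      have hln : l < n + u := by
        have : (l : ℝ) < ((n + u : ℕ) : ℝ) := lt_of_le_of_lt hlz h3
        exact_mod_cast this
      unfold rts at hmem
      rw [mem_filter] at hmem
      have hmod : n % l ≡ n [MOD l] := Nat.mod_modEq n l
      rcases hmem.2 with h7 | h7 | h7
      · have h8 : l ∣ n + u := ((hmod.add_right u).dvd_iff (dvd_refl l)).1 h7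
        have := (Nat.prime_dvd_prime_iff_eq hl h4).1 h8
        omega
      · have h8 : l ∣ 2 * (n + u) + h :=
          ((((hmod.add_right u).mul_left 2).add_right h).dvd_iff (dvd_refl l)).1 h7
        have := (Nat.prime_dvd_prime_iff_eq hl h5).1 h8
        omega
      · have h8 : l ∣ 4 * (n + u) + 3 * h :=
          ((((hmod.add_right u).mul_left 4).add_right (3 * h)).dvd_iff (dvd_refl l)).1 h7
        have := (Nat.prime_dvd_prime_iff_eq hl h6).1 h8
        omega)
    (rts_sum h u N h0)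
  -- the exponential factor
  have h2 : Real.exp (3 * ∑ l ∈ h.primeFactors, (1 : ℝ) / l) ≤ Real.exp (3 * M) * Real.log w ^ 3 := by
    have h3 := hM h w h0 hw hlog
    have hlw : 0 < Real.log w := Real.log_pos (by exact_mod_cast (by omega : 1 < w))
    calc Real.exp (3 * ∑ l ∈ h.primeFactors, (1 : ℝ) / l) ≤ Real.exp (3 * (Real.log (Real.log w) + M)) := by
          apply Real.exp_le_exp.2
          linarith
      _ = Real.exp (3 * M) * Real.exp (Real.log (Real.log w)) ^ 3 := by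
          rw [← Real.exp_nat_mul, ← Real.exp_add]
          congr 1
          push_cast
          ring
      _ = Real.exp (3 * M) * Real.log w ^ 3 := by rw [Real.exp_log hlw]
  have hlw3 : 0 ≤ Real.log w ^ 3 := by
    have : 0 ≤ Real.log w := Real.log_nonneg (by exact_mod_cast (by omega : 1 ≤ w))
    positivity
  have h3 : (A.card : ℝ) ≤ (D ^ 3 * Real.exp (3 * M) * (3 * Real.log 9) ^ 3) * (Real.log w ^ 3 * N / Real.log N ^ 3) := by
    refine h1.trans ?_
    have h4 : (((3 : ℕ) : ℝ) * Real.log ((9 : ℕ) : ℝ) / Real.log N) ^ 3 = (3 * Real.log 9) ^ 3 / Real.log N ^ 3 := by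
      push_cast
      rw [div_pow]
    rw [h4]
    calc D ^ 3 * Real.exp (3 * ∑ l ∈ h.primeFactors, (1 : ℝ) / l) * ((3 * Real.log 9) ^ 3 / Real.log N ^ 3) * N ≤
        D ^ 3 * (Real.exp (3 * M) * Real.log w ^ 3) * ((3 * Real.log 9) ^ 3 / Real.log N ^ 3) * N := by
          have h5 : 0 ≤ D ^ 3 := by positivity
          gcongr
      _ = _ := by ring
  -- the small primes
  have h4 : cntT h u (u + N) ≤ A.card + ⌊z⌋₊ := by
    unfold cntT
    have h5 : (Ioc u (u + N)).filter (fun p => p.Prime ∧ (2 * p + h).Prime ∧ (4 * p + 3 * h).Prime) ⊆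
        A.image (fun n => n + u) ∪ Icc 1 ⌊z⌋₊ := by
      intro p hp
      rw [mem_filter, mem_Ioc] at hp
      obtain ⟨⟨h6, h7⟩, h8, h9, h10⟩ := hp
      rw [mem_union, mem_image, mem_Icc]
      by_cases h11 : z < (p : ℝ)
      · left
        refine ⟨p - u, ?_, by omega⟩
        have e : p - u + u = p := by omega
        rw [hA, mem_filter, mem_Icc, e]
        exact ⟨⟨by omega, by omega⟩, h11, h8, h9, h10⟩
      · right
        exact ⟨h8.one_le, Nat.le_floor (not_lt.1 h11)⟩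
    refine (card_le_card h5).trans ((card_union_le _ _).trans ?_)
    rw [Nat.card_Icc, Nat.add_sub_cancel]
    exact Nat.add_le_add_right card_image_le _
  have h5 : (cntT h u (u + N) : ℝ) ≤ A.card + z := by
    have h6 : (cntT h u (u + N) : ℝ) ≤ A.card + (⌊z⌋₊ : ℝ) := by exact_mod_cast h4
    have h7 := Nat.floor_le hz0.le
    linarith
  rw [← hz]
  have h6 : 0 ≤ Real.log w ^ 3 * N / Real.log N ^ 3 := by positivity
  nlinarith

end Pool.Agent.T2h83.GD
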