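import Pool.Agent.R460.GP.Win
import Pool.Agent.T2h83.AM.Lin1
import Pool.Agent.T2h83.GD.Grid

set_option autoImplicit false

/-! Local densities of the pair of forms `b`, `m b + n`. -/

namespace Pool.Agent.T2h83.GD

open Finset
open Pool.Agent.H373R2.T7
open Pool.Agent.H560R3.GB (sing)
open Pool.Agent.W93.GB
open Pool.Agent.W93.PP (MT MT_sing MT_one MT_le Cnt PS mem_PS ap_main)
open Pool.Agent.W93.PG (lamz_nn)
open Pool.Agent.T2h83.AM (nuL FpL sgL main_L root_card)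

/-- the classes -/
def QB (m n p b : ℕ) : Prop := p ∣ b ∨ p ∣ m * b + n

lemma QB_per (m n p b : ℕ) : QB m n p b ↔ QB m n p (b % p) := by
  unfold QB
  rw [Nat.dvd_mod_iff (dvd_refl p)]
  have h : (p ∣ m * b + n ↔ p ∣ m * (b % p) + n) := by
    rw [← ZMod.natCast_eq_zero_iff, ← ZMod.natCast_eq_zero_iff]
    push_cast
    rw [ZMod.natCast_mod]
  rw [h]

open Classical in
lemma card_QB {m n p : ℕ} (hp : p.Prime) (hc : Nat.Coprime n m) :
    ((range p).filter (fun b => p ∣ b ∨ p ∣ m * b + n)).card = if p ∣ m * n then 1 else 2 := by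
  have hp0 := hp.pos
  have : Fact p.Prime := ⟨hp⟩
  by_cases h : p ∣ m * n
  · rw [if_pos h]
    have h1 : (range p).filter (fun b => p ∣ b ∨ p ∣ m * b + n) = {0} := by
      ext b
      rw [mem_filter, mem_range, mem_singleton]
      constructor
      · rintro ⟨h2, h3 | h3⟩
        · exact Nat.eq_zero_of_dvd_of_lt h3 h2
        · rcases (Nat.Prime.dvd_mul hp).1 h with h4 | h4
          · exfalso
            have h5 : p ∣ n := (Nat.dvd_add_right (h4.mul_right b)).1 h3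
            have h6 := Nat.dvd_gcd h5 h4
            rw [hc] at h6
            exact hp.one_lt.ne' (Nat.dvd_one.1 h6)
          · have h5 : p ∣ m * b := (Nat.dvd_add_left h4).1 h3
            rcases (Nat.Prime.dvd_mul hp).1 h5 with h6 | h6
            · exfalso
              have h7 := Nat.dvd_gcd h4 h6
              rw [hc] at h7
              exact hp.one_lt.ne' (Nat.dvd_one.1 h7)
            · exact Nat.eq_zero_of_dvd_of_lt h6 h2
      · rintro rfl
        exact ⟨hp0, Or.inl (dvd_zero _)⟩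
    rw [h1, card_singleton]
  · rw [if_neg h]
    have hpm : ¬ p ∣ m := fun h1 => h (h1.mul_right n)
    have hpn : ¬ p ∣ n := fun h1 => h (h1.mul_left m)
    have hm0 : (m : ZMod p) ≠ 0 := by rw [Ne, ZMod.natCast_eq_zero_iff]; exact hpm
    have hn0 : (n : ZMod p) ≠ 0 := by rw [Ne, ZMod.natCast_eq_zero_iff]; exact hpn
    obtain ⟨x, hx⟩ : ∃ x : ZMod p, x = -((n : ZMod p) * (m : ZMod p)⁻¹) := ⟨_, rfl⟩
    have hx0 : x ≠ 0 := by
      rw [hx, neg_ne_zero]
      exact mul_ne_zero hn0 (inv_ne_zero hm0)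
    have h1 : (range p).filter (fun b => p ∣ b ∨ p ∣ m * b + n) = {0, x.val} := by
      ext b
      rw [mem_filter, mem_range, mem_insert, mem_singleton]
      constructor
      · rintro ⟨h2, h3 | h3⟩
        · exact Or.inl (Nat.eq_zero_of_dvd_of_lt h3 h2)
        · right
          rw [← ZMod.natCast_eq_zero_iff] at h3
          push_cast at h3
          have h4 : (b : ZMod p) = x := by
            rw [hx]
            field_simp
            linear_combination h3
          rw [← h4, ZMod.val_natCast_of_lt h2]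
      · rintro (h2 | h2)
        · rw [h2]
          exact ⟨hp0, Or.inl (dvd_zero _)⟩
        · rw [h2]
          refine ⟨ZMod.val_lt x, Or.inr ?_⟩
          rw [← ZMod.natCast_eq_zero_iff]
          push_cast
          rw [ZMod.natCast_zmod_val, hx]
          field_simp
          ring
    rw [h1, card_pair]
    intro h2
    apply hx0
    have := (ZMod.val_eq_zero x).1 h2.symm
    exact this

lemma nu_QB {m n p : ℕ} (hp : p.Prime) (hc : Nat.Coprime n m) : nuB (QB m n) p = if p ∣ m * n then 1 else 2 := by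
  classical
  have h := card_QB hp hc
  unfold nuB QB
  convert h

lemma QB_perB {m n : ℕ} (hc : Nat.Coprime n m) : PerB (QB m n) 2 := by
  refine ⟨fun p b => QB_per m n p b, fun p hp => ?_⟩
  rw [nu_QB hp hc]
  split_ifs <;> norm_num

lemma QB_prod {m n : ℕ} (hc : Nat.Coprime n m) (z : ℕ) : ∏ p ∈ pz z, (1 - (nuB (QB m n) p : ℝ) / p) =
    Vz z * ∏ p ∈ PS z 1 (m * n), (1 - 1 / ((p : ℝ) - 1)) := by
  rw [← Pool.Agent.R460.GS.QM_prod (m * n) z]
  refine prod_congr rfl fun p hp => ?_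
  have hpp := (mem_pz.1 hp).2
  rw [nu_QB hpp hc, Pool.Agent.R460.GS.nu_QM hpp]

lemma sgL_MT {m n : ℕ} (hc : Nat.Coprime n m) (z : ℕ) :
    sgL (fun _ : Fin 1 => m) (fun _ : Fin 1 => n) z = MT z 1 (m * n) := by
  classical
  have hVp := Vz_pos z
  have h1 : sgL (fun _ : Fin 1 => m) (fun _ : Fin 1 => n) z =
      (∏ p ∈ pz z, (1 - (nuB (QB m n) p : ℝ) / p)) * ((Vz z)⁻¹) ^ 2 := by
    unfold sgL FpL Vz
    rw [← prod_inv_distrib, ← prod_pow, ← prod_mul_distrib]
    apply prod_congr rfl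
    intro p hp
    have hpp := (mem_pz.1 hp).2
    have h2 : nuL (fun _ : Fin 1 => m) (fun _ : Fin 1 => n) p = nuB (QB m n) p := by
      rw [nu_QB hpp hc, ← card_QB hpp hc]
      unfold nuL
      congr 1
      apply filter_congr
      intro b _
      simp
    rw [h2, div_eq_mul_inv, ← inv_pow]
  rw [h1, QB_prod hc]
  unfold MT
  rw [Nat.totient_one, Nat.cast_one, div_one]
  field_simp

/-- the singular series -/
lemma sing_modelM (m : ℕ) (hm : 1 ≤ m) (V E1 : ℕ) (hE1 : V + 6 ≤ E1) : ∃ X0 : ℕ, ∀ X : ℕ, X0 ≤ X → ∀ n : ℕ, n ≤ X →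
    2 ∣ m * n → n ≠ 0 → ∀ z : ℕ, Real.log X ^ E1 ≤ z → (z : ℝ) ≤ Real.log X ^ (E1 + 1) →
      |MT z 1 (m * n) - sing (m * n)| ≤ 1 / Real.log X ^ (V + 2) ∧ 0 ≤ sing (m * n) ∧
      sing (m * n) ≤ 2 * Real.log X ∧ (Vz z)⁻¹ ≤ Real.log X ∧ 1 ≤ z := by
  obtain ⟨n2, h2⟩ := ev_L' (100 + 3 * m)
  obtain ⟨n3, h3⟩ := Vz_inv_small (E1 + 1)
  refine ⟨n2 + n3 + 4, fun X hX n hnX h2m hn0 z hz1 hz2 => ?_⟩
  have hL := h2 X (by omega)
  have hV := h3 X (by omega) z
  have hX4 : 4 ≤ X := by omega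
  have hXr : (4 : ℝ) ≤ X := by exact_mod_cast hX4
  obtain ⟨L, hLd⟩ : ∃ L, L = Real.log (X : ℝ) := ⟨_, rfl⟩
  rw [← hLd] at hL hV hz1 hz2 ⊢
  have hm1 : (1 : ℝ) ≤ m := by exact_mod_cast hm
  have hL100 : 100 ≤ L := by linarith
  have hL1 : 1 ≤ L := by linarith
  have hL0 : 0 < L := by linarith
  have hz0 : (1 : ℝ) ≤ z := (one_le_pow₀ hL1).trans hz1
  have hzn : 1 ≤ z := by exact_mod_cast hz0
  have hV' := hV hzn hz2
  have hcnt : Cnt 1 (m * n) = 1 := by
    unfold Cnt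
    rw [range_one, filter_singleton, if_pos (by simp), card_singleton]
  have hmn0 : m * n ≠ 0 := Nat.mul_ne_zero (by omega) hn0
  have hlogh : (Nat.log 2 (m * n) : ℝ) ≤ 2 * L := by
    have h4 : (2 : ℝ) ^ Nat.log 2 (m * n) ≤ (m * X : ℝ) := by
      have h5 : 2 ^ Nat.log 2 (m * n) ≤ m * X := (Nat.pow_log_le_self 2 hmn0).trans (Nat.mul_le_mul_left m hnX)
      exact_mod_cast h5
    have h6 := Real.log_le_log (by positivity) h4
    rw [Real.log_pow, Real.log_mul (by positivity) (by positivity), ← hLd] at h6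
    have h7 := Real.log_two_gt_d9
    have h8 : Real.log m ≤ m := (Real.log_le_sub_one_of_pos (by linarith)).trans (by linarith)
    have h9 : (0 : ℝ) ≤ (Nat.log 2 (m * n) : ℝ) := Nat.cast_nonneg _
    nlinarith
  have hzL : 8 * L ^ (V + 4) ≤ z := by
    refine le_trans ?_ hz1
    calc 8 * L ^ (V + 4) ≤ L * L ^ (V + 4) := mul_le_mul_of_nonneg_right (by linarith) (by positivity)
      _ = L ^ (V + 5) := by ring
      _ ≤ L ^ E1 := pow_le_pow_right₀ hL1 (by omega)
  have hz8L : 8 * L ≤ z := by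
    refine le_trans ?_ hzL
    have : L ≤ L ^ (V + 4) := le_self_pow₀ hL1 (by omega)
    linarith
  obtain ⟨m1, m2, m3⟩ := MT_sing z 1 (m * n) L hL1 le_rfl hzn h2m hmn0 (by rw [hcnt]; exact Nat.one_pos) hV' hlogh hz8L
  rw [hcnt, Nat.cast_one, div_one] at m1 m2 m3
  refine ⟨m1.trans ?_, m2, m3, hV', hzn⟩
  rw [div_le_div_iff₀ (by linarith) (by positivity)]
  calc 8 * L ^ 2 * L ^ (V + 2) = 8 * L ^ (V + 4) := by ring
    _ ≤ 1 * z := by linarith

open Classical in
lemma lam2_sumM (z m n y : ℕ) :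
    ∑ b ∈ Icc 1 y, lamz z b * lamz z (m * b + n) =
    (Vz z)⁻¹ ^ 2 * (((Icc 1 y).filter (fun b : ℕ => ∀ p ∈ pz z, ¬ QB m n p b)).card : ℝ) := by
  rw [card_eq_sum_ones, Nat.cast_sum, sum_filter, mul_sum]
  refine sum_congr rfl fun b hb => ?_
  rw [mem_Icc] at hb
  unfold lamz QB
  by_cases h2 : ∀ p ∈ pz z, ¬ p ∣ b
  · by_cases h3 : ∀ p ∈ pz z, ¬ p ∣ m * b + n
    · rw [if_pos h2, if_pos h3, if_pos (fun p hp => not_or.2 ⟨h2 p hp, h3 p hp⟩)]
      push_cast
      ring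
    · have h4 : ¬ ∀ p ∈ pz z, ¬ (p ∣ b ∨ p ∣ m * b + n) := fun h => h3 fun p hp hd => h p hp (Or.inr hd)
      rw [if_neg h3, if_neg h4, mul_zero]
      simp
  · have h4 : ¬ ∀ p ∈ pz z, ¬ (p ∣ b ∨ p ∣ m * b + n) := fun h => h2 fun p hp hd => h p hp (Or.inl hd)
    rw [if_neg h2, if_neg h4, zero_mul]
    simp

end Pool.Agent.T2h83.GD
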