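import Pool.Agent.T2h83.GD.WinA

set_option autoImplicit false

/-! The correlations of the von Mangoldt function and the sieve model for the pair of forms `b`, `m b + n`. -/

namespace Pool.Agent.T2h83.GD

open Finset
open Pool.Agent.H373R2.T7
open Pool.Agent.H560R3.GB (sing)
open Pool.Agent.W93.GB
open Pool.Agent.W93.PP (MT MT_sing MT_one MT_le Cnt PS mem_PS ap_main)
open Pool.Agent.W93.PG (lamz_nn)
open Pool.Agent.R460.GP (win_gen)
open Pool.Agent.T2h83.AM (nuL FpL sgL main_L root_card)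

/-- the shift -/
lemma exists_shift (m n z : ℕ) (hm : 1 ≤ m) : ∃ h : ℕ, m ∣ h ∧ ∀ p ∈ pz z, ¬ p ∣ m → p ∣ n + h := by
  obtain ⟨P, hP⟩ : ∃ P, P = ∏ p ∈ (pz z).filter (fun p => ¬ p ∣ m), p := ⟨_, rfl⟩
  have hP1 : 1 ≤ P := by
    rw [hP]
    exact Nat.pos_of_ne_zero (prod_ne_zero_iff.2 fun p hp => (mem_pz.1 (mem_filter.1 hp).1).2.ne_zero)
  have hcop : m.Coprime P := by
    rw [hP]
    apply Nat.Coprime.prod_right
    intro p hp
    rw [mem_filter] at hp
    exact ((Nat.Prime.coprime_iff_not_dvd (mem_pz.1 hp.1).2).2 hp.2).symm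
  obtain ⟨h, h1, h2⟩ := Nat.chineseRemainder hcop 0 ((P - 1) * n)
  refine ⟨h, (Nat.modEq_zero_iff_dvd).1 h1, fun p hp hpm => ?_⟩
  have h3 : p ∣ P := by
    rw [hP]
    exact dvd_prod_of_mem _ (mem_filter.2 ⟨hp, hpm⟩)
  refine h3.trans ?_
  rw [← Nat.modEq_zero_iff_dvd]
  have h4 : n + h ≡ n + (P - 1) * n [MOD P] := h2.add_left n
  refine h4.trans ?_
  have h5 : n + (P - 1) * n = P * n := by
    obtain ⟨P', rfl⟩ : ∃ P', P = P' + 1 := ⟨P - 1, by omega⟩
    rw [Nat.add_sub_cancel]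
    ring
  rw [h5]
  exact (Nat.modEq_zero_iff_dvd).2 (dvd_mul_right _ _)

lemma dvd_iff_shift {m n h p b b₀ : ℕ} (hc : Nat.Coprime n m) (hp : p.Prime) (hmh : m ∣ h)
    (hh : ¬ p ∣ m → p ∣ n + h) (hb₀ : Nat.Coprime b₀ m) (hb : b ≡ b₀ [MOD m]) : p ∣ m * b + n + h ↔ p ∣ b := by
  by_cases hpm : p ∣ m
  · constructor
    · intro h1
      exfalso
      have h2 : p ∣ m * b + h := dvd_add (hpm.mul_right b) (hpm.trans hmh)
      have h3 : m * b + n + h = (m * b + h) + n := by ring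
      rw [h3] at h1
      have h4 : p ∣ n := (Nat.dvd_add_right h2).1 h1
      have h5 := Nat.dvd_gcd h4 hpm
      rw [hc] at h5
      exact hp.one_lt.ne' (Nat.dvd_one.1 h5)
    · intro h1
      exfalso
      have h2 : b ≡ b₀ [MOD p] := Nat.ModEq.of_dvd hpm hb
      have h3 : p ∣ b₀ := (Nat.modEq_zero_iff_dvd).1 (h2.symm.trans ((Nat.modEq_zero_iff_dvd).2 h1))
      have h5 := Nat.dvd_gcd h3 hpm
      rw [hb₀] at h5
      exact hp.one_lt.ne' (Nat.dvd_one.1 h5)
  · rw [add_assoc, Nat.dvd_add_left (hh hpm), hp.dvd_mul]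
    constructor
    · rintro (h1 | h1)
      · exact absurd h1 hpm
      · exact h1
    · exact fun h1 => Or.inr h1

lemma lamz_shift {m n z h b b₀ : ℕ} (hc : Nat.Coprime n m) (hmh : m ∣ h)
    (hh : ∀ p ∈ pz z, ¬ p ∣ m → p ∣ n + h) (hb₀ : Nat.Coprime b₀ m) (hb : b ≡ b₀ [MOD m]) (h1 : 1 ≤ m * b + n) :
    lamzI z (((m * b + n : ℕ) : ℤ) + (h : ℤ)) = lamz z b := by
  unfold lamzI
  rw [if_pos (by omega)]
  have e : (((m * b + n : ℕ) : ℤ) + (h : ℤ)).toNat = m * b + n + h := by omega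
  rw [e]
  unfold lamz
  have h2 : (∀ p ∈ pz z, ¬ p ∣ m * b + n + h) ↔ ∀ p ∈ pz z, ¬ p ∣ b := by
    constructor
    · intro h3 p hp
      rw [← dvd_iff_shift hc (mem_pz.1 hp).2 hmh (hh p hp) hb₀ hb]
      exact h3 p hp
    · intro h3 p hp
      rw [dvd_iff_shift hc (mem_pz.1 hp).2 hmh (hh p hp) hb₀ hb]
      exact h3 p hp
  simp only [h2]

lemma totient_sq (m : ℕ) (hm : 1 ≤ m) : Nat.totient (m ^ 2) = m * Nat.totient m := by
  have h1 := Nat.totient_gcd_mul_totient_mul m m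
  rw [Nat.gcd_self] at h1
  have h2 : 0 < Nat.totient m := Nat.totient_pos.2 (by omega)
  rw [sq]
  apply Nat.eq_of_mul_eq_mul_left h2
  rw [h1]
  ring

lemma MT_shift {m n z h : ℕ} (hm : 1 ≤ m) (hmh : m ∣ h) (hh : ∀ p ∈ pz z, ¬ p ∣ m → p ∣ n + h) :
    MT z (m ^ 2) h = MT z 1 (m * n) / (m * Nat.totient m : ℝ) := by
  have h1 : PS z (m ^ 2) h = PS z 1 (m * n) := by
    ext p
    rw [mem_PS, mem_PS]
    constructor
    · rintro ⟨h2, h3, h4⟩
      refine ⟨h2, fun h5 => h2.2.one_lt.ne' (Nat.dvd_one.1 h5), ?_⟩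
      have h6 : ¬ p ∣ m := fun h7 => h3 (h7.trans (dvd_pow_self m two_ne_zero))
      rw [h2.2.dvd_mul]
      rintro (h7 | h7)
      · exact h6 h7
      · exact h4 ((Nat.dvd_add_right h7).1 (hh p (mem_pz.2 h2) h6))
    · rintro ⟨h2, -, h4⟩
      have h6 : ¬ p ∣ m := fun h7 => h4 (h7.mul_right n)
      have h7 : ¬ p ∣ n := fun h7 => h4 (h7.mul_left m)
      refine ⟨h2, fun h8 => h6 (h2.2.dvd_of_dvd_pow h8), fun h8 => h7 ?_⟩
      exact (Nat.dvd_add_left h8).1 (hh p (mem_pz.2 h2) h6)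
  unfold MT
  rw [h1, Nat.totient_one, Nat.cast_one, div_one, totient_sq m hm]
  push_cast
  ring

/-- the sum over the shifted primes as a sum over progressions -/
lemma split_shift {m n z h y : ℕ} (hm : 1 ≤ m) (hn : n ≠ 0) (hc : Nat.Coprime n m) (hmz : m ≤ z) (hmh : m ∣ h)
    (hh : ∀ p ∈ pz z, ¬ p ∣ m → p ∣ n + h) :
    ∑ b ∈ Icc 1 y, lamz z b * ArithmeticFunction.vonMangoldt (m * b + n) =
      ∑ b₀ ∈ (range m).filter (fun b₀ => Nat.Coprime b₀ m),
        (∑ u ∈ Icc 1 (m * y + n), (if u ≡ m * b₀ + n [MOD m ^ 2] then ArithmeticFunction.vonMangoldt u else 0) *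
            lamzI z ((u : ℤ) + (h : ℤ)) -
          ∑ u ∈ Icc 1 n, (if u ≡ m * b₀ + n [MOD m ^ 2] then ArithmeticFunction.vonMangoldt u else 0) *
            lamzI z ((u : ℤ) + (h : ℤ))) := by
  classical
  have e3 : ∀ y : ℕ, Icc 1 y = Ioc 0 y := by
    intro y
    ext b
    simp only [mem_Icc, mem_Ioc]
    omega
  have h1 : ∀ b₀ ∈ (range m).filter (fun b₀ => Nat.Coprime b₀ m),
      (∑ u ∈ Icc 1 (m * y + n), (if u ≡ m * b₀ + n [MOD m ^ 2] then ArithmeticFunction.vonMangoldt u else 0) *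
            lamzI z ((u : ℤ) + (h : ℤ)) -
          ∑ u ∈ Icc 1 n, (if u ≡ m * b₀ + n [MOD m ^ 2] then ArithmeticFunction.vonMangoldt u else 0) *
            lamzI z ((u : ℤ) + (h : ℤ))) =
      ∑ b ∈ (Icc 1 y).filter (fun b => b % m = b₀), lamz z b * ArithmeticFunction.vonMangoldt (m * b + n) := by
    intro b₀ hb₀
    rw [mem_filter, mem_range] at hb₀
    rw [e3 (m * y + n), e3 n, ← sum_Ioc_consecutive _ (Nat.zero_le n) (Nat.le_add_left n (m * y)), add_sub_cancel_left]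
    have hinj : Set.InjOn (fun b => m * b + n) ((Icc 1 y).filter (fun b => b % m = b₀) : Finset ℕ) := by
      intro a _ b _ hab
      exact Nat.eq_of_mul_eq_mul_left hm (Nat.add_right_cancel hab)
    have hsub : ((Icc 1 y).filter (fun b => b % m = b₀)).image (fun b => m * b + n) ⊆ Ioc n (m * y + n) := by
      intro u hu
      rw [mem_image] at hu
      obtain ⟨b, hb, rfl⟩ := hu
      rw [mem_filter, mem_Icc] at hb
      rw [mem_Ioc]
      have h4 : m * 1 ≤ m * b := Nat.mul_le_mul_left m hb.1.1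
      have h5 : m * b ≤ m * y := Nat.mul_le_mul_left m hb.1.2
      omega
    rw [← sum_subset hsub]
    · rw [sum_image hinj]
      refine sum_congr rfl fun b hb => ?_
      rw [mem_filter, mem_Icc] at hb
      have hbm : b ≡ b₀ [MOD m] := by
        unfold Nat.ModEq
        rw [hb.2, Nat.mod_eq_of_lt hb₀.1]
      have h2 : m * b + n ≡ m * b₀ + n [MOD m ^ 2] := by
        apply Nat.ModEq.add_right
        rw [sq]
        exact Nat.ModEq.mul_left' m hbm
      rw [if_pos h2, lamz_shift hc hmh hh hb₀.2 hbm (by omega), mul_comm]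
    · intro u hu hu2
      rw [if_neg, zero_mul]
      intro h2
      apply hu2
      rw [mem_Ioc] at hu
      have h3 : u ≡ m * b₀ + n [MOD m] := Nat.ModEq.of_dvd (dvd_pow_self m two_ne_zero) h2
      have h4 : m * b₀ + n ≡ 0 + n [MOD m] :=
        Nat.ModEq.add_right n ((Nat.modEq_zero_iff_dvd).2 (Nat.dvd_mul_right m b₀))
      rw [zero_add] at h4
      have h5 : m ∣ u - n := (Nat.modEq_iff_dvd' hu.1.le).1 (h3.trans h4).symm
      obtain ⟨b, hb⟩ := h5
      have h6 : u = m * b + n := by omega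
      rw [mem_image]
      refine ⟨b, ?_, h6.symm⟩
      rw [mem_filter, mem_Icc]
      rw [h6] at h2 hu
      have h7 : m * b ≡ m * b₀ [MOD m ^ 2] := Nat.ModEq.add_right_cancel' n h2
      rw [sq] at h7
      have h8 : b ≡ b₀ [MOD m] := Nat.ModEq.mul_left_cancel' (by omega) h7
      refine ⟨⟨?_, ?_⟩, ?_⟩
      · rcases Nat.eq_zero_or_pos b with h9 | h9
        · rw [h9] at hu
          omega
        · exact h9
      · have h9 : m * b ≤ m * y := by omega
        exact Nat.le_of_mul_le_mul_left h9 hm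
      · unfold Nat.ModEq at h8
        rwa [Nat.mod_eq_of_lt hb₀.1] at h8
  rw [sum_congr rfl h1]
  have h2 : ∀ b ∈ Icc 1 y, ¬ Nat.Coprime (b % m) m → lamz z b * ArithmeticFunction.vonMangoldt (m * b + n) = 0 := by
    intro b _ hb
    obtain ⟨p, hp, h3, h4⟩ := Nat.Prime.not_coprime_iff_dvd.1 hb
    have h5 : p ∣ b := (Nat.dvd_mod_iff h4).1 h3
    have h6 : lamz z b = 0 := by
      unfold lamz
      rw [if_neg]
      intro h7
      exact h7 p (mem_pz.2 ⟨(Nat.le_of_dvd (by omega) h4).trans hmz, hp⟩) h5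
    rw [h6, zero_mul]
  have h3 : ∑ b ∈ Icc 1 y, lamz z b * ArithmeticFunction.vonMangoldt (m * b + n) =
      ∑ b ∈ (Icc 1 y).filter (fun b => Nat.Coprime (b % m) m), lamz z b * ArithmeticFunction.vonMangoldt (m * b + n) := by
    rw [sum_filter]
    refine sum_congr rfl fun b hb => ?_
    split_ifs with h
    · rfl
    · exact h2 b hb h
  rw [h3, ← sum_fiberwise_of_maps_to (s := (Icc 1 y).filter (fun b => Nat.Coprime (b % m) m))
    (t := (range m).filter (fun b₀ => Nat.Coprime b₀ m)) (g := fun b => b % m)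
    (fun b hb => mem_filter.2 ⟨mem_range.2 (Nat.mod_lt _ hm), (mem_filter.1 hb).2⟩)]
  refine sum_congr rfl fun b₀ hb₀ => ?_
  rw [filter_filter]
  apply sum_congr _ fun _ _ => rfl
  apply filter_congr
  intro b _
  constructor
  · rintro ⟨-, h5⟩
    exact h5
  · intro h5
    refine ⟨?_, h5⟩
    rw [h5]
    exact (mem_filter.1 hb₀).2

end Pool.Agent.T2h83.GD
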